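import Mathlib

set_option autoImplicit false

open Set MeasureTheory

namespace Pool.Agent.WeakRoots

section defs

variable {F : Type} [NormedAddCommGroup F] [NormedSpace ℝ F]

/-- `f` is `C^k` on `s` and its `k`-th derivative is Lipschitz with constant `L`. -/
def LT (k : ℕ) (L : ℝ) (f : ℝ → F) (s : Set ℝ) : Prop :=
  ContDiffOn ℝ k f s ∧ ∀ x ∈ s, ∀ y ∈ s,
    ‖iteratedDerivWithin k f s x - iteratedDerivWithin k f s y‖ ≤ L * |x - y|

/-- `f` is of class `C^{k,1}` on `s` with all bounds `M`. -/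
def CL (k : ℕ) (M : ℝ) (f : ℝ → F) (s : Set ℝ) : Prop :=
  LT k M f s ∧ ∀ i ≤ k, ∀ x ∈ s, ‖iteratedDerivWithin i f s x‖ ≤ M

end defs

section basic

variable {F : Type} [NormedAddCommGroup F] [NormedSpace ℝ F] {f g : ℝ → F} {s t : Set ℝ}
  {k : ℕ} {L M N : ℝ}

lemma LT_succ (hs : UniqueDiffOn ℝ s) :
    LT (k + 1) L f s ↔ DifferentiableOn ℝ f s ∧ LT k L (derivWithin f s) s := by
  unfold LT
  rw [Nat.cast_add, Nat.cast_one, contDiffOn_succ_iff_derivWithin hs, iteratedDerivWithin_succ']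
  constructor
  · rintro ⟨⟨h1, _, h2⟩, h3⟩
    exact ⟨h1, h2, h3⟩
  · rintro ⟨h1, h2, h3⟩
    refine ⟨⟨h1, ?_, h2⟩, h3⟩
    intro h
    exact absurd h (by simp)

lemma LT_zero_of (h : ∀ x ∈ s, ∀ y ∈ s, ‖f x - f y‖ ≤ L * |x - y|) : LT 0 L f s := by
  have hc : ContinuousOn f s := by
    have hL : LipschitzOnWith (Real.toNNReal L) f s := by
      refine LipschitzOnWith.of_dist_le_mul fun x hx y hy => ?_
      rw [dist_eq_norm, Real.dist_eq]
      refine (h x hx y hy).trans ?_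
      gcongr
      exact Real.le_coe_toNNReal L
    exact hL.continuousOn
  refine ⟨?_, ?_⟩
  · have h0 := (contDiffOn_zero (𝕜 := ℝ)).mpr hc
    simpa using h0
  · simpa [iteratedDerivWithin_zero] using h

lemma LT_zero : LT 0 L f s ↔ ∀ x ∈ s, ∀ y ∈ s, ‖f x - f y‖ ≤ L * |x - y| := by
  constructor
  · intro h
    simpa [iteratedDerivWithin_zero] using h.2
  · exact LT_zero_of

lemma CL_zero : CL 0 M f s ↔ (∀ x ∈ s, ∀ y ∈ s, ‖f x - f y‖ ≤ M * |x - y|) ∧
    ∀ x ∈ s, ‖f x‖ ≤ M := by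
  unfold CL
  rw [LT_zero]
  simp [iteratedDerivWithin_zero]

lemma CL_succ (hs : UniqueDiffOn ℝ s) :
    CL (k + 1) M f s ↔ DifferentiableOn ℝ f s ∧ (∀ x ∈ s, ‖f x‖ ≤ M) ∧
      CL k M (derivWithin f s) s := by
  unfold CL
  rw [LT_succ hs]
  constructor
  · rintro ⟨⟨h1, h2⟩, h3⟩
    refine ⟨h1, ?_, h2, ?_⟩
    · intro x hx
      simpa using h3 0 (Nat.zero_le _) x hx
    · intro i hi x hx
      have := h3 (i + 1) (by omega) x hx
      rwa [iteratedDerivWithin_succ'] at this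
  · rintro ⟨h1, h2, h3, h4⟩
    refine ⟨⟨h1, h3⟩, ?_⟩
    intro i hi x hx
    cases i with
    | zero => simpa using h2 x hx
    | succ i =>
      rw [iteratedDerivWithin_succ']
      exact h4 i (by omega) x hx

lemma LT.congr (h : LT k L f s) (hfg : EqOn g f s) : LT k L g s := by
  refine ⟨h.1.congr hfg, ?_⟩
  intro x hx y hy
  rw [iteratedDerivWithin_congr hfg hx, iteratedDerivWithin_congr hfg hy]
  exact h.2 x hx y hy

lemma CL.congr (h : CL k M f s) (hfg : EqOn g f s) : CL k M g s := by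
  refine ⟨h.1.congr hfg, ?_⟩
  intro i hi x hx
  rw [iteratedDerivWithin_congr hfg hx]
  exact h.2 i hi x hx

lemma CL.norm_le (h : CL k M f s) {x : ℝ} (hx : x ∈ s) : ‖f x‖ ≤ M := by
  simpa using h.2 0 (Nat.zero_le _) x hx

lemma CL.nonneg (h : CL k M f s) (hne : s.Nonempty) : 0 ≤ M := by
  obtain ⟨x, hx⟩ := hne
  exact (norm_nonneg _).trans (h.norm_le hx)

lemma LT.mono (h : LT k L f s) (hL : L ≤ M) : LT k M f s := by
  refine ⟨h.1, fun x hx y hy => (h.2 x hx y hy).trans ?_⟩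
  gcongr

lemma CL.mono (h : CL k M f s) (hM : M ≤ N) : CL k N f s :=
  ⟨h.1.mono hM, fun i hi x hx => (h.2 i hi x hx).trans hM⟩

lemma CL_succ_of_hasDeriv (hs : UniqueDiffOn ℝ s) {f' : ℝ → F}
    (hd : ∀ x ∈ s, HasDerivWithinAt f (f' x) s x) (hb : ∀ x ∈ s, ‖f x‖ ≤ M)
    (h : CL k M f' s) : CL (k + 1) M f s := by
  rw [CL_succ hs]
  refine ⟨fun x hx => (hd x hx).differentiableWithinAt, hb, h.congr ?_⟩
  intro x hx
  exact (hd x hx).derivWithin (hs x hx)

lemma LT_succ_of_hasDeriv (hs : UniqueDiffOn ℝ s) {f' : ℝ → F}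
    (hd : ∀ x ∈ s, HasDerivWithinAt f (f' x) s x)
    (h : LT k L f' s) : LT (k + 1) L f s := by
  rw [LT_succ hs]
  refine ⟨fun x hx => (hd x hx).differentiableWithinAt, h.congr ?_⟩
  intro x hx
  exact (hd x hx).derivWithin (hs x hx)

lemma LT.hasDeriv (hs : UniqueDiffOn ℝ s) (h : LT (k + 1) L f s) {x : ℝ} (hx : x ∈ s) :
    HasDerivWithinAt f (derivWithin f s x) s x :=
  (((LT_succ hs).mp h).1 x hx).hasDerivWithinAt

lemma CL.hasDeriv (hs : UniqueDiffOn ℝ s) (h : CL (k + 1) M f s) {x : ℝ} (hx : x ∈ s) :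
    HasDerivWithinAt f (derivWithin f s x) s x :=
  h.1.hasDeriv hs hx

lemma CL.deriv (hs : UniqueDiffOn ℝ s) (h : CL (k + 1) M f s) : CL k M (derivWithin f s) s :=
  ((CL_succ hs).mp h).2.2

lemma LT.deriv (hs : UniqueDiffOn ℝ s) (h : LT (k + 1) L f s) : LT k L (derivWithin f s) s :=
  ((LT_succ hs).mp h).2

/-- Restriction to a smaller set. -/
lemma LT.restrict (hs : UniqueDiffOn ℝ s) (ht : UniqueDiffOn ℝ t) (hts : t ⊆ s) :
    ∀ {k : ℕ} {f : ℝ → F}, LT k L f s → LT k L f t := by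
  intro k
  induction k with
  | zero =>
    intro f h
    rw [LT_zero] at h ⊢
    exact fun x hx y hy => h x (hts hx) y (hts hy)
  | succ k ih =>
    intro f h
    refine LT_succ_of_hasDeriv ht (f' := derivWithin f s) ?_ (ih (h.deriv hs))
    intro x hx
    exact (h.hasDeriv hs (hts hx)).mono hts

lemma CL.restrict (hs : UniqueDiffOn ℝ s) (ht : UniqueDiffOn ℝ t) (hts : t ⊆ s) :
    ∀ {k : ℕ} {f : ℝ → F}, CL k M f s → CL k M f t := by
  intro k
  induction k with
  | zero =>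
    intro f h
    rw [CL_zero] at h ⊢
    exact ⟨fun x hx y hy => h.1 x (hts hx) y (hts hy), fun x hx => h.2 x (hts hx)⟩
  | succ k ih =>
    intro f h
    refine CL_succ_of_hasDeriv ht (f' := derivWithin f s) ?_ ?_ (ih (h.deriv hs))
    · intro x hx
      exact (h.hasDeriv hs (hts hx)).mono hts
    · intro x hx
      exact h.norm_le (hts hx)

/-- A bound of the derivative gives a Lipschitz bound on a convex set. -/
lemma lip_of_deriv_bound (hs : Convex ℝ s) {f' : ℝ → F}
    (hd : ∀ x ∈ s, HasDerivWithinAt f (f' x) s x) (hb : ∀ x ∈ s, ‖f' x‖ ≤ M) :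
    ∀ x ∈ s, ∀ y ∈ s, ‖f x - f y‖ ≤ M * |x - y| := by
  intro x hx y hy
  have := hs.norm_image_sub_le_of_norm_hasDerivWithin_le hd hb hy hx
  simpa [Real.norm_eq_abs] using this

lemma CL.pred (hs : UniqueDiffOn ℝ s) (hc : Convex ℝ s) :
    ∀ {k : ℕ} {f : ℝ → F}, CL (k + 1) M f s → CL k M f s := by
  intro k
  induction k with
  | zero =>
    intro f h
    rw [CL_zero]
    refine ⟨lip_of_deriv_bound hc (fun x hx => h.hasDeriv hs hx) ?_, fun x hx => h.norm_le hx⟩
    intro x hx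
    exact (h.deriv hs).norm_le hx
  | succ k ih =>
    intro f h
    refine CL_succ_of_hasDeriv hs (fun x hx => h.hasDeriv hs hx) (fun x hx => h.norm_le hx)
      (ih (h.deriv hs))

lemma CL.lower (hs : UniqueDiffOn ℝ s) (hc : Convex ℝ s) {j : ℕ} (hjk : j ≤ k)
    (h : CL k M f s) : CL j M f s := by
  induction k, hjk using Nat.le_induction with
  | base => exact h
  | succ k _ ih => exact ih (h.pred hs hc)

lemma CL.lip (hs : UniqueDiffOn ℝ s) (hc : Convex ℝ s) (h : CL k M f s) :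
    ∀ x ∈ s, ∀ y ∈ s, ‖f x - f y‖ ≤ M * |x - y| :=
  (CL_zero.mp (h.lower hs hc (Nat.zero_le k))).1

lemma CL.continuousOn (h : CL k M f s) : ContinuousOn f s := h.1.1.continuousOn

lemma LT.continuousOn (h : LT k M f s) : ContinuousOn f s := h.1.continuousOn

end basic

section maps

variable {E F G : Type} [NormedAddCommGroup E] [NormedSpace ℝ E] [NormedAddCommGroup F]
  [NormedSpace ℝ F] [NormedAddCommGroup G] [NormedSpace ℝ G] {s t : Set ℝ}

/-- Composition with a continuous linear map. -/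
lemma CL.clm (hs : UniqueDiffOn ℝ s) (T : E →L[ℝ] F) {C : ℝ} (hT : ‖T‖ ≤ C) :
    ∀ {k : ℕ} {M : ℝ} {f : ℝ → E}, CL k M f s → CL k (C * M) (fun x => T (f x)) s := by
  have hC : 0 ≤ C := (norm_nonneg T).trans hT
  intro k
  induction k with
  | zero =>
    intro M f h
    rw [CL_zero] at h ⊢
    constructor
    · intro x hx y hy
      rw [← map_sub, mul_assoc]
      exact (T.le_opNorm _).trans (mul_le_mul hT (h.1 x hx y hy) (norm_nonneg _) hC)
    · intro x hx
      exact (T.le_opNorm _).trans (mul_le_mul hT (h.2 x hx) (norm_nonneg _) hC)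
  | succ k ih =>
    intro M f h
    refine CL_succ_of_hasDeriv hs (f' := fun x => T (derivWithin f s x)) ?_ ?_
      (ih (h.deriv hs))
    · intro x hx
      exact T.hasFDerivAt.comp_hasDerivWithinAt x (h.hasDeriv hs hx)
    · intro x hx
      exact (T.le_opNorm _).trans (mul_le_mul hT (h.norm_le hx) (norm_nonneg _) hC)

lemma LT.clm (hs : UniqueDiffOn ℝ s) (T : E →L[ℝ] F) {C : ℝ} (hT : ‖T‖ ≤ C) :
    ∀ {k : ℕ} {L : ℝ} {f : ℝ → E}, LT k L f s → LT k (C * L) (fun x => T (f x)) s := by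
  have hC : 0 ≤ C := (norm_nonneg T).trans hT
  intro k
  induction k with
  | zero =>
    intro M f h
    rw [LT_zero] at h ⊢
    intro x hx y hy
    rw [← map_sub, mul_assoc]
    exact (T.le_opNorm _).trans (mul_le_mul hT (h x hx y hy) (norm_nonneg _) hC)
  | succ k ih =>
    intro M f h
    refine LT_succ_of_hasDeriv hs (f' := fun x => T (derivWithin f s x)) ?_
      (ih (h.deriv hs))
    intro x hx
    exact T.hasFDerivAt.comp_hasDerivWithinAt x (h.hasDeriv hs hx)

lemma CL.add (hs : UniqueDiffOn ℝ s) :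
    ∀ {k : ℕ} {M N : ℝ} {f g : ℝ → F}, CL k M f s → CL k N g s →
      CL k (M + N) (fun x => f x + g x) s := by
  intro k
  induction k with
  | zero =>
    intro M N f g hf hg
    rw [CL_zero] at hf hg ⊢
    constructor
    · intro x hx y hy
      calc ‖f x + g x - (f y + g y)‖ = ‖(f x - f y) + (g x - g y)‖ := by congr 1; abel
        _ ≤ ‖f x - f y‖ + ‖g x - g y‖ := norm_add_le _ _
        _ ≤ M * |x - y| + N * |x - y| := add_le_add (hf.1 x hx y hy) (hg.1 x hx y hy)
        _ = (M + N) * |x - y| := by ring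
    · intro x hx
      exact (norm_add_le _ _).trans (add_le_add (hf.2 x hx) (hg.2 x hx))
  | succ k ih =>
    intro M N f g hf hg
    refine CL_succ_of_hasDeriv hs
      (f' := fun x => derivWithin f s x + derivWithin g s x) ?_ ?_ (ih (hf.deriv hs) (hg.deriv hs))
    · intro x hx
      exact (hf.hasDeriv hs hx).add (hg.hasDeriv hs hx)
    · intro x hx
      exact (norm_add_le _ _).trans (add_le_add (hf.norm_le hx) (hg.norm_le hx))

/-- Bilinear maps. -/
lemma CL.bilin (hs : UniqueDiffOn ℝ s) (hc : Convex ℝ s) (B : E →L[ℝ] F →L[ℝ] G)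
    (hB : ‖B‖ ≤ 1) : ∀ {k : ℕ} {M N : ℝ} {f : ℝ → E} {g : ℝ → F}, 0 ≤ M → 0 ≤ N →
      CL k M f s → CL k N g s → CL k (2 ^ (k + 1) * M * N) (fun x => B (f x) (g x)) s := by
  have hBle : ∀ u v, ‖B u v‖ ≤ ‖u‖ * ‖v‖ := by
    intro u v
    refine (B.le_opNorm₂ u v).trans ?_
    have : 0 ≤ ‖u‖ * ‖v‖ := by positivity
    nlinarith
  intro k
  induction k with
  | zero =>
    intro M N f g hM hN hf hg
    rw [CL_zero] at hf hg ⊢
    constructor
    · intro x hx y hy
      calc ‖B (f x) (g x) - B (f y) (g y)‖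
          = ‖B (f x - f y) (g x) + B (f y) (g x - g y)‖ := by
            congr 1
            simp only [map_sub, _root_.sub_apply]
            abel
        _ ≤ ‖f x - f y‖ * ‖g x‖ + ‖f y‖ * ‖g x - g y‖ :=
            (norm_add_le _ _).trans (add_le_add (hBle _ _) (hBle _ _))
        _ ≤ (M * |x - y|) * N + M * (N * |x - y|) := by
            gcongr
            · exact hf.1 x hx y hy
            · exact hg.2 x hx
            · exact hf.2 y hy
            · exact hg.1 x hx y hy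
        _ = 2 ^ (0 + 1) * M * N * |x - y| := by ring
    · intro x hx
      calc ‖B (f x) (g x)‖ ≤ ‖f x‖ * ‖g x‖ := hBle _ _
        _ ≤ M * N := by
          gcongr
          · exact hf.2 x hx
          · exact hg.2 x hx
        _ ≤ 2 ^ (0 + 1) * M * N := by
          have : 0 ≤ M * N := by positivity
          rw [zero_add, pow_one, mul_assoc]
          linarith
  | succ k ih =>
    intro M N f g hM hN hf hg
    have h1 := ih hM hN (hf.pred hs hc) (hg.deriv hs)
    have h2 := ih hM hN (hf.deriv hs) (hg.pred hs hc)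
    refine CL_succ_of_hasDeriv hs
      (f' := fun x => B (f x) (derivWithin g s x) + B (derivWithin f s x) (g x)) ?_ ?_ ?_
    · intro x hx
      exact B.hasDerivWithinAt_of_bilinear (hf.hasDeriv hs hx) (hg.hasDeriv hs hx)
    · intro x hx
      calc ‖B (f x) (g x)‖ ≤ ‖f x‖ * ‖g x‖ := hBle _ _
        _ ≤ M * N := by
          gcongr
          · exact hf.norm_le hx
          · exact hg.norm_le hx
        _ ≤ 2 ^ (k + 1 + 1) * M * N := by
          have h0 : 0 ≤ M * N := by positivity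
          have h1 : (1 : ℝ) ≤ 2 ^ (k + 1 + 1) := one_le_pow₀ (by norm_num)
          nlinarith
    · refine (h1.add hs h2).mono (le_of_eq ?_)
      ring

/-- Post-composition with a smooth map, on a convex compact subset of its domain. -/
lemma CL.comp_smooth (hs : UniqueDiffOn ℝ s) (hc : Convex ℝ s)
    {U K : Set E} (hU : IsOpen U) (hK : IsCompact K) (hKc : Convex ℝ K) (hKU : K ⊆ U) :
    ∀ (k : ℕ) {F : Type} [NormedAddCommGroup F] [NormedSpace ℝ F] (ψ : E → F),
      ContDiffOn ℝ (k + 1) ψ U → ∀ M : ℝ, 0 ≤ M → ∃ C : ℝ, 0 ≤ C ∧ ∀ a : ℝ → E, CL k M a s →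
        (∀ x ∈ s, a x ∈ K) → CL k C (fun x => ψ (a x)) s := by
  -- uniform bounds
  have key : ∀ {F : Type} [NormedAddCommGroup F] [NormedSpace ℝ F] (ψ : E → F),
      ContDiffOn ℝ 1 ψ U → ∃ C : ℝ, 0 ≤ C ∧ (∀ y ∈ K, ‖ψ y‖ ≤ C) ∧
        ∀ y ∈ K, ∀ z ∈ K, ‖ψ y - ψ z‖ ≤ C * ‖y - z‖ := by
    intro F _ _ ψ hψ
    obtain ⟨C₁, hC₁⟩ := hK.exists_bound_of_continuousOn (hψ.continuousOn.mono hKU)
    have hd : ContinuousOn (fderiv ℝ ψ) U :=
      hψ.continuousOn_fderiv_of_isOpen hU (by norm_num)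
    obtain ⟨C₂, hC₂⟩ := hK.exists_bound_of_continuousOn (hd.mono hKU)
    refine ⟨max 0 (max C₁ C₂), le_max_left _ _, ?_, ?_⟩
    · intro y hy
      exact (hC₁ y hy).trans ((le_max_left _ _).trans (le_max_right _ _))
    · intro y hy z hz
      refine hKc.norm_image_sub_le_of_norm_fderiv_le (𝕜 := ℝ) ?_ ?_ hz hy
      · intro w hw
        exact (hψ.differentiableOn (by norm_num) |>.differentiableAt (hU.mem_nhds (hKU hw)))
      · intro w hw
        exact (hC₂ w hw).trans ((le_max_right _ _).trans (le_max_right _ _))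
  intro k
  induction k with
  | zero =>
    intro F _ _ ψ hψ M hM
    obtain ⟨C, hC0, hC1, hC2⟩ := key ψ (by simpa using hψ)
    refine ⟨max C (C * M), le_max_of_le_left hC0, ?_⟩
    intro a ha haK
    rw [CL_zero] at ha ⊢
    constructor
    · intro x hx y hy
      calc ‖ψ (a x) - ψ (a y)‖ ≤ C * ‖a x - a y‖ := hC2 _ (haK x hx) _ (haK y hy)
        _ ≤ C * (M * |x - y|) := by gcongr; exact ha.1 x hx y hy
        _ = (C * M) * |x - y| := by ring
        _ ≤ max C (C * M) * |x - y| := by gcongr; exact le_max_right _ _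
    · intro x hx
      exact (hC1 _ (haK x hx)).trans (le_max_left _ _)
  | succ k ih =>
    intro F _ _ ψ hψ M hM
    have hψ1 : ContDiffOn ℝ 1 ψ U := hψ.of_le (by
      norm_cast; omega)
    obtain ⟨C, hC0, hC1, -⟩ := key ψ hψ1
    have hd : ContDiffOn ℝ (k + 1) (fderiv ℝ ψ) U := by
      refine hψ.fderiv_of_isOpen hU ?_
      norm_cast
    obtain ⟨C', hC'0, hC'⟩ := ih (fderiv ℝ ψ) hd M hM
    refine ⟨max C (2 ^ (k + 1) * C' * M), le_max_of_le_left hC0, ?_⟩
    intro a ha haK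
    have h1 : CL k C' (fun x => fderiv ℝ ψ (a x)) s := hC' a (ha.pred hs hc) haK
    have h2 := CL.bilin hs hc (ContinuousLinearMap.id ℝ (E →L[ℝ] F))
      ContinuousLinearMap.norm_id_le hC'0 hM h1 (ha.deriv hs)
    refine CL_succ_of_hasDeriv hs (f' := fun x => fderiv ℝ ψ (a x) (derivWithin a s x)) ?_ ?_ ?_
    · intro x hx
      have hdiff : DifferentiableAt ℝ ψ (a x) :=
        (hψ1.differentiableOn (by norm_num)).differentiableAt (hU.mem_nhds (hKU (haK x hx)))
      exact hdiff.hasFDerivAt.comp_hasDerivWithinAt x (ha.hasDeriv hs hx)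
    · intro x hx
      exact (hC1 _ (haK x hx)).trans (le_max_left _ _)
    · exact CL.mono h2 (le_max_right _ _)

end maps

end Pool.Agent.WeakRoots
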