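import Pool.Agent.WeakRoots.Interp

set_option autoImplicit false

open Set MeasureTheory

namespace Pool.Agent.WeakRoots

/-! ### Signed roots -/

/-- The signed `j`-th root. -/
noncomputable def sr (j : ℕ) (x : ℝ) : ℝ :=
  if 0 ≤ x then x ^ ((1 : ℝ) / j) else -((-x) ^ ((1 : ℝ) / j))

lemma sr_nonneg {j : ℕ} (hj : j ≠ 0) {x : ℝ} (hx : 0 ≤ x) : 0 ≤ sr j x ∧ (sr j x) ^ j = x := by
  unfold sr
  rw [if_pos hx]
  refine ⟨by positivity, ?_⟩
  rw [one_div, Real.rpow_inv_natCast_pow hx hj]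

lemma sr_neg {j : ℕ} (hj : j ≠ 0) {x : ℝ} (hx : x < 0) :
    sr j x ≤ 0 ∧ (-(sr j x)) ^ j = -x := by
  unfold sr
  rw [if_neg (not_le.mpr hx)]
  have : 0 ≤ -x := by linarith
  refine ⟨by rw [neg_nonpos]; positivity, ?_⟩
  rw [neg_neg, one_div, Real.rpow_inv_natCast_pow this hj]

lemma pow_succ_sub_le {a b A : ℝ} (ha : 0 ≤ a) (hab : a ≤ b) (hb : b ≤ A) (j : ℕ) :
    b ^ (j + 1) - a ^ (j + 1) ≤ (j + 1) * A ^ j * (b - a) := by
  induction j with
  | zero => simp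
  | succ j ih =>
    have hb0 : 0 ≤ b := ha.trans hab
    have hA : 0 ≤ A := hb0.trans hb
    have h1 : b ^ (j + 1 + 1) - a ^ (j + 1 + 1) =
        b * (b ^ (j + 1) - a ^ (j + 1)) + a ^ (j + 1) * (b - a) := by ring
    have h2 : 0 ≤ b ^ (j + 1) - a ^ (j + 1) := sub_nonneg.mpr (pow_le_pow_left₀ ha hab _)
    have h3 : b * (b ^ (j + 1) - a ^ (j + 1)) ≤ A * ((j + 1) * A ^ j * (b - a)) :=
      mul_le_mul hb ih h2 hA
    have h4 : a ^ (j + 1) * (b - a) ≤ A ^ (j + 1) * (b - a) := by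
      have := pow_le_pow_left₀ ha (hab.trans hb) (j + 1)
      exact mul_le_mul_of_nonneg_right this (by linarith)
    rw [h1]
    push_cast
    have h5 : A * ((j + 1) * A ^ j * (b - a)) + A ^ (j + 1) * (b - a) =
      (j + 1 + 1) * A ^ (j + 1) * (b - a) := by ring
    linarith

lemma sr_abs_le {j : ℕ} (hj : j ≠ 0) {x A : ℝ} (hA : 0 ≤ A) (hx : |x| ≤ A ^ j) : |sr j x| ≤ A := by
  rcases le_or_gt 0 x with h | h
  · obtain ⟨h1, h2⟩ := sr_nonneg hj h
    rw [abs_of_nonneg h1]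
    rw [abs_of_nonneg h] at hx
    by_contra hcon
    push Not at hcon
    have := pow_lt_pow_left₀ hcon hA hj
    linarith
  · obtain ⟨h1, h2⟩ := sr_neg hj h
    rw [abs_of_nonpos h1]
    rw [abs_of_neg h] at hx
    by_contra hcon
    push Not at hcon
    have := pow_lt_pow_left₀ hcon hA hj
    linarith

lemma sr_mono {j : ℕ} (hj : j ≠ 0) : Monotone (sr j) := by
  intro x y hxy
  rcases le_or_gt 0 x with hx | hx
  · have hy : 0 ≤ y := hx.trans hxy
    unfold sr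
    rw [if_pos hx, if_pos hy]
    exact Real.rpow_le_rpow hx hxy (by positivity)
  · rcases le_or_gt 0 y with hy | hy
    · exact (sr_neg hj hx).1.trans (sr_nonneg hj hy).1
    · unfold sr
      rw [if_neg (not_le.mpr hx), if_neg (not_le.mpr hy)]
      refine neg_le_neg ?_
      exact Real.rpow_le_rpow (by linarith) (by linarith) (by positivity)

lemma sr_key (w : ℕ) {v z A : ℝ} (hA : 0 ≤ A) (hvz : v ≤ z) (hv : |v| ≤ A ^ (w + 1))
    (hz : |z| ≤ A ^ (w + 1)) :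
    z - v ≤ (w + 1) * A ^ w * (sr (w + 1) z - sr (w + 1) v) := by
  have hj : w + 1 ≠ 0 := Nat.succ_ne_zero w
  have hav := sr_abs_le hj hA hv
  have haz := sr_abs_le hj hA hz
  have hm := sr_mono hj hvz
  rcases le_or_gt 0 v with h | h
  · have h' : 0 ≤ z := h.trans hvz
    obtain ⟨h1, h2⟩ := sr_nonneg hj h
    obtain ⟨h3, h4⟩ := sr_nonneg hj h'
    have := pow_succ_sub_le h1 hm ((le_abs_self _).trans haz) w
    rw [h2, h4] at this
    exact this
  · obtain ⟨h1, h2⟩ := sr_neg hj h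
    rcases le_or_gt 0 z with h' | h'
    · obtain ⟨h3, h4⟩ := sr_nonneg hj h'
      set a := -(sr (w + 1) v) with ha
      set b := sr (w + 1) z with hb
      have ha0 : 0 ≤ a := by rw [ha]; linarith
      have haA : a ≤ A := by
        have := (neg_le_abs (sr (w + 1) v)).trans hav
        rw [ha]; exact this
      have hbA : b ≤ A := (le_abs_self _).trans haz
      have e1 : a ^ (w + 1) ≤ A ^ w * a := by
        rw [pow_succ]
        exact mul_le_mul_of_nonneg_right (pow_le_pow_left₀ ha0 haA w) ha0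
      have e2 : b ^ (w + 1) ≤ A ^ w * b := by
        rw [pow_succ]
        exact mul_le_mul_of_nonneg_right (pow_le_pow_left₀ h3 hbA w) h3
      have e3 : z - v ≤ A ^ w * (b + a) := by
        have : z - v = b ^ (w + 1) + a ^ (w + 1) := by rw [h4, h2]; ring
        rw [this]; linarith
      have e4 : A ^ w * (b + a) ≤ (w + 1) * A ^ w * (b + a) := by
        have h5 : 0 ≤ A ^ w * (b + a) := mul_nonneg (pow_nonneg hA w) (by linarith)
        have h6 : (0 : ℝ) ≤ w := Nat.cast_nonneg w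
        nlinarith
      have e5 : b - sr (w + 1) v = b + a := by rw [ha]; ring
      rw [e5]
      linarith
    · obtain ⟨h3, h4⟩ := sr_neg hj h'
      have h5 : -(sr (w + 1) v) ≤ A := (neg_le_abs _).trans hav
      have := pow_succ_sub_le (a := -(sr (w + 1) z)) (b := -(sr (w + 1) v)) (A := A)
        (by linarith) (by linarith) h5 w
      rw [h2, h4] at this
      calc z - v = -v - -z := by ring
        _ ≤ _ := this
        _ = _ := by ring

/-! ### Families of intervals -/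

/-- A finite family of non-overlapping intervals on which `u` oscillates. -/
structure Fam {ι : Type} (u : ℝ → ℝ) (w : ℕ) (c : ℝ) (B : Finset ι) (l r A : ι → ℝ) : Prop where
  hlr : ∀ i ∈ B, l i < r i
  hA : ∀ i ∈ B, 0 < A i
  disj : ∀ i ∈ B, ∀ i' ∈ B, i ≠ i' → r i ≤ l i' ∨ r i' ≤ l i
  bd : ∀ i ∈ B, ∀ t ∈ Icc (l i) (r i), |u t| ≤ A i ^ (w + 1)
  osc : ∀ i ∈ B, ∃ t ∈ Icc (l i) (r i), ∃ t' ∈ Icc (l i) (r i), c * A i ^ (w + 1) ≤ u t - u t'

lemma Fam.subset {ι : Type} {u : ℝ → ℝ} {w : ℕ} {c : ℝ} {B B' : Finset ι} {l r A : ι → ℝ}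
    (h : Fam u w c B l r A) (hB : B' ⊆ B) : Fam u w c B' l r A where
  hlr := fun i hi => h.hlr i (hB hi)
  hA := fun i hi => h.hA i (hB hi)
  disj := fun i hi i' hi' => h.disj i (hB hi) i' (hB hi')
  bd := fun i hi => h.bd i (hB hi)
  osc := fun i hi => h.osc i (hB hi)

lemma Fam.neg {ι : Type} {u : ℝ → ℝ} {w : ℕ} {c : ℝ} {B : Finset ι} {l r A : ι → ℝ}
    (h : Fam u w c B l r A) : Fam (fun t => -u t) w c B l r A where
  hlr := h.hlr
  hA := h.hA
  disj := h.disj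
  bd := fun i hi t ht => by simpa using h.bd i hi t ht
  osc := fun i hi => by
    obtain ⟨t, ht, t', ht', h1⟩ := h.osc i hi
    exact ⟨t', ht', t, ht, by linarith⟩

/-- Disjoint open intervals inside `[-D, D]` have total length at most `2 D`. -/
lemma sum_len_le {ι : Type} (B : Finset ι) (a b : ι → ℝ) (D : ℝ) (hD : 0 ≤ D)
    (hab : ∀ i ∈ B, a i ≤ b i) (ha : ∀ i ∈ B, -D ≤ a i) (hb : ∀ i ∈ B, b i ≤ D)
    (hdisj : ∀ i ∈ B, ∀ i' ∈ B, i ≠ i' → b i ≤ a i' ∨ b i' ≤ a i) :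
    ∑ i ∈ B, (b i - a i) ≤ 2 * D := by
  have hdis : (B : Set ι).PairwiseDisjoint (fun i => Ioo (a i) (b i)) := by
    intro i hi i' hi' hne
    rw [Function.onFun, Set.disjoint_left]
    intro x hx hx'
    rcases hdisj i hi i' hi' hne with h | h
    · linarith [hx.2, hx'.1]
    · linarith [hx.1, hx'.2]
  have h1 : volume (⋃ i ∈ B, Ioo (a i) (b i)) = ∑ i ∈ B, volume (Ioo (a i) (b i)) :=
    measure_biUnion_finset hdis (fun i _ => measurableSet_Ioo)
  have h2 : volume (⋃ i ∈ B, Ioo (a i) (b i)) ≤ volume (Icc (-D) D) := by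
    refine measure_mono (Set.iUnion₂_subset fun i hi x hx => ⟨?_, ?_⟩)
    · linarith [ha i hi, hx.1]
    · linarith [hb i hi, hx.2]
  rw [h1, Real.volume_Icc] at h2
  simp only [Real.volume_Ioo] at h2
  rw [← ENNReal.ofReal_sum_of_nonneg (fun i hi => by linarith [hab i hi])] at h2
  have h3 := (ENNReal.ofReal_le_ofReal_iff (by linarith)).mp h2
  linarith

lemma mono_piece {ι : Type} {u : ℝ → ℝ} {w : ℕ} {c : ℝ} (hc : 0 < c) {B : Finset ι}
    {l r A : ι → ℝ} (h : Fam u w c B l r A) {x y S : ℝ} (hm : MonotoneOn u (Icc x y))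
    (hsub : ∀ i ∈ B, x ≤ l i ∧ r i ≤ y) (hS : 0 ≤ S) (hAS : ∀ i ∈ B, A i ≤ S) :
    ∑ i ∈ B, A i ≤ (2 * (w + 1) / c) * S := by
  have hj : w + 1 ≠ 0 := Nat.succ_ne_zero w
  have hmem : ∀ i ∈ B, ∀ t ∈ Icc (l i) (r i), t ∈ Icc x y := fun i hi t ht =>
    ⟨(hsub i hi).1.trans ht.1, ht.2.trans (hsub i hi).2⟩
  have hl : ∀ i ∈ B, l i ∈ Icc (l i) (r i) := fun i hi => ⟨le_rfl, (h.hlr i hi).le⟩
  have hr : ∀ i ∈ B, r i ∈ Icc (l i) (r i) := fun i hi => ⟨(h.hlr i hi).le, le_rfl⟩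
  have hmono : ∀ i ∈ B, u (l i) ≤ u (r i) := fun i hi =>
    hm (hmem i hi _ (hl i hi)) (hmem i hi _ (hr i hi)) (h.hlr i hi).le
  have hosc : ∀ i ∈ B, c * A i ^ (w + 1) ≤ u (r i) - u (l i) := by
    intro i hi
    obtain ⟨t, ht, t', ht', h1⟩ := h.osc i hi
    have h2 : u t ≤ u (r i) := hm (hmem i hi _ ht) (hmem i hi _ (hr i hi)) ht.2
    have h3 : u (l i) ≤ u t' := hm (hmem i hi _ (hl i hi)) (hmem i hi _ ht') ht'.1
    linarith
  have hkey : ∀ i ∈ B, c / (w + 1) * A i ≤ sr (w + 1) (u (r i)) - sr (w + 1) (u (l i)) := by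
    intro i hi
    have hA := h.hA i hi
    have h1 := sr_key w hA.le (hmono i hi) (h.bd i hi _ (hl i hi)) (h.bd i hi _ (hr i hi))
    have h2 := (hosc i hi).trans h1
    have hw : (0 : ℝ) < w + 1 := by positivity
    have hAw : 0 < A i ^ w := pow_pos hA w
    rw [div_mul_eq_mul_div, div_le_iff₀ hw]
    have h3 : A i ^ w * (c * A i) ≤ A i ^ w *
        ((sr (w + 1) (u (r i)) - sr (w + 1) (u (l i))) * (w + 1)) := by
      calc A i ^ w * (c * A i) = c * A i ^ (w + 1) := by ring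
        _ ≤ _ := h2
        _ = _ := by ring
    exact le_of_mul_le_mul_left h3 hAw
  have hsum := sum_len_le B (fun i => sr (w + 1) (u (l i))) (fun i => sr (w + 1) (u (r i))) S hS
    (fun i hi => sr_mono hj (hmono i hi))
    (fun i hi => by
      have := sr_abs_le hj (h.hA i hi).le (h.bd i hi _ (hl i hi))
      linarith [neg_abs_le (sr (w + 1) (u (l i))), hAS i hi])
    (fun i hi => by
      have := sr_abs_le hj (h.hA i hi).le (h.bd i hi _ (hr i hi))
      linarith [le_abs_self (sr (w + 1) (u (r i))), hAS i hi])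
    (by
      intro i hi i' hi' hne
      rcases h.disj i hi i' hi' hne with h1 | h1
      · left
        exact sr_mono hj (hm (hmem i hi _ (hr i hi)) (hmem i' hi' _ (hl i' hi')) h1)
      · right
        exact sr_mono hj (hm (hmem i' hi' _ (hr i' hi')) (hmem i hi _ (hl i hi)) h1))
  have h4 : c / (w + 1) * ∑ i ∈ B, A i ≤ 2 * S := by
    rw [Finset.mul_sum]
    exact (Finset.sum_le_sum hkey).trans hsum
  have hw : (0 : ℝ) < w + 1 := by positivity
  have h5 : ∑ i ∈ B, A i = (w + 1) / c * (c / (w + 1) * ∑ i ∈ B, A i) := by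
    field_simp
  rw [h5]
  calc (w + 1) / c * (c / (w + 1) * ∑ i ∈ B, A i) ≤ (w + 1) / c * (2 * S) := by gcongr
    _ = _ := by ring

/-- Splitting point of a monotone function. -/
lemma exists_split {h : ℝ → ℝ} {x y : ℝ} (hxy : x ≤ y) (hm : MonotoneOn h (Icc x y)) :
    ∃ z ∈ Icc x y, (∀ t ∈ Ioo x z, h t ≤ 0) ∧ ∀ t ∈ Ioo z y, 0 ≤ h t := by
  set S : Set ℝ := insert x {t | t ∈ Icc x y ∧ h t ≤ 0} with hS
  have hne : S.Nonempty := ⟨x, mem_insert _ _⟩
  have hbdd : BddAbove S := by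
    refine ⟨y, ?_⟩
    rintro t (rfl | ht)
    · exact hxy
    · exact ht.1.2
  refine ⟨sSup S, ⟨le_csSup hbdd (mem_insert _ _), csSup_le hne ?_⟩, ?_, ?_⟩
  · rintro t (rfl | ht)
    · exact hxy
    · exact ht.1.2
  · intro t ht
    obtain ⟨t', ht', hlt⟩ := exists_lt_of_lt_csSup hne ht.2
    rcases ht' with rfl | ht'
    · exact absurd hlt (not_lt.mpr ht.1.le)
    · exact (hm ⟨ht.1.le, hlt.le.trans ht'.1.2⟩ ht'.1 hlt.le).trans ht'.2
  · intro t ht
    by_contra hcon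
    push Not at hcon
    have hx : x ≤ sSup S := le_csSup hbdd (mem_insert _ _)
    have : t ∈ S := Or.inr ⟨⟨hx.trans ht.1.le, ht.2.le⟩, hcon.le⟩
    exact absurd (le_csSup hbdd this) (not_le.mpr ht.1)

/-- The constants of the counting lemma. -/
noncomputable def Bc (w : ℕ) (c : ℝ) : ℕ → ℝ
  | 0 => 2 * (w + 1) / c
  | (s + 1) => 2 * Bc w c s + 1

lemma Bc_nonneg (w : ℕ) {c : ℝ} (hc : 0 < c) (s : ℕ) : 0 ≤ Bc w c s := by
  induction s with
  | zero => unfold Bc; positivity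
  | succ s ih => unfold Bc; positivity

lemma Bc_mono (w : ℕ) {c : ℝ} (hc : 0 < c) {s s' : ℕ} (h : s ≤ s') : Bc w c s ≤ Bc w c s' := by
  induction s', h using Nat.le_induction with
  | base => exact le_rfl
  | succ s' _ ih =>
    refine ih.trans ?_
    have := Bc_nonneg w hc s'
    conv_rhs => unfold Bc
    linarith

lemma Bc_one_le (w : ℕ) {c : ℝ} (hc : 0 < c) {s : ℕ} (hs : 1 ≤ s) : 1 ≤ Bc w c s := by
  refine le_trans ?_ (Bc_mono w hc hs)
  have := Bc_nonneg w hc 0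
  change 1 ≤ 2 * Bc w c 0 + 1
  linarith

/-- Monotonicity from a sign of the derivative. -/
lemma monoOn_of_sign {g g' : ℝ → ℝ} {x y : ℝ} (hx : 0 ≤ x) (hy : y ≤ 1)
    (hd : ∀ t ∈ Icc (0 : ℝ) 1, HasDerivWithinAt g (g' t) (Icc 0 1) t)
    (hs : ∀ t ∈ Ioo x y, 0 ≤ g' t) : MonotoneOn g (Icc x y) := by
  have hsub : Icc x y ⊆ Icc 0 1 := Icc_subset_Icc hx hy
  have hder : ∀ t ∈ Ioo x y, HasDerivAt g (g' t) t := by
    intro t ht
    exact (hd t (hsub (Ioo_subset_Icc_self ht))).hasDerivAt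
      (Icc_mem_nhds (by linarith [ht.1]) (by linarith [ht.2]))
  refine monotoneOn_of_deriv_nonneg (convex_Icc x y) ?_ ?_ ?_
  · intro t ht
    exact ((hd t (hsub ht)).continuousWithinAt).mono hsub
  · intro t ht
    rw [interior_Icc] at ht
    exact (hder t ht).differentiableAt.differentiableWithinAt
  · intro t ht
    rw [interior_Icc] at ht
    rw [(hder t ht).deriv]
    exact hs t ht

lemma antiOn_of_sign {g g' : ℝ → ℝ} {x y : ℝ} (hx : 0 ≤ x) (hy : y ≤ 1)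
    (hd : ∀ t ∈ Icc (0 : ℝ) 1, HasDerivWithinAt g (g' t) (Icc 0 1) t)
    (hs : ∀ t ∈ Ioo x y, g' t ≤ 0) : MonotoneOn (fun t => -g t) (Icc x y) :=
  monoOn_of_sign hx hy (g' := fun t => -g' t) (fun t ht => (hd t ht).neg)
    (fun t ht => by linarith [hs t ht])

lemma sign_pieces {ι : Type} {w : ℕ} {c : ℝ} (hc : 0 < c) (g : ℕ → ℝ → ℝ) (s : ℕ) :
    (∀ i ≤ s, ∀ t ∈ Icc (0 : ℝ) 1, HasDerivWithinAt (g i) (g (i + 1) t) (Icc 0 1) t) →
    ∀ (x y : ℝ), 0 ≤ x → x ≤ y → y ≤ 1 →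
    ((∀ t ∈ Ioo x y, 0 ≤ g (s + 1) t) ∨ ∀ t ∈ Ioo x y, g (s + 1) t ≤ 0) →
    ∀ (B : Finset ι) (l r A : ι → ℝ) (S : ℝ), Fam (g 0) w c B l r A →
      (∀ i ∈ B, x ≤ l i ∧ r i ≤ y) → 0 ≤ S → (∀ i ∈ B, A i ≤ S) →
      ∑ i ∈ B, A i ≤ Bc w c s * S := by
  classical
  induction s with
  | zero =>
    intro hd x y hx hxy hy hsign B l r A S hF hsub hS hAS
    rcases hsign with h | h
    · exact mono_piece hc hF (monoOn_of_sign hx hy (hd 0 le_rfl) h) hsub hS hAS
    · exact mono_piece hc hF.neg (antiOn_of_sign hx hy (hd 0 le_rfl) h) hsub hS hAS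
  | succ s ih =>
    intro hd x y hx hxy hy hsign B l r A S hF hsub hS hAS
    have hd' : ∀ i ≤ s, ∀ t ∈ Icc (0 : ℝ) 1,
        HasDerivWithinAt (g i) (g (i + 1) t) (Icc 0 1) t := fun i hi => hd i (by omega)
    -- the splitting point
    obtain ⟨z, hz, h1, h2⟩ : ∃ z ∈ Icc x y,
        ((∀ t ∈ Ioo x z, 0 ≤ g (s + 1) t) ∨ ∀ t ∈ Ioo x z, g (s + 1) t ≤ 0) ∧
        ((∀ t ∈ Ioo z y, 0 ≤ g (s + 1) t) ∨ ∀ t ∈ Ioo z y, g (s + 1) t ≤ 0) := by
      rcases hsign with h | h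
      · obtain ⟨z, hz, h1, h2⟩ :=
          exists_split hxy (monoOn_of_sign hx hy (hd (s + 1) le_rfl) h)
        exact ⟨z, hz, Or.inr h1, Or.inl h2⟩
      · obtain ⟨z, hz, h1, h2⟩ :=
          exists_split hxy (antiOn_of_sign hx hy (hd (s + 1) le_rfl) h)
        exact ⟨z, hz, Or.inl fun t ht => by linarith [h1 t ht],
          Or.inr fun t ht => by linarith [h2 t ht]⟩
    set B₁ := B.filter (fun i => r i ≤ z) with hB₁
    set B₂ := (B.filter (fun i => ¬ r i ≤ z)).filter (fun i => z ≤ l i) with hB₂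
    set B₃ := (B.filter (fun i => ¬ r i ≤ z)).filter (fun i => ¬ z ≤ l i) with hB₃
    have e1 : ∑ i ∈ B, A i = ∑ i ∈ B₁, A i + (∑ i ∈ B₂, A i + ∑ i ∈ B₃, A i) := by
      rw [hB₁, hB₂, hB₃, Finset.sum_filter_add_sum_filter_not, Finset.sum_filter_add_sum_filter_not]
    have hs1 : B₁ ⊆ B := Finset.filter_subset _ _
    have hs2 : B₂ ⊆ B := (Finset.filter_subset _ _).trans (Finset.filter_subset _ _)
    have hs3 : B₃ ⊆ B := (Finset.filter_subset _ _).trans (Finset.filter_subset _ _)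
    have b1 : ∑ i ∈ B₁, A i ≤ Bc w c s * S := by
      refine ih hd' x z hx hz.1 (hz.2.trans hy) h1 B₁ l r A S (hF.subset hs1) ?_ hS
        (fun i hi => hAS i (hs1 hi))
      intro i hi
      exact ⟨(hsub i (hs1 hi)).1, (Finset.mem_filter.mp hi).2⟩
    have b2 : ∑ i ∈ B₂, A i ≤ Bc w c s * S := by
      refine ih hd' z y (hx.trans hz.1) hz.2 hy h2 B₂ l r A S (hF.subset hs2) ?_ hS
        (fun i hi => hAS i (hs2 hi))
      intro i hi
      exact ⟨(Finset.mem_filter.mp hi).2, (hsub i (hs2 hi)).2⟩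
    have b3 : ∑ i ∈ B₃, A i ≤ S := by
      have hcard : B₃.card ≤ 1 := by
        rw [Finset.card_le_one]
        intro i hi i' hi'
        by_contra hne
        have hi1 := (Finset.mem_filter.mp hi).2
        have hi2 := (Finset.mem_filter.mp (Finset.mem_filter.mp hi).1).2
        have hi1' := (Finset.mem_filter.mp hi').2
        have hi2' := (Finset.mem_filter.mp (Finset.mem_filter.mp hi').1).2
        push Not at hi1 hi2 hi1' hi2'
        rcases hF.disj i (hs3 hi) i' (hs3 hi') hne with h | h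
        · linarith
        · linarith
      calc ∑ i ∈ B₃, A i ≤ ∑ i ∈ B₃, S := Finset.sum_le_sum fun i hi => hAS i (hs3 hi)
        _ = B₃.card * S := by rw [Finset.sum_const, nsmul_eq_mul]
        _ ≤ 1 * S := by
          gcongr
          exact_mod_cast hcard
        _ = S := one_mul S
    rw [e1]
    have : Bc w c (s + 1) * S = Bc w c s * S + (Bc w c s * S + S) := by
      change (2 * Bc w c s + 1) * S = _
      ring
    rw [this]
    exact add_le_add b1 (add_le_add b2 b3)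

end Pool.Agent.WeakRoots
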