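import Pool.Agent.WeakRoots.Step

set_option autoImplicit false

open Set MeasureTheory Topology
open scoped ENNReal NNReal

namespace Pool.Agent.WeakRoots

/-- A point of `[0,1]` at which zeros of `y` accumulate. -/
def AccZ {n : ℕ} (y : ℝ → Fin (n + 1) → ℂ) : Set ℝ :=
  {t | t ∈ Icc (0 : ℝ) 1 ∧ ∀ δ > 0, ∃ z ∈ Icc (0 : ℝ) 1, z ≠ t ∧ |z - t| < δ ∧ y z = 0}

/-- Vanishing to maximal order at accumulation points of zeros. -/
lemma vanish_order {k : ℕ} (hk : 1 ≤ k) {Λ : ℝ} (hΛ : 0 ≤ Λ) {u : ℝ → ℝ}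
    (hu : CL k Λ u (Icc 0 1)) {t₁ : ℝ} (ht₁ : t₁ ∈ Icc (0 : ℝ) 1)
    (hacc : ∀ δ > 0, ∃ z ∈ Icc (0 : ℝ) 1, z ≠ t₁ ∧ |z - t₁| < δ ∧ u z = 0) :
    ∀ t ∈ Icc (0 : ℝ) 1, |u t| ≤ Λ * |t - t₁| ^ (k + 1) := by
  have hs01 : UniqueDiffOn ℝ (Icc (0 : ℝ) 1) := uniqueDiffOn_Icc zero_lt_one
  set g : ℕ → ℝ → ℝ := fun i => iteratedDerivWithin i u (Icc 0 1) with hg
  have hg0 : g 0 = u := by rw [hg]; simp [iteratedDerivWithin_zero]
  have hd : ∀ i < k, ∀ t ∈ Icc (0 : ℝ) 1, HasDerivWithinAt (g i) (g (i + 1) t) (Icc 0 1) t := by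
    intro i hi x hx
    have h1 : DifferentiableWithinAt ℝ (iteratedDerivWithin i u (Icc 0 1)) (Icc 0 1) x :=
      hu.1.1.differentiableOn_iteratedDerivWithin (by exact_mod_cast hi) hs01 x hx
    rw [hg]
    simp only
    rw [iteratedDerivWithin_succ]
    exact h1.hasDerivWithinAt
  have htop : ∀ s ∈ Icc (0 : ℝ) 1, ∀ t ∈ Icc (0 : ℝ) 1, |g k s - g k t| ≤ Λ * |s - t| := hu.1.2
  have hcont : ∀ i ≤ k, ContinuousOn (g i) (Icc 0 1) := by
    intro i hi
    exact hu.1.1.continuousOn_iteratedDerivWithin (by exact_mod_cast hi) hs01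
  -- value at an accumulation point
  have hval : ∀ i ≤ k, (∀ δ > 0, ∃ z ∈ Icc (0 : ℝ) 1, z ≠ t₁ ∧ |z - t₁| < δ ∧ g i z = 0) →
      g i t₁ = 0 := by
    intro i hi h
    by_contra hne
    have hc : ContinuousWithinAt (g i) (Icc 0 1) t₁ := hcont i hi t₁ ht₁
    rw [Metric.continuousWithinAt_iff] at hc
    obtain ⟨δ, hδ, hδ'⟩ := hc |g i t₁| (abs_pos.mpr hne)
    obtain ⟨z, hz1, _, hz3, hz4⟩ := h δ hδ
    have := hδ' hz1 (by rwa [Real.dist_eq])
    rw [hz4, Real.dist_eq, zero_sub, abs_neg] at this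
    exact lt_irrefl _ this
  have hall : ∀ i ≤ k, ∀ δ > 0, ∃ z ∈ Icc (0 : ℝ) 1, z ≠ t₁ ∧ |z - t₁| < δ ∧ g i z = 0 := by
    intro i
    induction i with
    | zero =>
      intro _ δ hδ
      rw [hg0]
      exact hacc δ hδ
    | succ i ih =>
      intro hi δ hδ
      have ih' := ih (by omega)
      have h0 := hval i (by omega) ih'
      obtain ⟨z, hz1, hz2, hz3, hz4⟩ := ih' δ hδ
      have hder : ∀ a b : ℝ, 0 ≤ a → b ≤ 1 → ∀ x ∈ Ioo a b, HasDerivAt (g i) (g (i + 1) x) x := by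
        intro a b ha hb x hx
        exact (hd i (by omega) x ⟨ha.trans hx.1.le, hx.2.le.trans hb⟩).hasDerivAt
          (Icc_mem_nhds (ha.trans_lt hx.1) (hx.2.trans_le hb))
      rcases lt_or_gt_of_ne hz2 with h | h
      · obtain ⟨x, hx, hx0⟩ := exists_hasDerivAt_eq_zero h
          ((hcont i (by omega)).mono (Icc_subset_Icc hz1.1 ht₁.2)) (by rw [hz4, h0])
          (hder z t₁ hz1.1 ht₁.2)
        refine ⟨x, ⟨hz1.1.trans hx.1.le, hx.2.le.trans ht₁.2⟩, hx.2.ne, ?_, hx0⟩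
        rw [abs_of_neg (by linarith)] at hz3
        rw [abs_of_neg (by linarith [hx.2])]
        linarith [hx.1]
      · obtain ⟨x, hx, hx0⟩ := exists_hasDerivAt_eq_zero h
          ((hcont i (by omega)).mono (Icc_subset_Icc ht₁.1 hz1.2)) (by rw [hz4, h0])
          (hder t₁ z ht₁.1 hz1.2)
        refine ⟨x, ⟨ht₁.1.trans hx.1.le, hx.2.le.trans hz1.2⟩, hx.1.ne', ?_, hx0⟩
        rw [abs_of_pos (by linarith)] at hz3
        rw [abs_of_pos (by linarith [hx.1])]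
        linarith [hx.2]
  have hzero : ∀ i ≤ k, g i t₁ = 0 := fun i hi => hval i hi (hall i hi)
  intro t ht
  set x := min t t₁ with hx
  set z := max t t₁ with hz
  have hxz : x ≤ z := min_le_max
  have hx0 : 0 ≤ x := le_min ht.1 ht₁.1
  have hz1 : z ≤ 1 := max_le ht.2 ht₁.2
  have hlen : z - x = |t - t₁| := by rw [hx, hz]; exact max_sub_min_eq_abs' t t₁
  have htm : t ∈ Icc x z := ⟨min_le_left _ _, le_max_left _ _⟩
  have ht₁m : t₁ ∈ Icc x z := ⟨min_le_right _ _, le_max_right _ _⟩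
  have h1 := deriv_small hΛ hx0 hxz hz1 hd htop
    (fun s hs => ⟨t₁, ht₁m, hzero (s + 1) hs⟩) (k - 1) (by omega)
  have e1 : k - (k - 1) = 1 := by omega
  have e2 : k - 1 + 1 = k := by omega
  rw [e1, e2, hlen] at h1
  have hsub : Icc x z ⊆ Icc 0 1 := Icc_subset_Icc hx0 hz1
  have hder : ∀ s ∈ Icc x z, HasDerivWithinAt u (g 1 s) (Icc x z) s := by
    intro s hs
    have := hd 0 (by omega) s (hsub hs)
    rw [hg0] at this
    exact this.mono hsub
  have h2 := lip_of_deriv_bound (convex_Icc x z) hder (M := Λ * |t - t₁| ^ k) h1 t htm t₁ ht₁m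
  have h3 : u t₁ = 0 := by rw [← hg0]; exact hzero 0 (by omega)
  rw [h3, sub_zero, Real.norm_eq_abs] at h2
  refine h2.trans (le_of_eq ?_)
  ring

/-- Size of the roots of a polynomial with small coefficients. -/
lemma root_scale {n : ℕ} {v : Fin (n + 1) → ℂ} {B : ℝ} (hB : 0 ≤ B)
    (hv : ∀ i : Fin (n + 1), |(v i).re| ≤ B ^ (n + 1 - (i : ℕ)) ∧
      |(v i).im| ≤ B ^ (n + 1 - (i : ℕ))) {z : ℂ} (hz : ev v z = 0) :
    ‖z‖ ≤ (2 * n + 3) * B := by
  rcases eq_or_lt_of_le hB with h | h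
  · have hv0 : v = 0 := by
      funext i
      have hi : n + 1 - (i : ℕ) ≠ 0 := by have := i.2; omega
      have h1 := hv i
      rw [← h, zero_pow hi] at h1
      exact Complex.ext (abs_nonpos_iff.mp h1.1) (abs_nonpos_iff.mp h1.2)
    rw [hv0] at hz
    have : z = 0 := by simpa [ev] using hz
    rw [this, ← h]
    simp
  · have h1 := ev_resc (fun _ => v) 0 0 h 0 z hz
    have h2 : ∀ i, ‖resc (fun _ => v) 0 0 B 0 i‖ ≤ 2 := by
      intro i
      unfold resc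
      rw [norm_mul, Complex.norm_real, Real.norm_eq_abs, abs_of_pos (by positivity),
        mul_inv_le_iff₀ (by positivity)]
      have := hv i
      calc ‖v i‖ ≤ |(v i).re| + |(v i).im| := Complex.norm_le_abs_re_add_abs_im _
        _ ≤ 2 * B ^ (n + 1 - (i : ℕ)) := by linarith [this.1, this.2]
    have h3 := root_bound h2 h1
    rw [norm_mul, Complex.norm_real, Real.norm_eq_abs, abs_of_pos (by positivity),
      mul_inv_le_iff₀ h] at h3
    refine h3.trans (le_of_eq ?_)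
    push_cast
    ring

/-- Almost everywhere differentiability at accumulation points of zeros. -/
lemma diff_at_acc {n : ℕ} (hn : 1 ≤ n) {Λ : ℝ} (hΛ : 0 ≤ Λ) {y : ℝ → Fin (n + 1) → ℂ}
    (hy : CL n Λ y (Icc 0 1)) {c d : ℝ} (hc : 0 ≤ c) (hd : d ≤ 1) {lam : ℝ → ℂ}
    (hroot : ∀ t ∈ Ioo c d, ev (y t) (lam t) = 0) :
    volume {t | t ∈ Ioo c d ∧ t ∈ AccZ y ∧ ¬ DifferentiableAt ℝ lam t} = 0 := by
  rcases (AccZ y).eq_empty_or_nonempty with he | hne
  · simp [he]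
  set K : ℝ := (2 * n + 3) * max 1 Λ with hK
  have hK0 : 0 < K := by
    have : (0 : ℝ) < max 1 Λ := lt_max_of_lt_left one_pos
    positivity
  have hmem : ∀ r ∈ Ioo c d, r ∈ Icc (0 : ℝ) 1 := fun r hr =>
    ⟨hc.trans hr.1.le, hr.2.le.trans hd⟩
  have hbound : ∀ t ∈ Ioo c d, ∀ t₁ ∈ AccZ y, ‖lam t‖ ≤ K * |t - t₁| := by
    intro t ht t₁ ht₁
    have ht01 := hmem t ht
    have hut : ∀ κ, |ut y κ t| ≤ Λ * |t - t₁| ^ (n + 1) := by
      intro κ
      refine vanish_order hn hΛ (hy.ut κ) ht₁.1 ?_ t ht01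
      intro δ hδ
      obtain ⟨z, h1, h2, h3, h4⟩ := ht₁.2 δ hδ
      refine ⟨z, h1, h2, h3, ?_⟩
      unfold ut
      rw [h4]
      simp
    have habs : |t - t₁| ≤ 1 := by
      rw [abs_le]
      constructor <;> linarith [ht01.1, ht01.2, ht₁.1.1, ht₁.1.2]
    set B : ℝ := max 1 Λ * |t - t₁| with hB
    have hm1 : (1 : ℝ) ≤ max 1 Λ := le_max_left _ _
    have hB0 : 0 ≤ B := by positivity
    have hκ : ∀ κ : Fin (n + 1) × Bool, |ut y κ t| ≤ B ^ wt κ := by
      intro κ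
      refine (hut κ).trans ?_
      rw [hB, mul_pow]
      have h1 : Λ ≤ max 1 Λ ^ wt κ :=
        (le_max_right 1 Λ).trans (le_self_pow₀ hm1 (by have := wt_pos κ; omega))
      have h2 : |t - t₁| ^ (n + 1) ≤ |t - t₁| ^ wt κ :=
        pow_le_pow_of_le_one (abs_nonneg _) habs (wt_le κ)
      exact mul_le_mul h1 h2 (by positivity) (by positivity)
    have h3 := root_scale hB0 (v := y t) (fun i => ⟨by
      have := hκ (i, true); simpa [ut, wt] using this, by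
      have := hκ (i, false); simpa [ut, wt] using this⟩) (hroot t ht)
    refine h3.trans (le_of_eq ?_)
    rw [hK, hB]
    ring
  set φ : ℝ → ℝ := fun t => Metric.infDist t (AccZ y) with hφ
  have hφb : ∀ t ∈ Ioo c d, ‖lam t‖ ≤ K * φ t := by
    intro t ht
    have : ‖lam t‖ / K ≤ φ t := by
      rw [hφ, Metric.le_infDist hne]
      intro t₁ ht₁
      rw [div_le_iff₀ hK0, Real.dist_eq, mul_comm]
      exact hbound t ht t₁ ht₁
    rw [div_le_iff₀ hK0] at this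
    linarith
  have hφd : ∀ᵐ t, DifferentiableAt ℝ φ t :=
    (Metric.lipschitz_infDist_pt (AccZ y)).ae_differentiableAt
  refine measure_mono_null ?_ (ae_iff.mp hφd)
  rintro t ⟨ht1, ht2, ht3⟩
  refine fun hdiff : DifferentiableAt ℝ φ t => ht3 ?_
  have hφt : φ t = 0 := Metric.infDist_zero_of_mem ht2
  have hφ0 : ∀ s, 0 ≤ φ s := fun s => Metric.infDist_nonneg
  have hmin : IsLocalMin φ t := Filter.Eventually.of_forall fun s => by rw [hφt]; exact hφ0 s
  have hder : HasDerivAt φ 0 t := by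
    have h1 := hdiff.hasDerivAt
    rwa [hmin.deriv_eq_zero] at h1
  have hlt : lam t = 0 := by
    have := hφb t ht1
    rw [hφt, mul_zero] at this
    exact norm_le_zero_iff.mp this
  have hderl : HasDerivAt lam 0 t := by
    rw [hasDerivAt_iff_isLittleO]
    have h1 := hasDerivAt_iff_isLittleO.mp hder
    have h2 : (fun s => lam s - lam t - (s - t) • (0 : ℂ)) =O[𝓝 t]
        (fun s => φ s - φ t - (s - t) • (0 : ℝ)) := by
      refine Asymptotics.IsBigO.of_bound K ?_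
      filter_upwards [Ioo_mem_nhds ht1.1 ht1.2] with s hs
      rw [hlt, hφt, smul_zero, smul_zero, sub_zero, sub_zero, sub_zero, sub_zero,
        Real.norm_eq_abs, abs_of_nonneg (hφ0 s)]
      exact hφb s hs
    exact h2.trans_isLittleO h1
  exact hderl.differentiableAt

/-- Isolated zeros are countable. -/
lemma countable_isolated {n : ℕ} (y : ℝ → Fin (n + 1) → ℂ) :
    {t | t ∈ Icc (0 : ℝ) 1 ∧ y t = 0 ∧ t ∉ AccZ y}.Countable := by
  set S : Set ℝ := {t | t ∈ Icc (0 : ℝ) 1 ∧ y t = 0 ∧ t ∉ AccZ y} with hS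
  have hex : ∀ t : ℝ, ∃ δ : ℝ, t ∈ S → 0 < δ ∧ ∀ z ∈ Icc (0 : ℝ) 1, z ≠ t → |z - t| < δ → y z ≠ 0 := by
    intro t
    by_cases ht : t ∈ S
    · have h1 : ¬ ∀ δ > 0, ∃ z ∈ Icc (0 : ℝ) 1, z ≠ t ∧ |z - t| < δ ∧ y z = 0 :=
        fun h => ht.2.2 ⟨ht.1, h⟩
      push Not at h1
      obtain ⟨δ, hδ, h2⟩ := h1
      exact ⟨δ, fun _ => ⟨hδ, h2⟩⟩
    · exact ⟨0, fun h => absurd h ht⟩
  choose δ hδ using hex
  refine Set.PairwiseDisjoint.countable_of_Ioo (y := fun t => t + δ t) ?_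
    (fun t ht => by linarith [(hδ t ht).1])
  have key : ∀ t ∈ S, ∀ t' ∈ S, t < t' → Disjoint (Ioo t (t + δ t)) (Ioo t' (t' + δ t')) := by
    intro t ht t' ht' hlt
    rw [Set.disjoint_left]
    intro z hz hz'
    refine (hδ t ht).2 t' ht'.1 hlt.ne' ?_ ht'.2.1
    rw [abs_of_pos (by linarith)]
    linarith [hz.2, hz'.1]
  intro t ht t' ht' hne
  rcases lt_or_gt_of_ne hne with h | h
  · exact key t ht t' ht' h
  · exact (key t' ht' t ht h).symm

/-- The statement of almost everywhere differentiability. -/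
def AD (n : ℕ) : Prop := ∀ M : ℝ, 0 ≤ M → ∀ a : ℝ → Fin n → ℂ, CL (n - 1) M a (Icc 0 1) →
  ∀ c d : ℝ, 0 ≤ c → d ≤ 1 → ∀ lam : ℝ → ℂ, ContinuousOn lam (Ioo c d) →
    (∀ t ∈ Ioo c d, ev (a t) (lam t) = 0) →
      volume {t | t ∈ Ioo c d ∧ ¬ DifferentiableAt ℝ lam t} = 0

lemma AD_one : AD 1 := by
  intro M hM a ha c d hc hd lam hlam hroot
  have hs01 : UniqueDiffOn ℝ (Icc (0 : ℝ) 1) := uniqueDiffOn_Icc zero_lt_one
  have hmem : ∀ r ∈ Ioo c d, r ∈ Icc (0 : ℝ) 1 := fun r hr =>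
    ⟨hc.trans hr.1.le, hr.2.le.trans hd⟩
  have hlam' : ∀ t ∈ Ioo c d, lam t = -a t 0 := by
    intro t ht
    have := hroot t ht
    simp only [ev, pow_one, Finset.univ_unique, Fin.default_eq_zero, Finset.sum_singleton,
      Fin.val_zero, pow_zero, mul_one] at this
    linear_combination this
  have h0 : CL 0 M (fun t => a t 0) (Icc 0 1) := ha.apply hs01 0
  have hL : LipschitzOnWith (Real.toNNReal M) (fun t => a t 0) (Icc 0 1) := by
    refine LipschitzOnWith.of_dist_le_mul fun x hx z hz => ?_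
    rw [dist_eq_norm, Real.dist_eq, Real.coe_toNNReal M hM]
    exact (CL_zero.mp h0).1 x hx z hz
  have hae := hL.ae_differentiableWithinAt_of_mem_real
  refine measure_mono_null ?_ (ae_iff.mp hae)
  rintro t ⟨ht1, ht2⟩
  refine fun hdiff : (t ∈ Icc (0 : ℝ) 1 → DifferentiableWithinAt ℝ (fun t => a t 0) (Icc 0 1) t) =>
    ht2 ?_
  have h1 : DifferentiableAt ℝ (fun t => a t 0) t :=
    (hdiff (hmem t ht1)).differentiableAt (Icc_mem_nhds (hc.trans_lt ht1.1) (ht1.2.trans_le hd))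
  refine h1.neg.congr_of_eventuallyEq ?_
  filter_upwards [Ioo_mem_nhds ht1.1 ht1.2] with s hs
  exact hlam' s hs

lemma AD_step {n : ℕ} (hn : 1 ≤ n) (IH : ∀ m, 1 ≤ m → m ≤ n → AD m) : AD (n + 1) := by
  classical
  intro M hM a ha c d hc hd lam hlam hroot
  simp only [Nat.add_sub_cancel] at ha
  have hs01 : UniqueDiffOn ℝ (Icc (0 : ℝ) 1) := uniqueDiffOn_Icc zero_lt_one
  have hmem : ∀ r ∈ Ioo c d, r ∈ Icc (0 : ℝ) 1 := fun r hr =>
    ⟨hc.trans hr.1.le, hr.2.le.trans hd⟩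
  have hmem' : ∀ r ∈ Ioo c d, r ∈ Ioo (0 : ℝ) 1 := fun r hr =>
    ⟨hc.trans_lt hr.1, hr.2.trans_le hd⟩
  obtain ⟨Λ, hΛ0, hΛ⟩ := exists_centred n M hM
  obtain ⟨hy1, hy2, hy3⟩ := hΛ a ha
  obtain ⟨ε, hε, Cs, hCs0, hfac⟩ := good_factor (n := n) hΛ0
  set y : ℝ → Fin (n + 1) → ℂ := fun t => tmap n (a t) with hy
  set h : ℝ → ℂ := fun t => a t (Fin.last n) / ((n + 1 : ℕ) : ℂ) with hh
  set lam' : ℝ → ℂ := fun t => lam t + h t with hlam'
  have hacl : CL n M (fun t => a t (Fin.last n)) (Icc 0 1) := ha.apply hs01 _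
  have hhc : ContinuousOn h (Icc 0 1) := hacl.continuousOn.div_const _
  have hhd : ∀ t ∈ Ioo (0 : ℝ) 1, DifferentiableAt ℝ h t := by
    obtain ⟨n', rfl⟩ : ∃ n', n = n' + 1 := ⟨n - 1, by omega⟩
    intro t ht
    have h1 := (hacl.hasDeriv hs01 (Ioo_subset_Icc_self ht)).hasDerivAt (Icc_mem_nhds ht.1 ht.2)
    exact (h1.div_const (((n' + 1 + 1 : ℕ) : ℂ))).differentiableAt
  have hlamc : ContinuousOn lam' (Ioo c d) := hlam.add (hhc.mono fun r hr => hmem r hr)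
  have hroot' : ∀ t ∈ Ioo c d, ev (y t) (lam' t) = 0 := fun t ht =>
    hy3 t (lam t) (hroot t ht)
  obtain ⟨A, hA⟩ := exists_ASpec hy1.continuousOn
  set F := maxi (GoodSet y A ε) with hF
  set SQ : ℕ × ℕ → Set ℝ := fun Q =>
    {t | t ∈ Ioo c d ∧ t ∈ Ioo (dl Q) (dl Q + dlen Q) ∧ ¬ DifferentiableAt ℝ lam' t} with hSQ
  set Z₁ : Set ℝ := {t | t ∈ Ioo c d ∧ t ∈ AccZ y ∧ ¬ DifferentiableAt ℝ lam' t} with hZ₁
  set Z₂ : Set ℝ := {t | t ∈ Icc (0 : ℝ) 1 ∧ y t = 0 ∧ t ∉ AccZ y} with hZ₂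
  have hcover : {t | t ∈ Ioo c d ∧ ¬ DifferentiableAt ℝ lam t} ⊆
      (Z₁ ∪ (Z₂ ∪ range dl)) ∪ ⋃ Q ∈ F, SQ Q := by
    rintro t ⟨ht1, ht2⟩
    have ht2' : ¬ DifferentiableAt ℝ lam' t := by
      intro hcon
      apply ht2
      have h1 := hcon.sub (hhd t (hmem' t ht1))
      refine h1.congr_of_eventuallyEq (Filter.Eventually.of_forall fun s => ?_)
      simp [hlam']
    by_cases h0 : ∀ κ, ut y κ t = 0
    · left
      have hy0 : y t = 0 := by
        funext i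
        have h1 := h0 (i, true)
        have h2 := h0 (i, false)
        simp only [ut] at h1 h2
        exact Complex.ext (by simpa using h1) (by simpa using h2)
      by_cases hacc : t ∈ AccZ y
      · exact Or.inl ⟨ht1, hacc, ht2'⟩
      · exact Or.inr (Or.inl ⟨hmem t ht1, hy0, hacc⟩)
    · push Not at h0
      obtain ⟨κ₀, hκ₀⟩ := h0
      obtain ⟨Q, hQ, htQ⟩ := exists_good hy1.continuousOn hA hε (hmem' t ht1) hκ₀
      obtain ⟨Q', hQ', hanc⟩ := exists_maxi hQ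
      have htQ' : t ∈ Ico (dl Q') (dr Q') :=
        ⟨hanc.sub.1.trans htQ.1, htQ.2.trans_le hanc.sub.2⟩
      rcases eq_or_lt_of_le htQ'.1 with h | h
      · left; right; right
        exact ⟨Q', h⟩
      · right
        refine mem_iUnion₂.mpr ⟨Q', hQ', ht1, ⟨h, ?_⟩, ht2'⟩
        have := dr_sub_dl Q'
        linarith [htQ'.2]
  have hn1 : volume Z₁ = 0 := diff_at_acc hn hΛ0 hy1 hc hd hroot'
  have hn2 : volume (Z₂ ∪ range dl) = 0 :=
    ((countable_isolated y).union (countable_range dl)).measure_zero volume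
  have hn3 : volume (⋃ Q ∈ F, SQ Q) = 0 := by
    rw [measure_biUnion_null_iff (to_countable _)]
    intro Q hQ
    obtain ⟨hQ1, hQ2, hQ3, hQ4⟩ := hQ.1
    have hlen := dlen_pos Q
    have hrr : dl Q + dlen Q = dr Q := by have := dr_sub_dl Q; linarith
    obtain ⟨m, b, hm, hmn, hb, hμc, hμr⟩ := hfac y hy1 hy2 (dl Q) (dlen Q) (A Q) (dl_nonneg Q) hlen
      (by rw [hrr]; exact dr_le_one hQ1) hQ2 hQ3 (by rw [hrr]; exact (hA Q hQ1).2.1)
      (by rw [hrr]; exact (hA Q hQ1).2.2) (by rw [hrr]; exact hQ4) c d lam' hlamc hroot'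
    have h1 := IH m hm hmn Cs hCs0 b hb _ _ (le_max_left _ _) (min_le_left _ _) _ hμc hμr
    set S' : Set ℝ := {τ | τ ∈ Ioo (max 0 ((c - dl Q) / dlen Q)) (min 1 ((d - dl Q) / dlen Q)) ∧
      ¬ DifferentiableAt ℝ (fun τ => lam' (dl Q + dlen Q * τ) * (((A Q)⁻¹ : ℝ) : ℂ)) τ} with hS'
    have himage : SQ Q ⊆ (fun τ => dl Q + dlen Q * τ) '' S' := by
      rintro t ⟨ht1, ht2, ht3⟩
      have e1 : dl Q + dlen Q * ((t - dl Q) / dlen Q) = t := by field_simp; ring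
      refine ⟨(t - dl Q) / dlen Q, ⟨⟨?_, ?_⟩, ?_⟩, ?_⟩
      · refine max_lt (div_pos (by linarith [ht2.1]) hlen) ?_
        exact div_lt_div_of_pos_right (by linarith [ht1.1]) hlen
      · refine lt_min ?_ ?_
        · rw [div_lt_one hlen]; linarith [ht2.2]
        · exact div_lt_div_of_pos_right (by linarith [ht1.2]) hlen
      · intro hcon
        apply ht3
        have h2 : DifferentiableAt ℝ (fun s : ℝ => (s - dl Q) / dlen Q) t := by fun_prop
        have h3 := (hcon.comp t h2).mul_const ((A Q : ℝ) : ℂ)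
        refine h3.congr_of_eventuallyEq (Filter.Eventually.of_forall fun s => ?_)
        have e2 : dl Q + dlen Q * ((s - dl Q) / dlen Q) = s := by field_simp; ring
        have hAC : ((A Q : ℝ) : ℂ) ≠ 0 := by exact_mod_cast hQ2.ne'
        simp only [Function.comp, e2]
        push_cast
        field_simp
      · exact e1
    refine measure_mono_null himage ?_
    rw [volume_image_affine _ hlen, h1, mul_zero]
  refine measure_mono_null hcover ?_
  rw [measure_union_null_iff, measure_union_null_iff]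
  exact ⟨⟨hn1, hn2⟩, hn3⟩

theorem AD_all (n : ℕ) (hn : 1 ≤ n) : AD n := by
  induction n using Nat.strong_induction_on with
  | _ n ih =>
    rcases Nat.eq_or_lt_of_le hn with h | h
    · rw [← h]; exact AD_one
    · obtain ⟨k, rfl⟩ : ∃ k, n = k + 1 := ⟨n - 1, by omega⟩
      exact AD_step (by omega) fun m hm1 hm2 => ih m (by omega) hm1

end Pool.Agent.WeakRoots
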