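import Pool.Agent.WeakRoots.Count

set_option autoImplicit false

open Set MeasureTheory

namespace Pool.Agent.WeakRoots

/-- Left end point of the dyadic interval `Q = (p, i)`. -/
noncomputable def dl (Q : ℕ × ℕ) : ℝ := (Q.2 : ℝ) / 2 ^ Q.1
/-- Right end point of the dyadic interval `Q = (p, i)`. -/
noncomputable def dr (Q : ℕ × ℕ) : ℝ := ((Q.2 : ℝ) + 1) / 2 ^ Q.1
/-- Length of the dyadic interval `Q = (p, i)`. -/
noncomputable def dlen (Q : ℕ × ℕ) : ℝ := 1 / 2 ^ Q.1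
/-- `Q'` is contained in `Q`. -/
def Anc (Q' Q : ℕ × ℕ) : Prop := ∃ l, Q'.1 = Q.1 + l ∧ Q'.2 / 2 ^ l = Q.2

lemma dlen_pos (Q : ℕ × ℕ) : 0 < dlen Q := by unfold dlen; positivity

lemma dr_sub_dl (Q : ℕ × ℕ) : dr Q - dl Q = dlen Q := by
  unfold dr dl dlen
  ring

lemma dl_lt_dr (Q : ℕ × ℕ) : dl Q < dr Q := by
  have := dlen_pos Q
  rw [← dr_sub_dl] at this
  linarith

lemma dlen_le_one (Q : ℕ × ℕ) : dlen Q ≤ 1 := by
  unfold dlen
  rw [div_le_one (by positivity)]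
  exact one_le_pow₀ (by norm_num)

lemma dl_nonneg (Q : ℕ × ℕ) : 0 ≤ dl Q := by unfold dl; positivity

lemma dr_le_one {Q : ℕ × ℕ} (hQ : Q.2 < 2 ^ Q.1) : dr Q ≤ 1 := by
  unfold dr
  rw [div_le_one (by positivity)]
  exact_mod_cast hQ

lemma Anc.refl (Q : ℕ × ℕ) : Anc Q Q := ⟨0, by simp, by simp⟩

lemma Anc.sub {Q' Q : ℕ × ℕ} (h : Anc Q' Q) : dl Q ≤ dl Q' ∧ dr Q' ≤ dr Q := by
  obtain ⟨l, h1, h2⟩ := h
  have hpos : 0 < 2 ^ l := by positivity
  have h3 : Q.2 * 2 ^ l ≤ Q'.2 := by rw [← h2]; exact Nat.div_mul_le_self _ _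
  have h4 : Q'.2 < (Q.2 + 1) * 2 ^ l :=
    (Nat.div_lt_iff_lt_mul hpos).mp (by omega)
  have h3' : (Q.2 : ℝ) * 2 ^ l ≤ Q'.2 := by exact_mod_cast h3
  have h4' : (Q'.2 : ℝ) + 1 ≤ (Q.2 + 1) * 2 ^ l := by exact_mod_cast h4
  have hp : (2 : ℝ) ^ Q'.1 = 2 ^ Q.1 * 2 ^ l := by rw [h1, pow_add]
  unfold dl dr
  rw [hp]
  constructor
  · rw [div_le_div_iff₀ (by positivity) (by positivity)]
    calc (Q.2 : ℝ) * (2 ^ Q.1 * 2 ^ l) = (Q.2 * 2 ^ l) * 2 ^ Q.1 := by ring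
      _ ≤ Q'.2 * 2 ^ Q.1 := by gcongr
  · rw [div_le_div_iff₀ (by positivity) (by positivity)]
    calc ((Q'.2 : ℝ) + 1) * 2 ^ Q.1 ≤ ((Q.2 + 1) * 2 ^ l) * 2 ^ Q.1 := by gcongr
      _ = _ := by ring

lemma Anc.Icc_sub {Q' Q : ℕ × ℕ} (h : Anc Q' Q) : Icc (dl Q') (dr Q') ⊆ Icc (dl Q) (dr Q) :=
  Icc_subset_Icc h.sub.1 h.sub.2

/-- Dyadic intervals are nested or non-overlapping. -/
lemma nested_or_disj (Q Q' : ℕ × ℕ) : Anc Q' Q ∨ Anc Q Q' ∨ dr Q ≤ dl Q' ∨ dr Q' ≤ dl Q := by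
  have key : ∀ Q Q' : ℕ × ℕ, Q.1 ≤ Q'.1 → Anc Q' Q ∨ dr Q ≤ dl Q' ∨ dr Q' ≤ dl Q := by
    intro Q Q' hle
    obtain ⟨l, hl⟩ := Nat.exists_eq_add_of_le hle
    have hpos : 0 < 2 ^ l := by positivity
    have hp : (2 : ℝ) ^ Q'.1 = 2 ^ Q.1 * 2 ^ l := by rw [hl, pow_add]
    rcases lt_trichotomy (Q'.2 / 2 ^ l) Q.2 with h | h | h
    · right; right
      have h1 : Q'.2 < Q.2 * 2 ^ l := (Nat.div_lt_iff_lt_mul hpos).mp h
      have h2 : (Q'.2 : ℝ) + 1 ≤ Q.2 * 2 ^ l := by exact_mod_cast h1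
      unfold dl dr
      rw [hp, div_le_div_iff₀ (by positivity) (by positivity)]
      calc ((Q'.2 : ℝ) + 1) * 2 ^ Q.1 ≤ (Q.2 * 2 ^ l) * 2 ^ Q.1 := by gcongr
        _ = _ := by ring
    · left
      exact ⟨l, hl, h⟩
    · right; left
      have h1 : (Q.2 + 1) * 2 ^ l ≤ Q'.2 := (Nat.le_div_iff_mul_le hpos).mp h
      have h2 : ((Q.2 : ℝ) + 1) * 2 ^ l ≤ Q'.2 := by exact_mod_cast h1
      unfold dl dr
      rw [hp, div_le_div_iff₀ (by positivity) (by positivity)]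
      calc ((Q.2 : ℝ) + 1) * (2 ^ Q.1 * 2 ^ l) = ((Q.2 + 1) * 2 ^ l) * 2 ^ Q.1 := by ring
        _ ≤ _ := by gcongr
  rcases le_total Q.1 Q'.1 with h | h
  · rcases key Q Q' h with h1 | h1 | h1
    · exact Or.inl h1
    · exact Or.inr (Or.inr (Or.inl h1))
    · exact Or.inr (Or.inr (Or.inr h1))
  · rcases key Q' Q h with h1 | h1 | h1
    · exact Or.inr (Or.inl h1)
    · exact Or.inr (Or.inr (Or.inr h1))
    · exact Or.inr (Or.inr (Or.inl h1))

lemma Anc.cases {Q' Q : ℕ × ℕ} (h : Anc Q' Q) :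
    Q' = Q ∨ Anc Q' (Q.1 + 1, 2 * Q.2) ∨ Anc Q' (Q.1 + 1, 2 * Q.2 + 1) := by
  obtain ⟨l, h1, h2⟩ := h
  cases l with
  | zero =>
    left
    refine Prod.ext (by simpa using h1) (by simpa using h2)
  | succ l =>
    right
    have h3 : Q'.2 / 2 ^ l / 2 = Q.2 := by
      rw [Nat.div_div_eq_div_mul, ← pow_succ]; exact h2
    have h4 : Q'.2 / 2 ^ l = 2 * Q.2 ∨ Q'.2 / 2 ^ l = 2 * Q.2 + 1 := by omega
    rcases h4 with h4 | h4
    · left; exact ⟨l, by simp only [h1]; ring, h4⟩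
    · right; exact ⟨l, by simp only [h1]; ring, h4⟩

lemma anc_root {Q : ℕ × ℕ} (hQ : Q.2 < 2 ^ Q.1) : Anc Q (0, 0) :=
  ⟨Q.1, by simp, Nat.div_eq_of_lt hQ⟩

/-- Constant sign of a non-vanishing continuous function. -/
lemma sign_of_ne {h : ℝ → ℝ} {x y : ℝ} (hc : ContinuousOn h (Icc x y))
    (hne : ∀ t ∈ Icc x y, h t ≠ 0) : (∀ t ∈ Icc x y, 0 ≤ h t) ∨ ∀ t ∈ Icc x y, h t ≤ 0 := by
  by_contra hcon
  push Not at hcon
  obtain ⟨⟨a, ha, ha'⟩, ⟨b, hb, hb'⟩⟩ := hcon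
  have hpc : IsPreconnected (h '' Icc x y) := isPreconnected_Icc.image h hc
  have h0 : (0 : ℝ) ∈ h '' Icc x y :=
    hpc.Icc_subset (mem_image_of_mem h ha) (mem_image_of_mem h hb) ⟨ha'.le, hb'.le⟩
  obtain ⟨t, ht, ht0⟩ := h0
  exact hne t ht ht0

/-- If all derivatives vanish somewhere in the interval, then the first one is small. -/
lemma deriv_small {g : ℕ → ℝ → ℝ} {k : ℕ} {Λ x y : ℝ} (hΛ : 0 ≤ Λ) (hx : 0 ≤ x) (hxy : x ≤ y)
    (hy : y ≤ 1)
    (hd : ∀ i < k, ∀ t ∈ Icc (0 : ℝ) 1, HasDerivWithinAt (g i) (g (i + 1) t) (Icc 0 1) t)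
    (htop : ∀ s ∈ Icc (0 : ℝ) 1, ∀ t ∈ Icc (0 : ℝ) 1, |g k s - g k t| ≤ Λ * |s - t|)
    (hz : ∀ s, s + 1 ≤ k → ∃ t ∈ Icc x y, g (s + 1) t = 0) :
    ∀ d, d + 1 ≤ k → ∀ t ∈ Icc x y, |g (k - d) t| ≤ Λ * (y - x) ^ (d + 1) := by
  have hsub : Icc x y ⊆ Icc 0 1 := Icc_subset_Icc hx hy
  have hdist : ∀ s ∈ Icc x y, ∀ t ∈ Icc x y, |s - t| ≤ y - x := by
    intro s hs t ht
    rw [abs_le]
    constructor <;> linarith [hs.1, hs.2, ht.1, ht.2]
  intro d
  induction d with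
  | zero =>
    intro hk t ht
    obtain ⟨z, hz1, hz2⟩ := hz (k - 1) (by omega)
    have e : k - 1 + 1 = k := by omega
    rw [e] at hz2
    have h1 := htop t (hsub ht) z (hsub hz1)
    rw [hz2, sub_zero] at h1
    rw [Nat.sub_zero, zero_add, pow_one]
    refine h1.trans ?_
    gcongr
    exact hdist t ht z hz1
  | succ d ih =>
    intro hk t ht
    obtain ⟨z, hz1, hz2⟩ := hz (k - (d + 1) - 1) (by omega)
    have e : k - (d + 1) - 1 + 1 = k - (d + 1) := by omega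
    rw [e] at hz2
    have hb : ∀ s ∈ Icc x y, ‖g (k - d) s‖ ≤ Λ * (y - x) ^ (d + 1) := ih (by omega)
    have hder : ∀ s ∈ Icc x y,
        HasDerivWithinAt (g (k - (d + 1))) (g (k - d) s) (Icc x y) s := by
      intro s hs
      have := hd (k - (d + 1)) (by omega) s (hsub hs)
      have e2 : k - (d + 1) + 1 = k - d := by omega
      rw [e2] at this
      exact this.mono hsub
    have h1 := lip_of_deriv_bound (convex_Icc x y) hder hb t ht z hz1
    rw [hz2, sub_zero, Real.norm_eq_abs] at h1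
    refine h1.trans ?_
    calc Λ * (y - x) ^ (d + 1) * |t - z| ≤ Λ * (y - x) ^ (d + 1) * (y - x) := by
          have : 0 ≤ y - x := by linarith
          gcongr
          exact hdist t ht z hz1
      _ = Λ * (y - x) ^ (d + 1 + 1) := by ring

/-- The counting lemma. -/
lemma count_dyadic {k w : ℕ} (hw : 1 ≤ w) (hwk : w ≤ k) {Λ c : ℝ} (hΛ : 0 ≤ Λ) (hc : 0 < c)
    {u : ℝ → ℝ} (hu : CL k Λ u (Icc 0 1)) {τ : ℝ} (hτ : 0 < τ) {B : Finset (ℕ × ℕ)}
    {A : ℕ × ℕ → ℝ} (hB : ∀ Q ∈ B, Q.2 < 2 ^ Q.1) (hF : Fam u w c B dl dr A)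
    (hlen : ∀ Q ∈ B, τ * dlen Q ≤ A Q) :
    ∑ Q ∈ B, dlen Q ≤ 2 * Bc w c k * ((Λ / (c * τ)) ^ ((1 : ℝ) / w) / τ) := by
  classical
  have hk1 : 1 ≤ k := hw.trans hwk
  have hs01 : UniqueDiffOn ℝ (Icc (0 : ℝ) 1) := uniqueDiffOn_Icc zero_lt_one
  set g : ℕ → ℝ → ℝ := fun i => iteratedDerivWithin i u (Icc 0 1) with hg
  have hg0 : g 0 = u := by rw [hg]; simp [iteratedDerivWithin_zero]
  have hd : ∀ i < k, ∀ t ∈ Icc (0 : ℝ) 1, HasDerivWithinAt (g i) (g (i + 1) t) (Icc 0 1) t := by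
    intro i hi x hx
    have h1 : DifferentiableWithinAt ℝ (iteratedDerivWithin i u (Icc 0 1)) (Icc 0 1) x :=
      hu.1.1.differentiableOn_iteratedDerivWithin (by exact_mod_cast hi) hs01 x hx
    rw [hg]
    simp only
    rw [iteratedDerivWithin_succ]
    exact h1.hasDerivWithinAt
  have htop : ∀ s ∈ Icc (0 : ℝ) 1, ∀ t ∈ Icc (0 : ℝ) 1, |g k s - g k t| ≤ Λ * |s - t| := hu.1.2
  have hbd1 : ∀ t ∈ Icc (0 : ℝ) 1, |g 1 t| ≤ Λ := fun t ht => hu.2 1 hk1 t ht
  have hcont : ∀ i ≤ k, ContinuousOn (g i) (Icc 0 1) := by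
    intro i hi
    exact hu.1.1.continuousOn_iteratedDerivWithin (by exact_mod_cast hi) hs01
  set R : ℝ := (Λ / (c * τ)) ^ ((1 : ℝ) / w) with hR
  have hR0 : 0 ≤ R := by rw [hR]; positivity
  have hRw : R ^ w = Λ / (c * τ) := by
    rw [hR, one_div, Real.rpow_inv_natCast_pow (by positivity) (by omega)]
  have hBc1 : 1 ≤ Bc w c k := Bc_one_le w hc hk1
  have hBc0 : 0 ≤ Bc w c k := by linarith
  -- bound of `A Q`
  have hAb : ∀ Q ∈ B, ∀ K : ℝ, 0 ≤ K → (∀ t ∈ Icc (dl Q) (dr Q), |g 1 t| ≤ K) →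
      A Q ^ w ≤ K / (c * τ) := by
    intro Q hQ K hK hgK
    obtain ⟨t, ht, t', ht', h1⟩ := hF.osc Q hQ
    have hsub : Icc (dl Q) (dr Q) ⊆ Icc 0 1 := Icc_subset_Icc (dl_nonneg Q) (dr_le_one (hB Q hQ))
    have hder : ∀ s ∈ Icc (dl Q) (dr Q), HasDerivWithinAt u (g 1 s) (Icc (dl Q) (dr Q)) s := by
      intro s hs
      have := hd 0 (by omega) s (hsub hs)
      rw [hg0] at this
      exact this.mono hsub
    have h2 := lip_of_deriv_bound (convex_Icc _ _) hder (M := K) hgK t ht t' ht'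
    have h3 : |t - t'| ≤ dlen Q := by
      rw [← dr_sub_dl, abs_le]
      constructor <;> linarith [ht.1, ht.2, ht'.1, ht'.2]
    have h4 : c * A Q ^ (w + 1) ≤ K * dlen Q := by
      calc c * A Q ^ (w + 1) ≤ u t - u t' := h1
        _ ≤ ‖u t - u t'‖ := Real.le_norm_self _
        _ ≤ K * |t - t'| := h2
        _ ≤ K * dlen Q := by gcongr
    have hA := hF.hA Q hQ
    have h5 : K * (τ * dlen Q) ≤ K * A Q := by gcongr; exact hlen Q hQ
    rw [le_div_iff₀ (by positivity)]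
    have h6 : A Q * (A Q ^ w * (c * τ)) ≤ A Q * K := by
      calc A Q * (A Q ^ w * (c * τ)) = (c * A Q ^ (w + 1)) * τ := by ring
        _ ≤ (K * dlen Q) * τ := by gcongr
        _ = K * (τ * dlen Q) := by ring
        _ ≤ K * A Q := h5
        _ = A Q * K := by ring
    exact le_of_mul_le_mul_left h6 hA
  -- case 1
  have case1 : ∀ J : ℕ × ℕ, J.2 < 2 ^ J.1 → (∃ s, s + 1 ≤ k ∧ ∀ t ∈ Icc (dl J) (dr J), g (s + 1) t ≠ 0) →
      ∀ S : ℝ, 0 ≤ S → (∀ Q ∈ B, Anc Q J → A Q ≤ S) →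
        ∑ Q ∈ B.filter (fun Q => Anc Q J), dlen Q ≤ Bc w c k * (S / τ) := by
    intro J hJ ⟨s, hsk, hne⟩ S hS hAS
    have hsub : Icc (dl J) (dr J) ⊆ Icc 0 1 := Icc_subset_Icc (dl_nonneg J) (dr_le_one hJ)
    have hsign := sign_of_ne ((hcont (s + 1) hsk).mono hsub) hne
    have hF' : Fam (g 0) w c (B.filter (fun Q => Anc Q J)) dl dr A := by
      rw [hg0]; exact hF.subset (Finset.filter_subset _ _)
    have := sign_pieces hc g s (fun i hi => hd i (by omega)) (dl J) (dr J) (dl_nonneg J)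
      (dl_lt_dr J).le (dr_le_one hJ)
      (hsign.imp (fun h t ht => h t (Ioo_subset_Icc_self ht))
        (fun h t ht => h t (Ioo_subset_Icc_self ht)))
      (B.filter (fun Q => Anc Q J)) dl dr A S hF'
      (fun Q hQ => (Finset.mem_filter.mp hQ).2.sub) hS
      (fun Q hQ => hAS Q (Finset.mem_filter.mp hQ).1 (Finset.mem_filter.mp hQ).2)
    have h2 : ∑ Q ∈ B.filter (fun Q => Anc Q J), dlen Q ≤
        ∑ Q ∈ B.filter (fun Q => Anc Q J), A Q / τ := by
      refine Finset.sum_le_sum fun Q hQ => ?_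
      rw [le_div_iff₀ hτ, mul_comm]
      exact hlen Q (Finset.mem_filter.mp hQ).1
    refine h2.trans ?_
    rw [← Finset.sum_div, mul_div_assoc']
    gcongr
    refine this.trans ?_
    gcongr
    exact Bc_mono w hc (by omega)
  -- bound of `A` inside a case 2 interval
  have hA2 : ∀ J : ℕ × ℕ, J.2 < 2 ^ J.1 →
      (∀ s, s + 1 ≤ k → ∃ t ∈ Icc (dl J) (dr J), g (s + 1) t = 0) →
      ∀ Q ∈ B, Anc Q J → A Q ≤ R * dlen J := by
    intro J hJ hz Q hQ hQJ
    have h1 := deriv_small hΛ (dl_nonneg J) (dl_lt_dr J).le (dr_le_one hJ) hd htop hz (k - 1)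
      (by omega)
    have e1 : k - (k - 1) = 1 := by omega
    have e2 : k - 1 + 1 = k := by omega
    rw [e1, e2, dr_sub_dl] at h1
    have hlJ := dlen_pos J
    have h2 := hAb Q hQ (Λ * dlen J ^ k) (by positivity)
      (fun t ht => h1 t (hQJ.Icc_sub ht))
    have h3 : A Q ^ w ≤ (R * dlen J) ^ w := by
      rw [mul_pow, hRw]
      refine h2.trans ?_
      rw [mul_div_right_comm]
      exact mul_le_mul_of_nonneg_left (pow_le_pow_of_le_one hlJ.le (dlen_le_one J) hwk)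
        (by positivity)
    exact (pow_le_pow_iff_left₀ (hF.hA Q hQ).le (by positivity) (by omega)).mp h3
  -- a level bound
  obtain ⟨N, hN⟩ : ∃ N, ∀ Q ∈ B, Q.1 < N := by
    refine ⟨B.sup (fun Q => Q.1) + 1, fun Q hQ => ?_⟩
    exact Nat.lt_succ_of_le (Finset.le_sup (f := fun Q : ℕ × ℕ => Q.1) hQ)
  have hRτ : 0 ≤ R / τ := by positivity
  have case2 : ∀ d : ℕ, ∀ J : ℕ × ℕ, J.2 < 2 ^ J.1 → N ≤ J.1 + d →
      (∀ s, s + 1 ≤ k → ∃ t ∈ Icc (dl J) (dr J), g (s + 1) t = 0) →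
      ∑ Q ∈ B.filter (fun Q => Anc Q J), dlen Q ≤ 2 * Bc w c k * (R / τ) * dlen J := by
    intro d
    induction d with
    | zero =>
      intro J hJ hNJ hz
      have : B.filter (fun Q => Anc Q J) = ∅ := by
        refine Finset.filter_eq_empty_iff.mpr ?_
        intro Q hQ hQJ
        obtain ⟨l, hl, -⟩ := hQJ
        have := hN Q hQ
        omega
      rw [this, Finset.sum_empty]
      have := dlen_pos J
      positivity
    | succ d ih =>
      intro J hJ hNJ hz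
      have hlJ := dlen_pos J
      by_cases hJB : J ∈ B
      · have : B.filter (fun Q => Anc Q J) ⊆ {J} := by
          intro Q hQ
          obtain ⟨hQB, hQJ⟩ := Finset.mem_filter.mp hQ
          rw [Finset.mem_singleton]
          by_contra hne
          rcases hF.disj Q hQB J hJB hne with h | h
          · linarith [hQJ.sub.1, dl_lt_dr Q]
          · linarith [hQJ.sub.2, dl_lt_dr Q]
        calc ∑ Q ∈ B.filter (fun Q => Anc Q J), dlen Q ≤ ∑ Q ∈ {J}, dlen Q :=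
              Finset.sum_le_sum_of_subset_of_nonneg this (fun Q _ _ => (dlen_pos Q).le)
          _ = dlen J := by simp
          _ ≤ (R / τ) * dlen J := by
            have h1 := hA2 J hJ hz J hJB (Anc.refl J)
            have h2 := hlen J hJB
            rw [div_mul_eq_mul_div, le_div_iff₀ hτ]
            linarith
          _ ≤ 2 * Bc w c k * (R / τ) * dlen J := by
            have h0 : 0 ≤ (R / τ) * dlen J := by positivity
            have : 2 * Bc w c k * (R / τ) * dlen J = 2 * Bc w c k * ((R / τ) * dlen J) := by ring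
            rw [this]
            nlinarith
      · set J₀ : ℕ × ℕ := (J.1 + 1, 2 * J.2) with hJ₀
        set J₁ : ℕ × ℕ := (J.1 + 1, 2 * J.2 + 1) with hJ₁
        have hl0 : dlen J₀ = dlen J / 2 := by
          rw [hJ₀]; unfold dlen; rw [pow_succ]; field_simp
        have hl1 : dlen J₁ = dlen J / 2 := by
          rw [hJ₁]; unfold dlen; rw [pow_succ]; field_simp
        have hlt0 : J₀.2 < 2 ^ J₀.1 := by
          rw [hJ₀]; simp only [pow_succ]; omega
        have hlt1 : J₁.2 < 2 ^ J₁.1 := by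
          rw [hJ₁]; simp only [pow_succ]; omega
        have ha0 : Anc J₀ J := ⟨1, by simp [hJ₀], by simp [hJ₀]⟩
        have ha1 : Anc J₁ J := ⟨1, by simp [hJ₁], by simp [hJ₁]; omega⟩
        have htrans : ∀ {Q J' : ℕ × ℕ}, Anc J' J → Anc Q J' → Anc Q J := by
          rintro Q J' ⟨l, h1, h2⟩ ⟨l', h1', h2'⟩
          refine ⟨l + l', by omega, ?_⟩
          rw [add_comm l l', pow_add, ← Nat.div_div_eq_div_mul, h2', h2]
        have hsub : B.filter (fun Q => Anc Q J) ⊆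
            B.filter (fun Q => Anc Q J₀) ∪ B.filter (fun Q => Anc Q J₁) := by
          intro Q hQ
          obtain ⟨hQB, hQJ⟩ := Finset.mem_filter.mp hQ
          rw [Finset.mem_union, Finset.mem_filter, Finset.mem_filter]
          rcases hQJ.cases with h | h | h
          · exact absurd (h ▸ hQB) hJB
          · exact Or.inl ⟨hQB, h⟩
          · exact Or.inr ⟨hQB, h⟩
        have hchild : ∀ J' : ℕ × ℕ, J'.2 < 2 ^ J'.1 → Anc J' J → dlen J' = dlen J / 2 →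
            N ≤ J'.1 + d →
            ∑ Q ∈ B.filter (fun Q => Anc Q J'), dlen Q ≤ Bc w c k * (R / τ) * dlen J := by
          intro J' hJ' hanc hlen' hNJ'
          by_cases hcase : ∃ s, s + 1 ≤ k ∧ ∀ t ∈ Icc (dl J') (dr J'), g (s + 1) t ≠ 0
          · have := case1 J' hJ' hcase (R * dlen J) (by positivity)
              (fun Q hQ hQJ => hA2 J hJ hz Q hQ (htrans hanc hQJ))
            refine this.trans (le_of_eq ?_)
            ring
          · push Not at hcase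
            have := ih J' hJ' hNJ' (fun s hs => by
              obtain ⟨t, ht, h0⟩ := hcase s hs
              exact ⟨t, ht, h0⟩)
            rw [hlen'] at this
            refine this.trans (le_of_eq ?_)
            ring
        have h0 := hchild J₀ hlt0 ha0 hl0 (by simp only [hJ₀]; omega)
        have h1 := hchild J₁ hlt1 ha1 hl1 (by simp only [hJ₁]; omega)
        calc ∑ Q ∈ B.filter (fun Q => Anc Q J), dlen Q
            ≤ ∑ Q ∈ B.filter (fun Q => Anc Q J₀) ∪ B.filter (fun Q => Anc Q J₁), dlen Q :=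
              Finset.sum_le_sum_of_subset_of_nonneg hsub (fun Q _ _ => (dlen_pos Q).le)
          _ ≤ ∑ Q ∈ B.filter (fun Q => Anc Q J₀), dlen Q + ∑ Q ∈ B.filter (fun Q => Anc Q J₁), dlen Q := by
              rw [← Finset.sum_union_inter]
              have : 0 ≤ ∑ Q ∈ B.filter (fun Q => Anc Q J₀) ∩ B.filter (fun Q => Anc Q J₁), dlen Q :=
                Finset.sum_nonneg fun Q _ => (dlen_pos Q).le
              linarith
          _ ≤ _ := by linarith
  -- conclusion at the root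
  have hroot : B.filter (fun Q => Anc Q (0, 0)) = B :=
    Finset.filter_true_of_mem fun Q hQ => anc_root (hB Q hQ)
  have hlroot : dlen (0, 0) = 1 := by simp [dlen]
  by_cases hcase : ∃ s, s + 1 ≤ k ∧ ∀ t ∈ Icc (dl (0, 0)) (dr (0, 0)), g (s + 1) t ≠ 0
  · have := case1 (0, 0) (by simp) hcase R hR0 (by
      intro Q hQ _
      have h2 := hAb Q hQ Λ hΛ (fun t ht => hbd1 t
        (Icc_subset_Icc (dl_nonneg Q) (dr_le_one (hB Q hQ)) ht))
      rw [← hRw] at h2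
      exact (pow_le_pow_iff_left₀ (hF.hA Q hQ).le hR0 (by omega)).mp h2)
    rw [hroot] at this
    refine this.trans ?_
    have h0 : 0 ≤ Bc w c k * (R / τ) := by positivity
    linarith
  · push Not at hcase
    have := case2 N (0, 0) (by simp) (by simp) (fun s hs => by
      obtain ⟨t, ht, h0⟩ := hcase s hs
      exact ⟨t, ht, h0⟩)
    rw [hroot, hlroot, mul_one] at this
    exact this

end Pool.Agent.WeakRoots
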