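import Pool.Agent.WeakRoots.Diff

set_option autoImplicit false

open Set MeasureTheory Topology
open scoped ENNReal NNReal

namespace Pool.Agent.WeakRoots

/-- Extension of `C^{k,1}` functions to a longer interval. -/
lemma CL.extend (k : ℕ) : ∀ {f : ℝ → ℂ} {M a b c : ℝ}, a < b → b ≤ c → c ≤ a + 1 → 0 ≤ M →
    CL k M f (Icc a b) → ∃ F : ℝ → ℂ, EqOn F f (Icc a b) ∧ CL k ((k + 1) * M) F (Icc a c) := by
  induction k with
  | zero =>
    intro f M a b c hab hbc hca hM hf
    rw [CL_zero] at hf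
    refine ⟨fun t => f (min t b), ?_, ?_⟩
    · intro t ht
      simp only [min_eq_left ht.2]
    · have hmem : ∀ t ∈ Icc a c, min t b ∈ Icc a b := fun t ht =>
        ⟨le_min ht.1 hab.le, min_le_right _ _⟩
      rw [CL_zero]
      simp only [Nat.cast_zero, zero_add, one_mul]
      refine ⟨?_, fun t ht => hf.2 _ (hmem t ht)⟩
      intro x hx z hz
      refine (hf.1 _ (hmem x hx) _ (hmem z hz)).trans ?_
      have := abs_min_sub_min_le_max x b z b
      exact mul_le_mul_of_nonneg_left (by simpa using this) hM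
  | succ k ih =>
    intro f M a b c hab hbc hca hM hf
    have hac : a < c := hab.trans_le hbc
    have hs : UniqueDiffOn ℝ (Icc a b) := uniqueDiffOn_Icc hab
    have hs' : UniqueDiffOn ℝ (Icc a c) := uniqueDiffOn_Icc hac
    obtain ⟨G, hG1, hG2⟩ := ih hab hbc hca hM (hf.deriv hs)
    set G' : ℝ → ℂ := fun t => G (max a (min t c)) with hG'
    have hG'm : ∀ t, max a (min t c) ∈ Icc a c := fun t =>
      ⟨le_max_left _ _, max_le hac.le (min_le_right _ _)⟩
    have hG'c : Continuous G' := by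
      have h1 : ContinuousOn G (Icc a c) := hG2.continuousOn
      have h2 : Continuous fun t : ℝ => max a (min t c) := by fun_prop
      rw [← continuousOn_univ]
      exact h1.comp h2.continuousOn fun t _ => hG'm t
    have hG'e : ∀ t ∈ Icc a c, G' t = G t := by
      intro t ht
      simp only [hG', min_eq_left ht.2, max_eq_right ht.1]
    set F : ℝ → ℂ := fun t => f a + ∫ s in a..t, G' s with hF
    have hFd : ∀ t, HasDerivAt F (G' t) t := fun t =>
      ((hG'c.integral_hasStrictDerivAt a t).hasDerivAt).const_add (f a)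
    have hbd : ∀ t ∈ Icc a c, ‖G' t‖ ≤ (k + 1) * M := fun t ht => by
      rw [hG'e t ht]; exact hG2.norm_le ht
    have hkM : 0 ≤ ((k : ℝ) + 1) * M := by positivity
    have hFa : F a = f a := by simp [hF]
    refine ⟨F, ?_, ?_⟩
    · -- `F = f` on `[a, b]`
      have h1 : ∀ x ∈ Icc a b, HasDerivWithinAt (fun t => F t - f t) 0 (Icc a b) x := by
        intro x hx
        have h2 := (hFd x).hasDerivWithinAt (s := Icc a b)
        have h3 := hf.hasDeriv hs hx
        have h4 := h2.sub h3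
        have h5 : G' x = derivWithin f (Icc a b) x := by
          rw [hG'e x ⟨hx.1, hx.2.trans hbc⟩]
          exact hG1 hx
        rwa [h5, sub_self] at h4
      intro x hx
      have h2 := lip_of_deriv_bound (convex_Icc a b) (f' := fun _ => (0 : ℂ)) (M := 0) h1
        (fun _ _ => by simp) x hx a ⟨le_rfl, hab.le⟩
      rw [zero_mul, hFa, sub_self, sub_zero] at h2
      exact sub_eq_zero.mp (norm_le_zero_iff.mp h2)
    · refine CL_succ_of_hasDeriv hs' (f' := G') (fun x _ => (hFd x).hasDerivWithinAt) ?_ ?_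
      · intro x hx
        have h1 := lip_of_deriv_bound (convex_Icc a c) (f' := G')
          (fun x _ => (hFd x).hasDerivWithinAt) hbd x hx a ⟨le_rfl, hac.le⟩
        have h2 : ‖f a‖ ≤ M := hf.norm_le ⟨le_rfl, hab.le⟩
        have h3 : ‖F x‖ ≤ ‖F x - F a‖ + ‖F a‖ := by
          have := norm_add_le (F x - F a) (F a)
          simpa using this
        have h4 : |x - a| ≤ 1 := by
          rw [abs_of_nonneg (by linarith [hx.1])]
          linarith [hx.2]
        have h5 : (k + 1) * M * |x - a| ≤ (k + 1) * M * 1 := mul_le_mul_of_nonneg_left h4 hkM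
        rw [hFa] at h3 h1
        push_cast
        calc ‖F x‖ ≤ (k + 1) * M * 1 + M := by linarith
          _ = (k + 1 + 1) * M := by ring
      · refine (hG2.congr hG'e).mono ?_
        push_cast
        nlinarith

/-- The polynomial equation in the two indexings. -/
lemma ev_eq_sum {n : ℕ} (α : ℕ → ℂ) (z : ℂ) :
    ev (fun i : Fin n => α (n - (i : ℕ))) z = z ^ n + ∑ j ∈ Finset.Icc 1 n, α j * z ^ (n - j) := by
  unfold ev
  congr 1
  rw [← Finset.sum_range (f := fun i => α (n - i) * z ^ i)]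
  refine Finset.sum_nbij' (fun i => n - i) (fun j => n - j) ?_ ?_ ?_ ?_ ?_
  · intro i hi; rw [Finset.mem_range] at hi; rw [Finset.mem_Icc]; omega
  · intro j hj; rw [Finset.mem_Icc] at hj; rw [Finset.mem_range]; omega
  · intro i hi; rw [Finset.mem_range] at hi; omega
  · intro j hj; rw [Finset.mem_Icc] at hj; omega
  · intro i hi
    rw [Finset.mem_range] at hi
    congr 2
    omega

/-- The estimate on an interval of length one. -/
lemma unit_bound {n : ℕ} (hn : 2 ≤ n) : ∃ C : ℝ, 0 ≤ C ∧ ∀ R : ℝ, 0 < R → ∀ (l : ℝ)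
    (a : ℕ → ℝ → ℂ), (∀ j ∈ Finset.Icc 1 n, CL (n - 1) (R ^ j) (a j) (Icc l (l + 1))) →
    ∀ c d : ℝ, l ≤ c → d ≤ l + 1 → ∀ lam : ℝ → ℂ, ContinuousOn lam (Ioo c d) →
    (∀ t ∈ Ioo c d, lam t ^ n + ∑ j ∈ Finset.Icc 1 n, a j t * lam t ^ (n - j) = 0) →
    (∀ σ : ℝ, 0 < σ → volume {t | t ∈ Ioo c d ∧ σ < ‖deriv lam t‖} ≤
      ENNReal.ofReal (C * (σ / R) ^ (-((n : ℝ) / (n - 1))))) ∧
    volume {t | t ∈ Ioo c d ∧ ¬ DifferentiableAt ℝ lam t} = 0 := by
  have hn2 : (2 : ℝ) ≤ n := by exact_mod_cast hn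
  have hp : 0 < (n : ℝ) / (n - 1) := div_pos (by linarith) (by linarith)
  obtain ⟨C, hC0, hC⟩ := SS_all n (by omega) 1 (n / (n - 1)) zero_le_one hp (Or.inr le_rfl)
  refine ⟨C, hC0, ?_⟩
  intro R hR l a ha c d hlc hdl lam hlam hroot
  have hs01 : UniqueDiffOn ℝ (Icc (0 : ℝ) 1) := uniqueDiffOn_Icc zero_lt_one
  have hsl : UniqueDiffOn ℝ (Icc l (l + 1)) := uniqueDiffOn_Icc (by linarith)
  have hmaps : ∀ τ ∈ Icc (0 : ℝ) 1, l + 1 * τ ∈ Icc l (l + 1) := fun τ hτ =>
    ⟨by linarith [hτ.1], by linarith [hτ.2]⟩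
  set b : ℝ → Fin n → ℂ := fun τ i =>
    (R ^ (n - (i : ℕ)))⁻¹ • a (n - (i : ℕ)) (l + 1 * τ) with hb
  have hbCL : CL (n - 1) 1 b (Icc 0 1) := by
    refine CL.pi hs01 zero_le_one fun i => ?_
    have hi : n - (i : ℕ) ∈ Finset.Icc 1 n := by
      rw [Finset.mem_Icc]; have := i.2; omega
    have h1 : CL (n - 1) (R ^ (n - (i : ℕ))) (fun τ => a (n - (i : ℕ)) (l + 1 * τ)) (Icc 0 1) :=
      CL.affine hsl hs01 (by simp) hmaps (by positivity) (ha _ hi)
    have h2 := h1.smul hs01 ((R ^ (n - (i : ℕ)))⁻¹)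
    refine h2.mono (le_of_eq ?_)
    rw [abs_of_pos (by positivity)]
    exact inv_mul_cancel₀ (by positivity)
  set μ : ℝ → ℂ := fun τ => lam (l + 1 * τ) * ((R⁻¹ : ℝ) : ℂ) with hμ
  have hJ : ∀ τ ∈ Ioo (c - l) (d - l), l + 1 * τ ∈ Ioo c d := fun τ hτ =>
    ⟨by linarith [hτ.1], by linarith [hτ.2]⟩
  have hμc : ContinuousOn μ (Ioo (c - l) (d - l)) :=
    (hlam.comp (by fun_prop) hJ).mul continuousOn_const
  have hRC : (R : ℂ) ≠ 0 := by exact_mod_cast hR.ne'
  have hμr : ∀ τ ∈ Ioo (c - l) (d - l), ev (b τ) (μ τ) = 0 := by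
    intro τ hτ
    have h1 := hroot _ (hJ τ hτ)
    rw [← ev_eq_sum (fun j => a j (l + 1 * τ))] at h1
    have h2 : ev (b τ) (μ τ) = ev (fun i : Fin n => a (n - (i : ℕ)) (l + 1 * τ))
        (lam (l + 1 * τ)) * ((R : ℂ) ^ n)⁻¹ := by
      unfold ev
      rw [add_mul, Finset.sum_mul]
      congr 1
      · rw [hμ]; push_cast; rw [mul_pow, inv_pow]
      · refine Finset.sum_congr rfl fun i _ => ?_
        rw [hb, hμ]
        simp only [Complex.real_smul]
        push_cast
        rw [mul_pow, inv_pow]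
        have h3 : (R : ℂ) ^ n = (R : ℂ) ^ (n - (i : ℕ)) * (R : ℂ) ^ (i : ℕ) := by
          rw [← pow_add]; congr 1; have := i.2; omega
        rw [h3, mul_inv]
        ring
    rw [h2, h1, zero_mul]
  have hderiv : ∀ τ, deriv μ τ = deriv lam (l + 1 * τ) * ((R⁻¹ : ℝ) : ℂ) := by
    intro τ
    rw [hμ, deriv_mul_const_field]
    congr 1
    simp only [one_mul]
    rw [deriv_comp_const_add]
  constructor
  · intro σ hσ
    have h1 := hC b hbCL (c - l) (d - l) (by linarith) (by linarith) μ hμc hμr (σ / R)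
      (by positivity)
    have himage : {t | t ∈ Ioo c d ∧ σ < ‖deriv lam t‖} ⊆
        (fun τ => l + 1 * τ) '' {τ | τ ∈ Ioo (c - l) (d - l) ∧ σ / R < ‖deriv μ τ‖} := by
      rintro t ⟨ht1, ht2⟩
      have e1 : l + 1 * (t - l) = t := by ring
      refine ⟨t - l, ⟨⟨by linarith [ht1.1], by linarith [ht1.2]⟩, ?_⟩, e1⟩
      rw [hderiv, e1, norm_mul, Complex.norm_real, Real.norm_eq_abs, abs_of_pos (inv_pos.mpr hR),
        div_eq_mul_inv]
      exact mul_lt_mul_of_pos_right ht2 (inv_pos.mpr hR)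
    refine (measure_mono himage).trans ?_
    rw [volume_image_affine l one_pos, ENNReal.ofReal_one, one_mul]
    exact h1
  · have h1 := AD_all n (by omega) 1 zero_le_one b hbCL (c - l) (d - l) (by linarith) (by linarith)
      μ hμc hμr
    have himage : {t | t ∈ Ioo c d ∧ ¬ DifferentiableAt ℝ lam t} ⊆
        (fun τ => l + 1 * τ) '' {τ | τ ∈ Ioo (c - l) (d - l) ∧ ¬ DifferentiableAt ℝ μ τ} := by
      rintro t ⟨ht1, ht2⟩
      have e1 : l + 1 * (t - l) = t := by ring
      refine ⟨t - l, ⟨⟨by linarith [ht1.1], by linarith [ht1.2]⟩, ?_⟩, e1⟩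
      intro hcon
      apply ht2
      have h2 : DifferentiableAt ℝ (fun s : ℝ => s - l) t := by fun_prop
      have h3 := (hcon.comp t h2).mul_const ((R : ℝ) : ℂ)
      refine h3.congr_of_eventuallyEq (Filter.Eventually.of_forall fun s => ?_)
      have e2 : l + 1 * (s - l) = s := by ring
      simp only [Function.comp, e2, hμ]
      push_cast
      field_simp
    refine measure_mono_null himage ?_
    rw [volume_image_affine l one_pos, h1, mul_zero]

/-- The estimate on a general interval, for a positive size parameter. -/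
lemma general_bound {n : ℕ} (hn : 2 ≤ n) : ∃ C : ℝ, 0 ≤ C ∧ ∀ R : ℝ, 0 < R → ∀ (α β : ℝ), α < β →
    ∀ (a : ℕ → ℝ → ℂ), (∀ j ∈ Finset.Icc 1 n, CL (n - 1) (R ^ j) (a j) (Icc α β)) →
    ∀ lam : ℝ → ℂ, ContinuousOn lam (Ioo α β) →
    (∀ t ∈ Ioo α β, lam t ^ n + ∑ j ∈ Finset.Icc 1 n, a j t * lam t ^ (n - j) = 0) →
    (∀ σ : ℝ, 0 < σ → volume {t | t ∈ Ioo α β ∧ σ < ‖deriv lam t‖} ≤
      ENNReal.ofReal (C * max 1 (β - α) * (σ / R) ^ (-((n : ℝ) / (n - 1))))) ∧
    volume {t | t ∈ Ioo α β ∧ ¬ DifferentiableAt ℝ lam t} = 0 := by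
  classical
  obtain ⟨C, hC0, hC⟩ := unit_bound hn
  have hn2 : (2 : ℝ) ≤ n := by exact_mod_cast hn
  set p : ℝ := (n : ℝ) / (n - 1) with hp
  have hp0 : 0 < p := div_pos (by linarith) (by linarith)
  refine ⟨max (2 * C) (C * (n : ℝ) ^ p), le_max_of_le_left (by positivity), ?_⟩
  intro R hR α β hαβ a ha lam hlam hroot
  rcases lt_or_ge (β - α) 1 with hlt | hge
  · -- short interval: extend the coefficients
    have hex : ∀ j, ∃ F : ℝ → ℂ, j ∈ Finset.Icc 1 n → EqOn F (a j) (Icc α β) ∧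
        CL (n - 1) (n * R ^ j) F (Icc α (α + 1)) := by
      intro j
      by_cases hj : j ∈ Finset.Icc 1 n
      · obtain ⟨F, h1, h2⟩ := CL.extend (n - 1) hαβ (by linarith : β ≤ α + 1) le_rfl
          (by positivity) (ha j hj)
        refine ⟨F, fun _ => ⟨h1, ?_⟩⟩
        have : ((n - 1 : ℕ) : ℝ) + 1 = n := by
          rw [Nat.cast_sub (by omega)]; push_cast; ring
        rwa [this] at h2
      · exact ⟨fun _ => 0, fun h => absurd h hj⟩
    choose F hF using hex
    have hR' : 0 < (n : ℝ) * R := by positivity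
    obtain ⟨h1, h2⟩ := hC (n * R) hR' α F (fun j hj => (hF j hj).2.mono (by
        rw [mul_pow]
        have hj1 : j ≠ 0 := by rw [Finset.mem_Icc] at hj; omega
        have : (n : ℝ) ≤ (n : ℝ) ^ j := le_self_pow₀ (by linarith) hj1
        exact mul_le_mul_of_nonneg_right this (by positivity)))
      α β le_rfl (by linarith) lam hlam (by
        intro t ht
        rw [← hroot t ht]
        congr 1
        refine Finset.sum_congr rfl fun j hj => ?_
        rw [(hF j hj).1 (Ioo_subset_Icc_self ht)])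
    refine ⟨?_, h2⟩
    intro σ hσ
    refine (h1 σ hσ).trans (ENNReal.ofReal_le_ofReal ?_)
    have e1 : (σ / (n * R)) ^ (-p) = (n : ℝ) ^ p * (σ / R) ^ (-p) := by
      have : σ / (n * R) = (n : ℝ)⁻¹ * (σ / R) := by field_simp
      rw [this, Real.mul_rpow (by positivity) (by positivity), Real.rpow_neg (by positivity),
        Real.inv_rpow (by positivity), inv_inv]
    rw [e1]
    have h3 : 0 ≤ (σ / R) ^ (-p) := by positivity
    calc C * ((n : ℝ) ^ p * (σ / R) ^ (-p)) = C * (n : ℝ) ^ p * 1 * (σ / R) ^ (-p) := by ring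
      _ ≤ max (2 * C) (C * (n : ℝ) ^ p) * max 1 (β - α) * (σ / R) ^ (-p) := by
        have h4 : C * (n : ℝ) ^ p ≤ max (2 * C) (C * (n : ℝ) ^ p) := le_max_right _ _
        have h5 : (1 : ℝ) ≤ max 1 (β - α) := le_max_left _ _
        gcongr
  · -- long interval: cut it into pieces of length one
    set K : ℕ := ⌊β - α⌋₊ with hK
    have hK1 : (K : ℝ) ≤ β - α := Nat.floor_le (by linarith)
    have hK2 : β - α < K + 1 := Nat.lt_floor_add_one _
    set l : ℕ → ℝ := fun k => if k < K then α + k else β - 1 with hl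
    have hlα : ∀ k, α ≤ l k := by
      intro k
      simp only [hl]
      split_ifs with h
      · have : (0 : ℝ) ≤ k := Nat.cast_nonneg k
        linarith
      · linarith
    have hlβ : ∀ k, l k + 1 ≤ β := by
      intro k
      simp only [hl]
      split_ifs with h
      · have : (k : ℝ) + 1 ≤ K := by exact_mod_cast h
        linarith
      · linarith
    have hsαβ : UniqueDiffOn ℝ (Icc α β) := uniqueDiffOn_Icc hαβ
    have hpiece : ∀ k, (∀ σ : ℝ, 0 < σ → volume {t | t ∈ Ioo (l k) (l k + 1) ∧ σ < ‖deriv lam t‖} ≤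
        ENNReal.ofReal (C * (σ / R) ^ (-p))) ∧
        volume {t | t ∈ Ioo (l k) (l k + 1) ∧ ¬ DifferentiableAt ℝ lam t} = 0 := by
      intro k
      have hsub : Icc (l k) (l k + 1) ⊆ Icc α β := Icc_subset_Icc (hlα k) (hlβ k)
      have hsub' : Ioo (l k) (l k + 1) ⊆ Ioo α β := Ioo_subset_Ioo (hlα k) (hlβ k)
      exact hC R hR (l k) a (fun j hj => (ha j hj).restrict hsαβ
        (uniqueDiffOn_Icc (by linarith)) hsub) (l k) (l k + 1) le_rfl le_rfl lam
        (hlam.mono hsub') (fun t ht => hroot t (hsub' ht))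
    have hcover : ∀ t ∈ Ioo α β, t ∈ range (fun k : ℕ => α + k) ∨
        ∃ k ∈ Finset.range (K + 1), t ∈ Ioo (l k) (l k + 1) := by
      intro t ht
      set k : ℕ := ⌊t - α⌋₊ with hk
      have hk1 : (k : ℝ) ≤ t - α := Nat.floor_le (by linarith [ht.1])
      have hk2 : t - α < k + 1 := Nat.lt_floor_add_one _
      rcases eq_or_lt_of_le hk1 with h | h
      · left
        exact ⟨k, by simp only; linarith⟩
      · right
        rcases lt_or_ge k K with hkK | hkK
        · refine ⟨k, Finset.mem_range.mpr (by omega), ?_⟩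
          simp only [hl, if_pos hkK]
          exact ⟨by linarith, by linarith⟩
        · refine ⟨K, Finset.mem_range.mpr (by omega), ?_⟩
          simp only [hl, lt_irrefl, if_false]
          have : (K : ℝ) ≤ k := by exact_mod_cast hkK
          exact ⟨by linarith, by linarith [ht.2]⟩
    have hnull : volume (range (fun k : ℕ => α + (k : ℝ))) = 0 :=
      (countable_range _).measure_zero volume
    constructor
    · intro σ hσ
      have hsub : {t | t ∈ Ioo α β ∧ σ < ‖deriv lam t‖} ⊆ range (fun k : ℕ => α + (k : ℝ)) ∪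
          ⋃ k ∈ Finset.range (K + 1), {t | t ∈ Ioo (l k) (l k + 1) ∧ σ < ‖deriv lam t‖} := by
        rintro t ⟨ht1, ht2⟩
        rcases hcover t ht1 with h | ⟨k, hk, h⟩
        · exact Or.inl h
        · exact Or.inr (mem_iUnion₂.mpr ⟨k, hk, h, ht2⟩)
      have hX : 0 ≤ C * (σ / R) ^ (-p) := by positivity
      calc volume {t | t ∈ Ioo α β ∧ σ < ‖deriv lam t‖} ≤ _ := measure_mono hsub
        _ ≤ _ := measure_union_le _ _
        _ = volume (⋃ k ∈ Finset.range (K + 1),
            {t | t ∈ Ioo (l k) (l k + 1) ∧ σ < ‖deriv lam t‖}) := by rw [hnull, zero_add]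
        _ ≤ ∑ k ∈ Finset.range (K + 1),
            volume {t | t ∈ Ioo (l k) (l k + 1) ∧ σ < ‖deriv lam t‖} :=
            measure_biUnion_finset_le _ _
        _ ≤ ∑ k ∈ Finset.range (K + 1), ENNReal.ofReal (C * (σ / R) ^ (-p)) :=
            Finset.sum_le_sum fun k _ => (hpiece k).1 σ hσ
        _ = ENNReal.ofReal (((K : ℝ) + 1) * (C * (σ / R) ^ (-p))) := by
            have hK0 : (0 : ℝ) ≤ (K : ℝ) + 1 := by positivity
            have hK3 : ENNReal.ofReal ((K : ℝ) + 1) = ((K + 1 : ℕ) : ℝ≥0∞) := by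
              rw [← Nat.cast_succ, ENNReal.ofReal_natCast]
            rw [Finset.sum_const, Finset.card_range, nsmul_eq_mul, ENNReal.ofReal_mul hK0, hK3]
        _ ≤ _ := by
            refine ENNReal.ofReal_le_ofReal ?_
            have h3 : 0 ≤ (σ / R) ^ (-p) := by positivity
            have h4 : (K : ℝ) + 1 ≤ 2 * (β - α) := by linarith
            have h5 : β - α ≤ max 1 (β - α) := le_max_right _ _
            have h6 : 2 * C ≤ max (2 * C) (C * (n : ℝ) ^ p) := le_max_left _ _
            calc ((K : ℝ) + 1) * (C * (σ / R) ^ (-p)) ≤ 2 * (β - α) * (C * (σ / R) ^ (-p)) := by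
                  gcongr
              _ = (2 * C) * (β - α) * (σ / R) ^ (-p) := by ring
              _ ≤ _ := by
                have : 0 ≤ β - α := by linarith
                gcongr
    · have hsub : {t | t ∈ Ioo α β ∧ ¬ DifferentiableAt ℝ lam t} ⊆
          range (fun k : ℕ => α + (k : ℝ)) ∪
          ⋃ k ∈ Finset.range (K + 1), {t | t ∈ Ioo (l k) (l k + 1) ∧ ¬ DifferentiableAt ℝ lam t} := by
        rintro t ⟨ht1, ht2⟩
        rcases hcover t ht1 with h | ⟨k, hk, h⟩
        · exact Or.inl h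
        · exact Or.inr (mem_iUnion₂.mpr ⟨k, hk, h, ht2⟩)
      refine measure_mono_null hsub ?_
      rw [measure_union_null_iff]
      refine ⟨hnull, ?_⟩
      refine le_antisymm ((measure_biUnion_finset_le _ _).trans ?_) bot_le
      rw [Finset.sum_eq_zero fun k _ => (hpiece k).2]

end Pool.Agent.WeakRoots
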