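import Pool.Agent.WeakRoots.Maxi

set_option autoImplicit false

open Set MeasureTheory Topology
open scoped ENNReal

namespace Pool.Agent.WeakRoots

/-- The induction statement: weak type bound for the derivative of a continuous root. -/
def SS (n : ℕ) : Prop := ∀ (M q : ℝ), 0 ≤ M → 0 < q → (n = 1 ∨ q ≤ n / (n - 1)) →
  ∃ C : ℝ, 0 ≤ C ∧ ∀ a : ℝ → Fin n → ℂ, CL (n - 1) M a (Icc 0 1) → ∀ c d : ℝ, 0 ≤ c → d ≤ 1 →
    ∀ lam : ℝ → ℂ, ContinuousOn lam (Ioo c d) → (∀ t ∈ Ioo c d, ev (a t) (lam t) = 0) →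
      ∀ σ : ℝ, 0 < σ →
        volume {t | t ∈ Ioo c d ∧ σ < ‖deriv lam t‖} ≤ ENNReal.ofReal (C * σ ^ (-q))

/-- On an interval, a continuous root of a product of coprime factors is a root of one factor. -/
lemma one_factor {φ₁ φ₂ : ℝ → ℂ} {c d : ℝ} (h1 : ContinuousOn φ₁ (Ioo c d))
    (h2 : ContinuousOn φ₂ (Ioo c d)) (hprod : ∀ t ∈ Ioo c d, φ₁ t * φ₂ t = 0)
    (hne : ∀ t ∈ Ioo c d, ¬ (φ₁ t = 0 ∧ φ₂ t = 0)) :
    (∀ t ∈ Ioo c d, φ₁ t = 0) ∨ ∀ t ∈ Ioo c d, φ₂ t = 0 := by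
  by_contra hcon
  push Not at hcon
  obtain ⟨⟨t₁, ht₁, h1'⟩, ⟨t₂, ht₂, h2'⟩⟩ := hcon
  have e1 : φ₂ t₁ = 0 := (mul_eq_zero.mp (hprod t₁ ht₁)).resolve_left h1'
  have e2 : φ₁ t₂ = 0 := (mul_eq_zero.mp (hprod t₂ ht₂)).resolve_right h2'
  set h : ℝ → ℝ := fun t => ‖φ₁ t‖ - ‖φ₂ t‖ with hh
  have hc : ContinuousOn h (Ioo c d) := h1.norm.sub h2.norm
  have hpc : IsPreconnected (h '' Ioo c d) := isPreconnected_Ioo.image h hc
  have ha : 0 ≤ h t₁ := by simp [hh, e1]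
  have hb : h t₂ ≤ 0 := by simp [hh, e2]
  obtain ⟨t, ht, ht0⟩ := hpc.Icc_subset (mem_image_of_mem h ht₂) (mem_image_of_mem h ht₁) ⟨hb, ha⟩
  have h3 : ‖φ₁ t‖ = ‖φ₂ t‖ := by
    have : ‖φ₁ t‖ - ‖φ₂ t‖ = 0 := ht0
    linarith
  rcases mul_eq_zero.mp (hprod t ht) with h4 | h4
  · refine hne t ht ⟨h4, ?_⟩
    rw [h4, norm_zero] at h3
    exact norm_eq_zero.mp h3.symm
  · refine hne t ht ⟨?_, h4⟩
    rw [h4, norm_zero] at h3
    exact norm_eq_zero.mp h3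

lemma volume_image_affine (l : ℝ) {c : ℝ} (hc : 0 < c) (S : Set ℝ) :
    volume ((fun τ => l + c * τ) '' S) = ENNReal.ofReal c * volume S := by
  have h1 : (fun y => l + c * y) '' S = (fun y => l + y) '' ((fun y => c * y) '' S) := by
    rw [image_image]
  rw [h1, image_add_left, measure_preimage_add]
  have h2 : (fun y => c * y) '' S = AffineMap.homothety (0 : ℝ) c '' S := by
    refine image_congr fun y _ => ?_
    simp [AffineMap.homothety_apply]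
  rw [h2, Measure.addHaar_image_homothety]
  simp [abs_of_pos hc]

lemma ev_continuousOn {n : ℕ} {s : Set ℝ} {b : ℝ → Fin n → ℂ} {μ : ℝ → ℂ}
    (hb : ContinuousOn b s) (hμ : ContinuousOn μ s) : ContinuousOn (fun t => ev (b t) (μ t)) s := by
  unfold ev
  refine (hμ.pow n).add ?_
  refine continuousOn_finsetSum _ fun i _ => ?_
  exact ((continuous_apply i).comp_continuousOn hb).mul (hμ.pow _)

/-- Rescaling of a coefficient vector. -/
noncomputable def resc {n : ℕ} (y : ℝ → Fin (n + 1) → ℂ) (l len A : ℝ) (τ : ℝ) :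
    Fin (n + 1) → ℂ :=
  fun i => y (l + len * τ) i * (((A ^ (n + 1 - (i : ℕ)))⁻¹ : ℝ) : ℂ)

lemma ut_resc {n : ℕ} (y : ℝ → Fin (n + 1) → ℂ) (l len A : ℝ) (κ : Fin (n + 1) × Bool) (τ : ℝ) :
    ut (resc y l len A) κ τ = (A ^ wt κ)⁻¹ * ut y κ (l + len * τ) := by
  unfold ut resc wt
  split_ifs
  · rw [Complex.re_mul_ofReal, mul_comm]
  · rw [Complex.im_mul_ofReal, mul_comm]

lemma ev_resc {n : ℕ} (y : ℝ → Fin (n + 1) → ℂ) (l len : ℝ) {A : ℝ} (hA : 0 < A) (τ : ℝ) (z : ℂ)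
    (hz : ev (y (l + len * τ)) z = 0) :
    ev (resc y l len A τ) (z * ((A⁻¹ : ℝ) : ℂ)) = 0 := by
  have hA' : (A : ℂ) ≠ 0 := by exact_mod_cast hA.ne'
  have h1 : ev (resc y l len A τ) (z * ((A⁻¹ : ℝ) : ℂ)) =
      ev (y (l + len * τ)) z * ((A : ℂ) ^ (n + 1))⁻¹ := by
    unfold ev resc
    rw [add_mul, Finset.sum_mul]
    congr 1
    · push_cast
      rw [mul_pow, inv_pow]
    · refine Finset.sum_congr rfl fun i _ => ?_
      push_cast
      rw [mul_pow, inv_pow]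
      have h2 : (A : ℂ) ^ (n + 1) = (A : ℂ) ^ (n + 1 - (i : ℕ)) * (A : ℂ) ^ (i : ℕ) := by
        rw [← pow_add]; congr 1; omega
      rw [h2, mul_inv]
      ring
  rw [h1, hz, zero_mul]

/-- The splitting on a good interval. -/
lemma good_factor {n : ℕ} {Λ : ℝ} (hΛ : 0 ≤ Λ) :
    ∃ ε : ℝ, 0 < ε ∧ ∃ Cs : ℝ, 0 ≤ Cs ∧ ∀ y : ℝ → Fin (n + 1) → ℂ, CL n Λ y (Icc 0 1) →
      (∀ t, y t (Fin.last n) = 0) → ∀ l len A : ℝ, 0 ≤ l → 0 < len → l + len ≤ 1 → 0 < A →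
      len ≤ A → (∀ t ∈ Icc l (l + len), ∀ κ, |ut y κ t| ≤ A ^ wt κ) →
      (∃ t ∈ Icc l (l + len), ∃ κ, |ut y κ t| = A ^ wt κ) →
      (∀ κ, ∀ t ∈ Icc l (l + len), ∀ t' ∈ Icc l (l + len),
        |ut y κ t - ut y κ t'| ≤ ε * A ^ wt κ) →
      ∀ (c d : ℝ) (lam : ℝ → ℂ), ContinuousOn lam (Ioo c d) →
      (∀ t ∈ Ioo c d, ev (y t) (lam t) = 0) →
      ∃ (m : ℕ) (b : ℝ → Fin m → ℂ), 1 ≤ m ∧ m ≤ n ∧ CL (m - 1) Cs b (Icc 0 1) ∧
        ContinuousOn (fun τ => lam (l + len * τ) * ((A⁻¹ : ℝ) : ℂ))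
          (Ioo (max 0 ((c - l) / len)) (min 1 ((d - l) / len))) ∧
        ∀ τ ∈ Ioo (max 0 ((c - l) / len)) (min 1 ((d - l) / len)),
          ev (b τ) (lam (l + len * τ) * ((A⁻¹ : ℝ) : ℂ)) = 0 := by
  classical
  have hs01 : UniqueDiffOn ℝ (Icc (0 : ℝ) 1) := uniqueDiffOn_Icc zero_lt_one
  obtain ⟨ε, hε, hsplit⟩ := split_uniform (n := n + 1) (by omega)
  obtain ⟨CI, hCI0, hCI⟩ := interp n Λ hΛ
  obtain ⟨Cs, hCs0, hCs⟩ := hsplit (2 * CI) (by positivity)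
  refine ⟨ε / 2, by positivity, Cs, hCs0, ?_⟩
  intro y hy hlast l len A hl hlen hl1 hA hlenA hbd hatt hosc c d lam hlam hroot
  have hmaps : ∀ τ ∈ Icc (0 : ℝ) 1, l + len * τ ∈ Icc l (l + len) := by
    intro τ hτ
    constructor
    · have := mul_nonneg hlen.le hτ.1; linarith
    · have : len * τ ≤ len * 1 := mul_le_mul_of_nonneg_left hτ.2 hlen.le
      linarith
  have hmaps01 : ∀ τ ∈ Icc (0 : ℝ) 1, l + len * τ ∈ Icc (0 : ℝ) 1 := fun τ hτ =>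
    ⟨hl.trans (hmaps τ hτ).1, (hmaps τ hτ).2.trans hl1⟩
  have hlen1 : len ≤ 1 := by linarith
  set y' := resc y l len A with hy'
  -- bounds for the rescaled functions
  have hb1 : ∀ κ, ∀ τ ∈ Icc (0 : ℝ) 1, |ut y' κ τ| ≤ 1 := by
    intro κ τ hτ
    rw [hy', ut_resc, abs_mul, abs_of_pos (by positivity : 0 < (A ^ wt κ)⁻¹), inv_mul_le_iff₀
      (by positivity), mul_one]
    exact hbd _ (hmaps τ hτ) κ
  have hLT : ∀ κ, LT n Λ (ut y' κ) (Icc 0 1) := by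
    intro κ
    have h1 : LT n (|len| ^ (n + 1) * Λ) (fun τ => ut y κ (l + len * τ)) (Icc 0 1) :=
      LT.affine hs01 hs01 hmaps01 hΛ (hy.ut κ).1
    have h2 := h1.smul hs01 (A ^ wt κ)⁻¹
    refine (h2.mono ?_).congr ?_
    · rw [abs_of_pos (by positivity : 0 < (A ^ wt κ)⁻¹), abs_of_pos hlen, inv_mul_le_iff₀
        (by positivity)]
      have h3 : len ^ (n + 1) ≤ A ^ wt κ := by
        calc len ^ (n + 1) ≤ len ^ wt κ := pow_le_pow_of_le_one hlen.le hlen1 (wt_le κ)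
          _ ≤ A ^ wt κ := pow_le_pow_left₀ hlen.le hlenA _
      exact mul_le_mul_of_nonneg_right h3 hΛ
    · intro τ _
      rw [hy', ut_resc]
      rfl
  have hCLu : ∀ κ, CL n CI (ut y' κ) (Icc 0 1) := fun κ => hCI _ (hLT κ) (hb1 κ)
  have hCLy : CL n (2 * CI) y' (Icc 0 1) := by
    refine CL.pi hs01 (by positivity) fun i => ?_
    refine CL.of_re_im hs01 ?_ ?_
    · exact (hCLu (i, true)).congr fun τ _ => by simp [ut]
    · exact (hCLu (i, false)).congr fun τ _ => by simp [ut]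
  -- a point in the compact set
  have hK : ∃ τ₀ ∈ Icc (0 : ℝ) 1, y' τ₀ ∈ Kset (n + 1) := by
    obtain ⟨t, ht, κ, hκ⟩ := hatt
    set τ₀ := (t - l) / len with hτ₀
    have hτ₀m : τ₀ ∈ Icc (0 : ℝ) 1 := by
      constructor
      · exact div_nonneg (by linarith [ht.1]) hlen.le
      · rw [hτ₀, div_le_one hlen]; linarith [ht.2]
    have hlt : l + len * τ₀ = t := by
      rw [hτ₀]; field_simp; ring
    refine ⟨τ₀, hτ₀m, ?_, ?_, ?_⟩
    · intro i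
      have h1 := hb1 (i, true) τ₀ hτ₀m
      have h2 := hb1 (i, false) τ₀ hτ₀m
      simp only [ut] at h1 h2
      exact ⟨by simpa using h1, by simpa using h2⟩
    · have h1 : |ut y' κ τ₀| = 1 := by
        rw [hy', ut_resc, hlt, abs_mul, hκ, abs_of_pos (by positivity : 0 < (A ^ wt κ)⁻¹)]
        exact inv_mul_cancel₀ (by positivity)
      refine ⟨κ.1, ?_⟩
      rcases κ with ⟨i, b⟩
      cases b
      · right; simpa [ut] using h1
      · left; simpa [ut] using h1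
    · intro i hi
      have : i = Fin.last n := by
        refine Fin.ext ?_
        rw [Fin.val_last]; omega
      rw [hy', this]
      unfold resc
      rw [hlast, zero_mul]
  have hosc' : ∀ τ ∈ Icc (0 : ℝ) 1, ∀ τ' ∈ Icc (0 : ℝ) 1, ‖y' τ - y' τ'‖ ≤ ε := by
    intro τ hτ τ' hτ'
    rw [pi_norm_le_iff_of_nonneg hε.le]
    intro i
    have key : ∀ κ, |ut y' κ τ - ut y' κ τ'| ≤ ε / 2 := by
      intro κ
      rw [hy', ut_resc, ut_resc, ← mul_sub, abs_mul,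
        abs_of_pos (by positivity : 0 < (A ^ wt κ)⁻¹), inv_mul_le_iff₀ (by positivity)]
      exact (hosc κ _ (hmaps τ hτ) _ (hmaps τ' hτ')).trans (le_of_eq (mul_comm _ _))
    have h1 := key (i, true)
    have h2 := key (i, false)
    have e1 : ut y' (i, true) τ - ut y' (i, true) τ' = ((y' τ - y' τ') i).re := by simp [ut]
    have e2 : ut y' (i, false) τ - ut y' (i, false) τ' = ((y' τ - y' τ') i).im := by simp [ut]
    rw [e1] at h1
    rw [e2] at h2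
    calc ‖(y' τ - y' τ') i‖ ≤ |((y' τ - y' τ') i).re| + |((y' τ - y' τ') i).im| :=
          Complex.norm_le_abs_re_add_abs_im _
      _ ≤ ε := by linarith
  obtain ⟨m, k, b, cc, hm, hk, hmk, hb, hcc, hprop⟩ := hCs y' hCLy hK hosc'
  -- the rescaled root
  set c' : ℝ := max 0 ((c - l) / len) with hc'
  set d' : ℝ := min 1 ((d - l) / len) with hd'
  have hJ01 : ∀ τ ∈ Ioo c' d', τ ∈ Icc (0 : ℝ) 1 := fun τ hτ =>
    ⟨(le_max_left _ _).trans hτ.1.le, hτ.2.le.trans (min_le_left _ _)⟩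
  have hJcd : ∀ τ ∈ Ioo c' d', l + len * τ ∈ Ioo c d := by
    intro τ hτ
    have h1 : (c - l) / len < τ := (le_max_right _ _).trans_lt hτ.1
    have h2 : τ < (d - l) / len := hτ.2.trans_le (min_le_right _ _)
    rw [div_lt_iff₀ hlen] at h1
    rw [lt_div_iff₀ hlen] at h2
    constructor <;> nlinarith
  set μ : ℝ → ℂ := fun τ => lam (l + len * τ) * ((A⁻¹ : ℝ) : ℂ) with hμ
  have hμc : ContinuousOn μ (Ioo c' d') := by
    refine ContinuousOn.mul ?_ continuousOn_const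
    exact hlam.comp (by fun_prop) hJcd
  have hev : ∀ τ ∈ Ioo c' d', ev (y' τ) (μ τ) = 0 := by
    intro τ hτ
    exact ev_resc y l len hA τ _ (hroot _ (hJcd τ hτ))
  have hbc : ContinuousOn b (Ioo c' d') := hb.continuousOn.mono fun τ hτ => hJ01 τ hτ
  have hccc : ContinuousOn cc (Ioo c' d') := hcc.continuousOn.mono fun τ hτ => hJ01 τ hτ
  have hone := one_factor (ev_continuousOn hbc hμc) (ev_continuousOn hccc hμc)
    (fun τ hτ => by
      rw [← (hprop τ (hJ01 τ hτ) (μ τ)).1]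
      exact hev τ hτ)
    (fun τ hτ => (hprop τ (hJ01 τ hτ) (μ τ)).2)
  rcases hone with h | h
  · exact ⟨m, b, hm, by omega, hb.lower hs01 (convex_Icc 0 1) (by omega), hμc, h⟩
  · exact ⟨k, cc, hk, by omega, hcc.lower hs01 (convex_Icc 0 1) (by omega), hμc, h⟩

/-- The estimate on a good interval. -/
lemma good_bound {n : ℕ} (hn : 1 ≤ n) (IH : ∀ m, 1 ≤ m → m ≤ n → SS m) {Λ : ℝ} (hΛ : 0 ≤ Λ) :
    ∃ ε : ℝ, 0 < ε ∧ ∃ C : ℝ, 0 ≤ C ∧ ∀ y : ℝ → Fin (n + 1) → ℂ, CL n Λ y (Icc 0 1) →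
      (∀ t, y t (Fin.last n) = 0) → ∀ l len A : ℝ, 0 ≤ l → 0 < len → l + len ≤ 1 → 0 < A →
      len ≤ A → (∀ t ∈ Icc l (l + len), ∀ κ, |ut y κ t| ≤ A ^ wt κ) →
      (∃ t ∈ Icc l (l + len), ∃ κ, |ut y κ t| = A ^ wt κ) →
      (∀ κ, ∀ t ∈ Icc l (l + len), ∀ t' ∈ Icc l (l + len),
        |ut y κ t - ut y κ t'| ≤ ε * A ^ wt κ) →
      ∀ (c d : ℝ) (lam : ℝ → ℂ), ContinuousOn lam (Ioo c d) →
      (∀ t ∈ Ioo c d, ev (y t) (lam t) = 0) → ∀ σ : ℝ, 0 < σ →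
      volume {t | t ∈ Ioo c d ∧ t ∈ Ioo l (l + len) ∧ σ < ‖deriv lam t‖} ≤
        ENNReal.ofReal len *
          ENNReal.ofReal (C * (σ * len / A) ^ (-((2 * (n : ℝ) + 1) / (2 * n - 1)))) := by
  classical
  set q : ℝ := (2 * (n : ℝ) + 1) / (2 * n - 1) with hq
  have hn1 : (1 : ℝ) ≤ n := by exact_mod_cast hn
  have hq0 : 0 < q := by
    rw [hq]
    apply div_pos <;> linarith
  have hqm : ∀ m : ℕ, 1 ≤ m → m ≤ n → (m = 1 ∨ q ≤ m / (m - 1)) := by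
    intro m hm1 hmn
    rcases Nat.eq_or_lt_of_le hm1 with h | h
    · exact Or.inl h.symm
    · right
      have h1 : (2 : ℝ) ≤ m := by exact_mod_cast h
      have h2 : (m : ℝ) ≤ n := by exact_mod_cast hmn
      rw [hq, div_le_div_iff₀ (by linarith) (by linarith)]
      nlinarith
  obtain ⟨ε, hε, Cs, hCs0, hfac⟩ := good_factor (n := n) hΛ
  -- constants of the lower degrees
  have hlow : ∀ m : ℕ, ∃ C : ℝ, 0 ≤ C ∧ (1 ≤ m → m ≤ n → ∀ a : ℝ → Fin m → ℂ,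
      CL (m - 1) Cs a (Icc 0 1) → ∀ c d : ℝ, 0 ≤ c → d ≤ 1 →
      ∀ lam : ℝ → ℂ, ContinuousOn lam (Ioo c d) → (∀ t ∈ Ioo c d, ev (a t) (lam t) = 0) →
      ∀ σ : ℝ, 0 < σ →
        volume {t | t ∈ Ioo c d ∧ σ < ‖deriv lam t‖} ≤ ENNReal.ofReal (C * σ ^ (-q))) := by
    intro m
    by_cases h : 1 ≤ m ∧ m ≤ n
    · obtain ⟨C, hC0, hC⟩ := IH m h.1 h.2 Cs q hCs0 hq0 (hqm m h.1 h.2)
      exact ⟨C, hC0, fun _ _ => hC⟩
    · exact ⟨0, le_rfl, fun h1 h2 => absurd ⟨h1, h2⟩ h⟩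
  choose Cm hCm0 hCm using hlow
  refine ⟨ε, hε, ∑ m ∈ Finset.range (n + 1), Cm m,
    Finset.sum_nonneg fun m _ => hCm0 m, ?_⟩
  intro y hy hlast l len A hl hlen hl1 hA hlenA hbd hatt hosc c d lam hlam hroot σ hσ
  obtain ⟨m, b, hm, hmn, hb, hμc, hμr⟩ := hfac y hy hlast l len A hl hlen hl1 hA hlenA hbd hatt
    hosc c d lam hlam hroot
  set c' : ℝ := max 0 ((c - l) / len) with hc'
  set d' : ℝ := min 1 ((d - l) / len) with hd'
  set μ : ℝ → ℂ := fun τ => lam (l + len * τ) * ((A⁻¹ : ℝ) : ℂ) with hμ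
  -- derivative of the rescaled root
  have hderiv : ∀ τ, deriv μ τ = (len : ℂ) * deriv lam (l + len * τ) * ((A⁻¹ : ℝ) : ℂ) := by
    intro τ
    rw [hμ, deriv_mul_const_field]
    congr 1
    have h1 : deriv (fun τ => lam (l + len * τ)) τ = len • deriv (fun s => lam (l + s)) (len * τ) :=
      deriv_comp_mul_left len (fun s => lam (l + s)) τ
    rw [h1, deriv_comp_const_add]
    simp
  set σ' : ℝ := σ * len / A with hσ'
  have hσ'0 : 0 < σ' := by positivity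
  have hbound : volume {τ | τ ∈ Ioo c' d' ∧ σ' < ‖deriv μ τ‖} ≤
      ENNReal.ofReal ((∑ m ∈ Finset.range (n + 1), Cm m) * σ' ^ (-q)) := by
    have hfin : Cm m ≤ ∑ m ∈ Finset.range (n + 1), Cm m :=
      Finset.single_le_sum (fun m _ => hCm0 m) (Finset.mem_range.mpr (by omega))
    have hpow : 0 ≤ σ' ^ (-q) := by positivity
    have h1 := hCm m hm hmn b hb c' d' (le_max_left _ _) (min_le_left _ _) μ hμc hμr σ' hσ'0
    refine h1.trans (ENNReal.ofReal_le_ofReal ?_)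
    exact mul_le_mul_of_nonneg_right hfin hpow
  have himage : {t | t ∈ Ioo c d ∧ t ∈ Ioo l (l + len) ∧ σ < ‖deriv lam t‖} ⊆
      (fun τ => l + len * τ) '' {τ | τ ∈ Ioo c' d' ∧ σ' < ‖deriv μ τ‖} := by
    rintro t ⟨ht1, ht2, ht3⟩
    refine ⟨(t - l) / len, ⟨⟨?_, ?_⟩, ?_⟩, ?_⟩
    · refine max_lt (div_pos (by linarith [ht2.1]) hlen) ?_
      exact div_lt_div_of_pos_right (by linarith [ht1.1]) hlen
    · refine lt_min ?_ ?_
      · rw [div_lt_one hlen]; linarith [ht2.2]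
      · exact div_lt_div_of_pos_right (by linarith [ht1.2]) hlen
    · have e1 : l + len * ((t - l) / len) = t := by field_simp; ring
      rw [hderiv, e1, norm_mul, norm_mul, Complex.norm_real, Complex.norm_real, Real.norm_eq_abs,
        Real.norm_eq_abs, abs_of_pos hlen, abs_of_pos (inv_pos.mpr hA), hσ']
      have : σ * len < len * ‖deriv lam t‖ := by nlinarith
      rw [div_eq_mul_inv]
      exact mul_lt_mul_of_pos_right this (inv_pos.mpr hA)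
    · simp only
      field_simp
      ring
  calc volume {t | t ∈ Ioo c d ∧ t ∈ Ioo l (l + len) ∧ σ < ‖deriv lam t‖}
      ≤ _ := measure_mono himage
    _ = ENNReal.ofReal len * volume {τ | τ ∈ Ioo c' d' ∧ σ' < ‖deriv μ τ‖} :=
        volume_image_affine l hlen _
    _ ≤ _ := by gcongr

end Pool.Agent.WeakRoots
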