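import Pool.Agent.WeakRoots.Basic

set_option autoImplicit false

open Set MeasureTheory

namespace Pool.Agent.WeakRoots

section affine

variable {F : Type} [NormedAddCommGroup F] [NormedSpace ℝ F] {s t : Set ℝ}

lemma CL.smul (hs : UniqueDiffOn ℝ s) (c : ℝ) {k : ℕ} {M : ℝ} {f : ℝ → F} (h : CL k M f s) :
    CL k (|c| * M) (fun x => c • f x) s := by
  have := h.clm hs (c • ContinuousLinearMap.id ℝ F) (C := |c|) (by
    rw [norm_smul, Real.norm_eq_abs]
    have := ContinuousLinearMap.norm_id_le (𝕜 := ℝ) (E := F)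
    nlinarith [abs_nonneg c])
  simpa using this

lemma LT.smul (hs : UniqueDiffOn ℝ s) (c : ℝ) {k : ℕ} {L : ℝ} {f : ℝ → F} (h : LT k L f s) :
    LT k (|c| * L) (fun x => c • f x) s := by
  have := h.clm hs (c • ContinuousLinearMap.id ℝ F) (C := |c|) (by
    rw [norm_smul, Real.norm_eq_abs]
    have := ContinuousLinearMap.norm_id_le (𝕜 := ℝ) (E := F)
    nlinarith [abs_nonneg c])
  simpa using this

lemma hasDeriv_affine {f f' : ℝ → F} {l c : ℝ} (hts : ∀ x ∈ t, l + c * x ∈ s) {x : ℝ}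
    (h : HasDerivWithinAt f (f' (l + c * x)) s (l + c * x)) :
    HasDerivWithinAt (fun y => f (l + c * y)) (c • f' (l + c * x)) t x := by
  have h1 : HasDerivWithinAt (fun y => l + c * y) c t x := by
    have := ((hasDerivWithinAt_id x t).const_mul c).const_add l
    simpa using this
  exact HasDerivWithinAt.scomp x h h1 hts

lemma LT.affine (hs : UniqueDiffOn ℝ s) (ht : UniqueDiffOn ℝ t) {l c : ℝ}
    (hts : ∀ x ∈ t, l + c * x ∈ s) : ∀ {k : ℕ} {L : ℝ} {f : ℝ → F}, 0 ≤ L → LT k L f s →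
      LT k (|c| ^ (k + 1) * L) (fun x => f (l + c * x)) t := by
  intro k
  induction k with
  | zero =>
    intro L f hL h
    rw [LT_zero] at h ⊢
    intro x hx y hy
    refine (h _ (hts x hx) _ (hts y hy)).trans ?_
    have : l + c * x - (l + c * y) = c * (x - y) := by ring
    rw [this, abs_mul]
    apply le_of_eq
    ring
  | succ k ih =>
    intro L f hL h
    refine LT_succ_of_hasDeriv ht (f' := fun x => c • derivWithin f s (l + c * x)) ?_ ?_
    · intro x hx
      exact hasDeriv_affine hts (h.hasDeriv hs (hts x hx))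
    · have := (ih hL (h.deriv hs)).smul ht c
      refine this.mono (le_of_eq ?_)
      ring

lemma CL.affine (hs : UniqueDiffOn ℝ s) (ht : UniqueDiffOn ℝ t) {l c : ℝ} (hc : |c| ≤ 1)
    (hts : ∀ x ∈ t, l + c * x ∈ s) : ∀ {k : ℕ} {M : ℝ} {f : ℝ → F}, 0 ≤ M → CL k M f s →
      CL k M (fun x => f (l + c * x)) t := by
  intro k
  induction k with
  | zero =>
    intro M f hM h
    rw [CL_zero] at h ⊢
    refine ⟨?_, fun x hx => h.2 _ (hts x hx)⟩
    intro x hx y hy
    refine (h.1 _ (hts x hx) _ (hts y hy)).trans ?_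
    have : l + c * x - (l + c * y) = c * (x - y) := by ring
    rw [this, abs_mul]
    gcongr
    nlinarith [abs_nonneg (x - y)]
  | succ k ih =>
    intro M f hM h
    refine CL_succ_of_hasDeriv ht (f' := fun x => c • derivWithin f s (l + c * x)) ?_ ?_ ?_
    · intro x hx
      exact hasDeriv_affine hts (h.hasDeriv hs (hts x hx))
    · intro x hx
      exact h.norm_le (hts x hx)
    · have := (ih hM (h.deriv hs)).smul ht c
      refine this.mono ?_
      nlinarith [abs_nonneg c]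

end affine

/-- A bounded function on an interval has somewhere a small `k`-th derivative. -/
lemma small_point (k : ℕ) : ∃ D : ℝ, 0 ≤ D ∧ ∀ (g : ℕ → ℝ → ℝ),
    (∀ i < k, ∀ x ∈ Icc (0 : ℝ) 1, HasDerivWithinAt (g i) (g (i + 1) x) (Icc 0 1) x) →
    ∀ a b : ℝ, 0 ≤ a → a < b → b ≤ 1 → (∀ x ∈ Icc a b, |g 0 x| ≤ 1) →
      ∃ ξ ∈ Icc a b, |g k ξ| ≤ D / (b - a) ^ k := by
  induction k with
  | zero =>
    refine ⟨1, zero_le_one, ?_⟩
    intro g _ a b _ hab _ hg
    exact ⟨a, ⟨le_rfl, hab.le⟩, by simpa using hg a ⟨le_rfl, hab.le⟩⟩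
  | succ k ih =>
    obtain ⟨D, hD0, hD⟩ := ih
    refine ⟨2 * 3 ^ (k + 1) * D, by positivity, ?_⟩
    intro g hg a b ha hab hb h0
    have hg' : ∀ i < k, ∀ x ∈ Icc (0 : ℝ) 1, HasDerivWithinAt (g i) (g (i + 1) x) (Icc 0 1) x :=
      fun i hi => hg i (by omega)
    set ℓ := b - a with hℓ
    have hℓpos : 0 < ℓ := by rw [hℓ]; linarith
    obtain ⟨ξ₁, hξ₁, h1⟩ := hD g hg' a (a + ℓ / 3) ha (by linarith) (by linarith)
      (fun x hx => h0 x ⟨hx.1, by linarith [hx.2]⟩)
    obtain ⟨ξ₂, hξ₂, h2⟩ := hD g hg' (b - ℓ / 3) b (by linarith) (by linarith) hb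
      (fun x hx => h0 x ⟨by linarith [hx.1], hx.2⟩)
    have e1 : a + ℓ / 3 - a = ℓ / 3 := by ring
    have e2 : b - (b - ℓ / 3) = ℓ / 3 := by ring
    rw [e1] at h1
    rw [e2] at h2
    have hsep : ℓ / 3 ≤ ξ₂ - ξ₁ := by
      have := hξ₁.2
      have := hξ₂.1
      linarith
    have hlt : ξ₁ < ξ₂ := by linarith
    have hcont : ContinuousOn (g k) (Icc ξ₁ ξ₂) := by
      intro x hx
      have hx' : x ∈ Icc (0 : ℝ) 1 := ⟨by linarith [hx.1, hξ₁.1], by linarith [hx.2, hξ₂.2]⟩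
      exact ((hg k (by omega) x hx').continuousWithinAt).mono
        (Icc_subset_Icc (by linarith [hξ₁.1]) (by linarith [hξ₂.2]))
    obtain ⟨ξ, hξ, hξe⟩ := exists_hasDerivAt_eq_slope (g k) (g (k + 1)) hlt hcont (by
      intro x hx
      have hx' : x ∈ Icc (0 : ℝ) 1 := ⟨by linarith [hx.1, hξ₁.1], by linarith [hx.2, hξ₂.2]⟩
      exact (hg k (by omega) x hx').hasDerivAt
        (Icc_mem_nhds (by linarith [hx.1, hξ₁.1]) (by linarith [hx.2, hξ₂.2])))
    refine ⟨ξ, ⟨by linarith [hξ.1, hξ₁.1], by linarith [hξ.2, hξ₂.2]⟩, ?_⟩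
    rw [hξe, abs_div, abs_of_pos (show 0 < ξ₂ - ξ₁ by linarith)]
    have hnum : |g k ξ₂ - g k ξ₁| ≤ 2 * (D / (ℓ / 3) ^ k) := by
      calc |g k ξ₂ - g k ξ₁| ≤ |g k ξ₂| + |g k ξ₁| := abs_sub _ _
        _ ≤ 2 * (D / (ℓ / 3) ^ k) := by linarith
    calc |g k ξ₂ - g k ξ₁| / (ξ₂ - ξ₁) ≤ 2 * (D / (ℓ / 3) ^ k) / (ℓ / 3) := by
          gcongr
      _ = 2 * 3 ^ (k + 1) * D / ℓ ^ (k + 1) := by
          rw [div_pow]
          field_simp
          ring

/-- Interpolation: a bound of the function and of the top Lipschitz constant bound everything. -/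
lemma interp (k : ℕ) : ∀ Λ : ℝ, 0 ≤ Λ → ∃ C : ℝ, 0 ≤ C ∧ ∀ u : ℝ → ℝ,
    LT k Λ u (Icc 0 1) → (∀ x ∈ Icc (0 : ℝ) 1, |u x| ≤ 1) → CL k C u (Icc 0 1) := by
  have hs : UniqueDiffOn ℝ (Icc (0 : ℝ) 1) := uniqueDiffOn_Icc zero_lt_one
  have hc : Convex ℝ (Icc (0 : ℝ) 1) := convex_Icc 0 1
  induction k with
  | zero =>
    intro Λ hΛ
    refine ⟨max 1 Λ, le_max_of_le_left zero_le_one, ?_⟩
    intro u hu h0
    rw [CL_zero]
    rw [LT_zero] at hu
    refine ⟨fun x hx y hy => (hu x hx y hy).trans ?_, fun x hx => (h0 x hx).trans (le_max_left _ _)⟩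
    gcongr
    exact le_max_right _ _
  | succ k ih =>
    intro Λ hΛ
    obtain ⟨D, hD0, hD⟩ := small_point (k + 1)
    obtain ⟨C', hC'0, hC'⟩ := ih (D + Λ) (by positivity)
    refine ⟨max C' (D + Λ), le_max_of_le_left hC'0, ?_⟩
    intro u hu h0
    have hder : ∀ i < k + 1, ∀ x ∈ Icc (0 : ℝ) 1,
        HasDerivWithinAt (iteratedDerivWithin i u (Icc 0 1))
          (iteratedDerivWithin (i + 1) u (Icc 0 1) x) (Icc 0 1) x := by
      intro i hi x hx
      have h1 : DifferentiableWithinAt ℝ (iteratedDerivWithin i u (Icc 0 1)) (Icc 0 1) x :=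
        hu.1.differentiableOn_iteratedDerivWithin (by exact_mod_cast hi) hs x hx
      rw [iteratedDerivWithin_succ]
      exact h1.hasDerivWithinAt
    obtain ⟨ξ, hξ, hξb⟩ := hD (fun i => iteratedDerivWithin i u (Icc 0 1)) hder 0 1 le_rfl
      zero_lt_one le_rfl (by simpa using h0)
    simp only [sub_zero, one_pow, div_one] at hξb
    have htop : ∀ x ∈ Icc (0 : ℝ) 1, ‖iteratedDerivWithin (k + 1) u (Icc 0 1) x‖ ≤ D + Λ := by
      intro x hx
      have h1 := hu.2 x hx ξ hξ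
      have h2 : |x - ξ| ≤ 1 := by
        rw [abs_le]
        constructor <;> linarith [hx.1, hx.2, hξ.1, hξ.2]
      have h3 : ‖iteratedDerivWithin (k + 1) u (Icc 0 1) x‖ ≤
          ‖iteratedDerivWithin (k + 1) u (Icc 0 1) ξ‖ +
          ‖iteratedDerivWithin (k + 1) u (Icc 0 1) x - iteratedDerivWithin (k + 1) u (Icc 0 1) ξ‖ := by
        have := norm_add_le (iteratedDerivWithin (k + 1) u (Icc 0 1) ξ)
          (iteratedDerivWithin (k + 1) u (Icc 0 1) x - iteratedDerivWithin (k + 1) u (Icc 0 1) ξ)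
        simpa using this
      have h4 : Λ * |x - ξ| ≤ Λ * 1 := by gcongr
      have h5 : ‖iteratedDerivWithin (k + 1) u (Icc 0 1) ξ‖ ≤ D := hξb
      linarith
    have hLT : LT k (D + Λ) u (Icc 0 1) := by
      refine ⟨hu.1.of_le (by norm_cast; omega), ?_⟩
      exact lip_of_deriv_bound hc (fun x hx => hder k (by omega) x hx) htop
    have hCL := hC' u hLT h0
    refine ⟨hu.mono ((le_add_of_nonneg_left hD0).trans (le_max_right _ _)), ?_⟩
    intro i hi x hx
    rcases Nat.lt_or_ge i (k + 1) with h | h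
    · exact (hCL.2 i (by omega) x hx).trans (le_max_left _ _)
    · have : i = k + 1 := by omega
      subst this
      exact (htop x hx).trans (le_max_right _ _)

end Pool.Agent.WeakRoots
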