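import Pool.Agent.WeakRoots.Dyadic

set_option autoImplicit false

open Set MeasureTheory Topology
open scoped ENNReal

namespace Pool.Agent.WeakRoots

/-- Zeros with nonzero derivative are countable. -/
lemma countable_zero_deriv_ne (f : ℝ → ℂ) : {t | f t = 0 ∧ deriv f t ≠ 0}.Countable := by
  set S : Set ℝ := {t | f t = 0 ∧ deriv f t ≠ 0} with hS
  have hex : ∀ t : ℝ, ∃ y : ℝ, t ∈ S → t < y ∧ ∀ z ∈ Ioo t y, f z ≠ 0 := by
    intro t
    by_cases ht : t ∈ S
    · have hd : DifferentiableAt ℝ f t := by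
        by_contra hcon
        exact ht.2 (deriv_zero_of_not_differentiableAt hcon)
      have h2 : ∀ᶠ z in 𝓝[≠] t, f z ≠ 0 := hd.hasDerivAt.eventually_ne ht.2
      have h3 : ∀ᶠ z in 𝓝[>] t, f z ≠ 0 :=
        nhdsWithin_mono t (fun z hz => ne_of_gt hz) h2
      obtain ⟨y, hy1, hy2⟩ := mem_nhdsGT_iff_exists_Ioo_subset.mp h3
      exact ⟨y, fun _ => ⟨hy1, fun z hz => hy2 hz⟩⟩
    · exact ⟨0, fun h => absurd h ht⟩
  choose y hy using hex
  refine Set.PairwiseDisjoint.countable_of_Ioo (y := y) ?_ (fun t ht => (hy t ht).1)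
  have key : ∀ t ∈ S, ∀ t' ∈ S, t < t' → Disjoint (Ioo t (y t)) (Ioo t' (y t')) := by
    intro t ht t' ht' hlt
    rw [Set.disjoint_left]
    intro z hz hz'
    exact (hy t ht).2 t' ⟨hlt, hz'.1.trans hz.2⟩ ht'.1
  intro t ht t' ht' hne
  rcases lt_or_gt_of_ne hne with h | h
  · exact key t ht t' ht' h
  · exact (key t' ht' t ht h).symm

/-- The layer cake estimate. -/
lemma layer {F : Set (ℕ × ℕ)} {m : ℕ × ℕ → ℝ} (hm : ∀ Q ∈ F, 0 < m Q) {v : ℕ × ℕ → ℝ≥0∞}
    {p q CN C : ℝ} (hq : 0 ≤ q) (hpq : p < q) (hCN : 0 ≤ CN)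
    (hN : ∀ τ : ℝ, 0 < τ → ∑' Q, {Q ∈ F | τ < m Q}.indicator v Q ≤ ENNReal.ofReal (CN * τ ^ (-p)))
    {σ : ℝ} (hσ : 0 < σ) :
    ∑' Q, F.indicator (fun Q => v Q * min 1 (ENNReal.ofReal (C * (σ / m Q) ^ (-q)))) Q ≤
      ENNReal.ofReal (max 1 C * (CN * 2 ^ p * (1 - 2 ^ (p - q))⁻¹) * σ ^ (-p)) := by
  set C' : ℝ := max 1 C with hC'
  have hC'1 : 1 ≤ C' := le_max_left _ _
  have hC'0 : 0 ≤ C' := by linarith
  set r : ℝ := (1 / 2 : ℝ) ^ q with hr
  have hr0 : 0 < r := by positivity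
  have hq2 : ∀ l : ℕ, r ^ l = ((1 / 2 : ℝ) ^ l) ^ q := by
    intro l
    rw [hr, ← Real.rpow_natCast, ← Real.rpow_mul (by norm_num), mul_comm, Real.rpow_mul (by norm_num),
      Real.rpow_natCast]
  -- pointwise bound
  have hpt : ∀ Q, F.indicator (fun Q => v Q * min 1 (ENNReal.ofReal (C * (σ / m Q) ^ (-q)))) Q ≤
      ∑' l : ℕ, ENNReal.ofReal (C' * r ^ l) *
        {Q ∈ F | (1 / 2 : ℝ) ^ (l + 1) * σ < m Q}.indicator v Q := by
    intro Q
    by_cases hQ : Q ∈ F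
    · rw [indicator_of_mem hQ]
      have hmQ := hm Q hQ
      have hex : ∃ l : ℕ, (1 / 2 : ℝ) ^ (l + 1) * σ < m Q ∧
          min 1 (ENNReal.ofReal (C * (σ / m Q) ^ (-q))) ≤ ENNReal.ofReal (C' * r ^ l) := by
        rcases le_or_gt (m Q / σ) 1 with h | h
        · obtain ⟨l, hl1, hl2⟩ := exists_nat_pow_near_of_lt_one (div_pos hmQ hσ) h
            (by norm_num : (0 : ℝ) < 1 / 2) (by norm_num)
          refine ⟨l, (lt_div_iff₀ hσ).mp hl1, ?_⟩
          refine (min_le_right _ _).trans (ENNReal.ofReal_le_ofReal ?_)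
          have e1 : (σ / m Q) ^ (-q) = (m Q / σ) ^ q := by
            rw [Real.rpow_neg (by positivity), ← Real.inv_rpow (by positivity), inv_div]
          rw [e1]
          have : (m Q / σ) ^ q ≤ r ^ l := by
            rw [hq2]
            exact Real.rpow_le_rpow (by positivity) hl2 hq
          exact mul_le_mul (le_max_right _ _) this (by positivity) hC'0
        · refine ⟨0, ?_, ?_⟩
          · rw [lt_div_iff₀ hσ] at h
            linarith
          · refine (min_le_left _ _).trans ?_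
            rw [pow_zero, mul_one, ENNReal.one_le_ofReal]
            exact hC'1
      obtain ⟨l, hl1, hl2⟩ := hex
      refine le_trans ?_ (ENNReal.le_tsum l)
      have hmem : Q ∈ {Q ∈ F | (1 / 2 : ℝ) ^ (l + 1) * σ < m Q} := ⟨hQ, hl1⟩
      rw [indicator_of_mem hmem, mul_comm]
      gcongr
    · rw [indicator_of_notMem hQ]
      exact bot_le
  have h2p : (0 : ℝ) < 2 ^ p := by positivity
  set ρ : ℝ := 2 ^ (p - q) with hρ
  have hρ0 : 0 < ρ := by positivity
  have hρ1 : ρ < 1 := Real.rpow_lt_one_of_one_lt_of_neg (by norm_num) (by linarith)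
  have hterm : ∀ l : ℕ, ENNReal.ofReal (C' * r ^ l) *
      ∑' Q, {Q ∈ F | (1 / 2 : ℝ) ^ (l + 1) * σ < m Q}.indicator v Q ≤
      ENNReal.ofReal (C' * (CN * 2 ^ p) * σ ^ (-p) * ρ ^ l) := by
    intro l
    have h1 := hN ((1 / 2 : ℝ) ^ (l + 1) * σ) (by positivity)
    calc ENNReal.ofReal (C' * r ^ l) *
        ∑' Q, {Q ∈ F | (1 / 2 : ℝ) ^ (l + 1) * σ < m Q}.indicator v Q
        ≤ ENNReal.ofReal (C' * r ^ l) *
          ENNReal.ofReal (CN * ((1 / 2 : ℝ) ^ (l + 1) * σ) ^ (-p)) := by gcongr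
      _ = ENNReal.ofReal (C' * r ^ l * (CN * ((1 / 2 : ℝ) ^ (l + 1) * σ) ^ (-p))) := by
          rw [← ENNReal.ofReal_mul (by positivity)]
      _ = ENNReal.ofReal (C' * (CN * 2 ^ p) * σ ^ (-p) * ρ ^ l) := by
          congr 1
          have e1 : ((1 / 2 : ℝ) ^ (l + 1) * σ) ^ (-p) = (2 ^ p) ^ (l + 1) * σ ^ (-p) := by
            rw [Real.mul_rpow (by positivity) hσ.le]
            congr 1
            rw [one_div, inv_pow, Real.inv_rpow (by positivity), ← Real.rpow_neg (by positivity),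
              neg_neg, ← Real.rpow_natCast, ← Real.rpow_mul (by norm_num), mul_comm,
              Real.rpow_mul (by norm_num), Real.rpow_natCast]
          have e2 : ρ ^ l = (2 ^ p) ^ l * r ^ l := by
            rw [← mul_pow]
            congr 1
            rw [hρ, hr, Real.rpow_sub (by norm_num), one_div, Real.inv_rpow (by norm_num)]
            rfl
          rw [e1, e2, pow_succ]
          ring
  calc ∑' Q, F.indicator (fun Q => v Q * min 1 (ENNReal.ofReal (C * (σ / m Q) ^ (-q)))) Q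
      ≤ ∑' Q, ∑' l : ℕ, ENNReal.ofReal (C' * r ^ l) *
        {Q ∈ F | (1 / 2 : ℝ) ^ (l + 1) * σ < m Q}.indicator v Q := ENNReal.tsum_le_tsum hpt
    _ = ∑' l : ℕ, ∑' Q, ENNReal.ofReal (C' * r ^ l) *
        {Q ∈ F | (1 / 2 : ℝ) ^ (l + 1) * σ < m Q}.indicator v Q := ENNReal.tsum_comm
    _ = ∑' l : ℕ, ENNReal.ofReal (C' * r ^ l) *
        ∑' Q, {Q ∈ F | (1 / 2 : ℝ) ^ (l + 1) * σ < m Q}.indicator v Q := by
        congr 1
        funext l
        exact ENNReal.tsum_mul_left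
    _ ≤ ∑' l : ℕ, ENNReal.ofReal (C' * (CN * 2 ^ p) * σ ^ (-p) * ρ ^ l) :=
        ENNReal.tsum_le_tsum hterm
    _ = ENNReal.ofReal (∑' l : ℕ, C' * (CN * 2 ^ p) * σ ^ (-p) * ρ ^ l) := by
        rw [ENNReal.ofReal_tsum_of_nonneg]
        · intro l; positivity
        · exact (summable_geometric_of_lt_one hρ0.le hρ1).mul_left _
    _ = _ := by
        rw [tsum_mul_left, tsum_geometric_of_lt_one hρ0.le hρ1]
        congr 1
        ring

end Pool.Agent.WeakRoots
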