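import Pool.Agent.WeakRoots.Split

set_option autoImplicit false

open Set MeasureTheory Polynomial Topology

namespace Pool.Agent.WeakRoots

lemma CL.pi {ι : Type} [Fintype ι] {s : Set ℝ} (hs : UniqueDiffOn ℝ s) :
    ∀ {k : ℕ} {M : ℝ} {y : ℝ → ι → ℂ}, 0 ≤ M → (∀ i, CL k M (fun t => y t i) s) →
      CL k M y s := by
  intro k
  induction k with
  | zero =>
    intro M y hM h
    rw [CL_zero]
    constructor
    · intro x hx z hz
      rw [pi_norm_le_iff_of_nonneg (by positivity)]
      intro i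
      exact (CL_zero.mp (h i)).1 x hx z hz
    · intro x hx
      rw [pi_norm_le_iff_of_nonneg hM]
      intro i
      exact (CL_zero.mp (h i)).2 x hx
  | succ k ih =>
    intro M y hM h
    refine CL_succ_of_hasDeriv hs (f' := fun t i => derivWithin (fun t => y t i) s t) ?_ ?_
      (ih hM fun i => (h i).deriv hs)
    · intro x hx
      rw [hasDerivWithinAt_pi]
      exact fun i => (h i).hasDeriv hs hx
    · intro x hx
      rw [pi_norm_le_iff_of_nonneg hM]
      exact fun i => (h i).norm_le hx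

lemma CL.apply {ι : Type} [Fintype ι] {s : Set ℝ} (hs : UniqueDiffOn ℝ s)
    {k : ℕ} {M : ℝ} {y : ℝ → ι → ℂ} (h : CL k M y s) (i : ι) : CL k M (fun t => y t i) s := by
  classical
  have := h.clm hs (ContinuousLinearMap.proj (R := ℝ) (φ := fun _ : ι => ℂ) i) (C := 1) (by
    refine ContinuousLinearMap.opNorm_le_bound _ zero_le_one fun x => ?_
    rw [one_mul]
    exact norm_le_pi_norm x i)
  simpa using this

lemma CL.re {s : Set ℝ} (hs : UniqueDiffOn ℝ s) {k : ℕ} {M : ℝ} {f : ℝ → ℂ} (h : CL k M f s) :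
    CL k M (fun t => (f t).re) s := by
  have := h.clm hs Complex.reCLM (C := 1) (le_of_eq Complex.reCLM_norm)
  simpa using this

lemma CL.im {s : Set ℝ} (hs : UniqueDiffOn ℝ s) {k : ℕ} {M : ℝ} {f : ℝ → ℂ} (h : CL k M f s) :
    CL k M (fun t => (f t).im) s := by
  have := h.clm hs Complex.imCLM (C := 1) (le_of_eq Complex.imCLM_norm)
  simpa using this

lemma CL.of_re_im {s : Set ℝ} (hs : UniqueDiffOn ℝ s) {k : ℕ} {M : ℝ} {f : ℝ → ℂ}
    (h1 : CL k M (fun t => (f t).re) s) (h2 : CL k M (fun t => (f t).im) s) :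
    CL k (2 * M) f s := by
  have e1 := h1.clm hs Complex.ofRealCLM (C := 1) (le_of_eq Complex.ofRealCLM_norm)
  have e2 := h2.clm hs (Complex.I • Complex.ofRealCLM) (C := 1) (by
    rw [norm_smul, Complex.ofRealCLM_norm, Complex.norm_I, one_mul])
  have e3 := e1.add hs e2
  refine (e3.mono (by linarith)).congr ?_
  intro t _
  simp only [Complex.ofRealCLM_apply, _root_.smul_apply, smul_eq_mul]
  rw [mul_comm, Complex.re_add_im]

/-- The centring map on coefficient vectors. -/
noncomputable def tsch (n : ℕ) (x : Fin n → ℂ) (h : ℂ) : Fin n → ℂ :=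
  fun i => ∑ k ∈ Finset.range (n + 1), (mon x).coeff k * ((k.choose i : ℕ) : ℂ) * (-h) ^ (k - i)

lemma ev_tsch {n : ℕ} (x : Fin n → ℂ) (h z : ℂ) : ev (tsch n x h) (z + h) = ev x z := by
  have h1 : ev x z = ∑ k ∈ Finset.range (n + 1), (mon x).coeff k * z ^ k := by
    rw [← eval_mon, eval_eq_sum_range, mon_natDegree]
  have h2 : ∀ k ∈ Finset.range (n + 1), z ^ k =
      ∑ i ∈ Finset.range (n + 1), (z + h) ^ i * (-h) ^ (k - i) * (k.choose i : ℕ) := by
    intro k hk
    rw [Finset.mem_range] at hk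
    have : z ^ k = ((z + h) + (-h)) ^ k := by ring
    rw [this, add_pow]
    refine Finset.sum_subset ?_ ?_
    · intro i hi
      rw [Finset.mem_range] at hi ⊢
      omega
    · intro i _ hi
      rw [Finset.mem_range, not_lt] at hi
      rw [Nat.choose_eq_zero_of_lt (by omega)]
      simp
  have h3 : ev x z = ∑ i ∈ Finset.range (n + 1), (∑ k ∈ Finset.range (n + 1),
      (mon x).coeff k * ((k.choose i : ℕ) : ℂ) * (-h) ^ (k - i)) * (z + h) ^ i := by
    rw [h1]
    calc ∑ k ∈ Finset.range (n + 1), (mon x).coeff k * z ^ k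
        = ∑ k ∈ Finset.range (n + 1), ∑ i ∈ Finset.range (n + 1),
          (mon x).coeff k * ((k.choose i : ℕ) : ℂ) * (-h) ^ (k - i) * (z + h) ^ i := by
          refine Finset.sum_congr rfl fun k hk => ?_
          rw [h2 k hk, Finset.mul_sum]
          refine Finset.sum_congr rfl fun i _ => ?_
          ring
      _ = _ := by
          rw [Finset.sum_comm]
          refine Finset.sum_congr rfl fun i _ => ?_
          rw [Finset.sum_mul]
  rw [h3, Finset.sum_range_succ]
  unfold ev
  have h4 : ∑ k ∈ Finset.range (n + 1),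
      (mon x).coeff k * ((k.choose n : ℕ) : ℂ) * (-h) ^ (k - n) = 1 := by
    rw [Finset.sum_range_succ, Finset.sum_eq_zero]
    · have : (mon x).coeff n = 1 := by
        have := (mon_monic x).coeff_natDegree
        rwa [mon_natDegree] at this
      simp [this]
    · intro k hk
      rw [Finset.mem_range] at hk
      rw [Nat.choose_eq_zero_of_lt hk]
      simp
  rw [h4, one_mul, Finset.sum_range]
  exact add_comm _ _

lemma tsch_last {n : ℕ} (x : Fin n → ℂ) (i : Fin n) (hi : (i : ℕ) + 1 = n) :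
    tsch n x (x i / n) i = 0 := by
  unfold tsch
  have hn : n ≠ 0 := by omega
  have hnC : (n : ℂ) ≠ 0 := Nat.cast_ne_zero.mpr hn
  rw [Finset.sum_range_succ]
  have h1 : ∑ k ∈ Finset.range n, (mon x).coeff k * ((k.choose i : ℕ) : ℂ) *
      (-(x i / n)) ^ (k - i) = x i := by
    rw [Finset.sum_eq_single (i : ℕ)]
    · rw [mon_coeff_fin]; simp
    · intro k hk hki
      rw [Finset.mem_range] at hk
      rw [Nat.choose_eq_zero_of_lt (by omega)]
      simp
    · intro h
      exact absurd (Finset.mem_range.mpr i.2) h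
  have h2 : (mon x).coeff n = 1 := by
    have := (mon_monic x).coeff_natDegree
    rwa [mon_natDegree] at this
  have h3 : n - (i : ℕ) = 1 := by omega
  have h4 : n.choose i = n := by
    have h5 := Nat.choose_symm (n := n) (k := 1) (by omega)
    have h6 : (i : ℕ) = n - 1 := by omega
    rw [h6, h5, Nat.choose_one_right]
  rw [h1, h2, h3, h4]
  field_simp
  ring

/-- The combined centring map. -/
noncomputable def tmap (n : ℕ) (x : Fin (n + 1) → ℂ) : Fin (n + 1) → ℂ :=
  tsch (n + 1) x (x (Fin.last n) / ((n + 1 : ℕ) : ℂ))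

lemma contDiff_tmap (n : ℕ) (N : WithTop ℕ∞) : ContDiff ℝ N (tmap n) := by
  have h1 : ∀ (p : ℕ), ContDiff ℝ N (fun b : Fin (n + 1) → ℂ => (mon b).coeff p) := by
    intro p
    have : (fun b : Fin (n + 1) → ℂ => (mon b).coeff p) =
        fun b => (X ^ (n + 1) : ℂ[X]).coeff p + ∑ i : Fin (n + 1), b i * (if p = i then 1 else 0) := by
      funext b
      rw [mon_eq, coeff_add, lin_coeff]
    rw [this]
    refine contDiff_const.add (ContDiff.sum fun i _ => ?_)
    exact (contDiff_apply ℝ ℂ i).mul contDiff_const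
  rw [contDiff_pi]
  intro i
  unfold tmap tsch
  refine ContDiff.sum fun k _ => ?_
  refine ((h1 k).mul contDiff_const).mul ?_
  refine ContDiff.pow ?_ _
  exact ((contDiff_apply ℝ ℂ (Fin.last n)).div_const _).neg

/-- The centred coefficients. -/
lemma exists_centred (n : ℕ) (M : ℝ) (hM : 0 ≤ M) : ∃ Λ : ℝ, 0 ≤ Λ ∧
    ∀ a : ℝ → Fin (n + 1) → ℂ, CL n M a (Icc 0 1) →
      CL n Λ (fun t => tmap n (a t)) (Icc 0 1) ∧
      (∀ t, tmap n (a t) (Fin.last n) = 0) ∧
      (∀ t z, ev (a t) z = 0 → ev (tmap n (a t)) (z + a t (Fin.last n) / ((n + 1 : ℕ) : ℂ)) = 0) := by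
  have hs01 : UniqueDiffOn ℝ (Icc (0 : ℝ) 1) := uniqueDiffOn_Icc zero_lt_one
  obtain ⟨C, hC0, hC⟩ := CL.comp_smooth hs01 (convex_Icc 0 1) isOpen_univ
    (isCompact_closedBall (0 : Fin (n + 1) → ℂ) M) (convex_closedBall _ _) (subset_univ _) n
    (tmap n) (contDiff_tmap n _).contDiffOn M hM
  refine ⟨C, hC0, ?_⟩
  intro a ha
  refine ⟨hC a ha fun t ht => ?_, ?_, ?_⟩
  · rw [mem_closedBall_zero_iff]
    exact ha.norm_le ht
  · intro t
    exact tsch_last (a t) (Fin.last n) (by simp)
  · intro t z hz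
    unfold tmap
    rw [ev_tsch, hz]

end Pool.Agent.WeakRoots
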