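import Pool.Agent.WeakRoots.Layer
import Pool.Agent.WeakRoots.Tschirn

set_option autoImplicit false

open Set MeasureTheory Topology
open scoped ENNReal

namespace Pool.Agent.WeakRoots

lemma Anc.trans {Q J' J : ℕ × ℕ} (h : Anc Q J') (h' : Anc J' J) : Anc Q J := by
  obtain ⟨l, h1, h2⟩ := h'
  obtain ⟨l', h1', h2'⟩ := h
  refine ⟨l + l', by omega, ?_⟩
  rw [add_comm l l', pow_add, ← Nat.div_div_eq_div_mul, h2', h2]

lemma Anc.level_le {Q J : ℕ × ℕ} (h : Anc Q J) : J.1 ≤ Q.1 := by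
  obtain ⟨l, h1, -⟩ := h
  omega

lemma Anc.eq_of_level {Q J J' : ℕ × ℕ} (h : Anc Q J) (h' : Anc Q J') (hl : J.1 = J'.1) :
    J = J' := by
  obtain ⟨l, h1, h2⟩ := h
  obtain ⟨l', h1', h2'⟩ := h'
  have : l = l' := by omega
  subst this
  exact Prod.ext hl (h2.symm.trans h2')

/-- Maximal elements of a set of dyadic intervals. -/
def maxi (G : Set (ℕ × ℕ)) : Set (ℕ × ℕ) := {Q | Q ∈ G ∧ ∀ Q', Anc Q Q' → Q' ∈ G → Q' = Q}

lemma maxi_disj {G : Set (ℕ × ℕ)} {Q Q' : ℕ × ℕ} (hQ : Q ∈ maxi G) (hQ' : Q' ∈ maxi G)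
    (hne : Q ≠ Q') : dr Q ≤ dl Q' ∨ dr Q' ≤ dl Q := by
  rcases nested_or_disj Q Q' with h | h | h
  · exact absurd (hQ'.2 Q h hQ.1) hne
  · exact absurd (hQ.2 Q' h hQ'.1) hne.symm
  · exact h

lemma exists_maxi {G : Set (ℕ × ℕ)} {Q : ℕ × ℕ} (hQ : Q ∈ G) : ∃ Q' ∈ maxi G, Anc Q Q' := by
  classical
  have hex : ∃ l, ∃ Q', Q' ∈ G ∧ Anc Q Q' ∧ Q'.1 = l := ⟨Q.1, Q, hQ, Anc.refl Q, rfl⟩
  obtain ⟨Q', hG, hA, hl⟩ := Nat.find_spec hex
  refine ⟨Q', ⟨hG, ?_⟩, hA⟩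
  intro Q'' hA' hG'
  have h1 : Nat.find hex ≤ Q''.1 := Nat.find_min' hex ⟨Q'', hG', hA.trans hA', rfl⟩
  have h2 := hA'.level_le
  exact (hA.trans hA').eq_of_level hA (by omega)

lemma maxi_pairwise (G : Set (ℕ × ℕ)) :
    (maxi G).PairwiseDisjoint (fun Q => Ico (dl Q) (dr Q)) := by
  intro Q hQ Q' hQ' hne
  rw [Function.onFun, Set.disjoint_left]
  intro x hx hx'
  rcases maxi_disj hQ hQ' hne with h | h
  · linarith [hx.2, hx'.1]
  · linarith [hx.1, hx'.2]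

lemma volume_Ico_dy (Q : ℕ × ℕ) : volume (Ico (dl Q) (dr Q)) = ENNReal.ofReal (dlen Q) := by
  rw [Real.volume_Ico, dr_sub_dl]

lemma vol_union_le {G : Set (ℕ × ℕ)} {K : ℝ}
    (hK : ∀ T : Finset (ℕ × ℕ), (↑T ⊆ maxi G) → ∑ Q ∈ T, dlen Q ≤ K) :
    volume (⋃ Q ∈ G, Ico (dl Q) (dr Q)) ≤ ENNReal.ofReal K := by
  classical
  have h1 : (⋃ Q ∈ G, Ico (dl Q) (dr Q)) ⊆ ⋃ Q ∈ maxi G, Ico (dl Q) (dr Q) := by
    refine iUnion₂_subset fun Q hQ => ?_
    obtain ⟨Q', hQ', hA⟩ := exists_maxi hQ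
    intro x hx
    refine mem_iUnion₂.mpr ⟨Q', hQ', ?_, ?_⟩
    · exact hA.sub.1.trans hx.1
    · exact hx.2.trans_le hA.sub.2
  refine (measure_mono h1).trans ?_
  refine (measure_biUnion_le volume (to_countable _) _).trans ?_
  simp_rw [volume_Ico_dy]
  rw [ENNReal.tsum_eq_iSup_sum]
  refine iSup_le fun T => ?_
  have h2 : ∑ Q ∈ T, ENNReal.ofReal (dlen Q) =
      ∑ Q ∈ T.map ⟨Subtype.val, Subtype.val_injective⟩, ENNReal.ofReal (dlen Q) := by
    rw [Finset.sum_map]; rfl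
  rw [h2, ← ENNReal.ofReal_sum_of_nonneg (fun Q _ => (dlen_pos Q).le)]
  refine ENNReal.ofReal_le_ofReal (hK _ ?_)
  intro Q hQ
  rw [Finset.mem_coe, Finset.mem_map] at hQ
  obtain ⟨Q', -, rfl⟩ := hQ
  exact Q'.2

/-! ### The real functions attached to a coefficient vector -/

/-- The real and imaginary parts of the coefficients. -/
def ut {n : ℕ} (y : ℝ → Fin (n + 1) → ℂ) (κ : Fin (n + 1) × Bool) (t : ℝ) : ℝ :=
  if κ.2 then (y t κ.1).re else (y t κ.1).im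

/-- Their weights. -/
def wt {n : ℕ} (κ : Fin (n + 1) × Bool) : ℕ := n + 1 - κ.1

lemma wt_pos {n : ℕ} (κ : Fin (n + 1) × Bool) : 1 ≤ wt κ := by
  unfold wt
  have := κ.1.2
  omega

lemma wt_le {n : ℕ} (κ : Fin (n + 1) × Bool) : wt κ ≤ n + 1 := by
  unfold wt
  omega

lemma CL.ut {n k : ℕ} {M : ℝ} {y : ℝ → Fin (n + 1) → ℂ} (h : CL k M y (Icc 0 1))
    (κ : Fin (n + 1) × Bool) : CL k M (ut y κ) (Icc 0 1) := by
  have hs01 : UniqueDiffOn ℝ (Icc (0 : ℝ) 1) := uniqueDiffOn_Icc zero_lt_one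
  have h1 := h.apply hs01 κ.1
  rcases κ with ⟨i, b⟩
  cases b
  · refine (h1.im hs01).congr fun t _ => ?_
    simp [Pool.Agent.WeakRoots.ut]
  · refine (h1.re hs01).congr fun t _ => ?_
    simp [Pool.Agent.WeakRoots.ut]

/-- `A Q` is the maximum over `Q` of the functions `|u_κ| ^ (1 / wt κ)`. -/
def ASpec {n : ℕ} (y : ℝ → Fin (n + 1) → ℂ) (A : ℕ × ℕ → ℝ) : Prop :=
  ∀ Q : ℕ × ℕ, Q.2 < 2 ^ Q.1 → 0 ≤ A Q ∧
    (∀ t ∈ Icc (dl Q) (dr Q), ∀ κ, |ut y κ t| ≤ A Q ^ wt κ) ∧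
    ∃ t ∈ Icc (dl Q) (dr Q), ∃ κ, |ut y κ t| = A Q ^ wt κ

lemma exists_ASpec {n : ℕ} {y : ℝ → Fin (n + 1) → ℂ} (hy : ContinuousOn y (Icc 0 1)) :
    ∃ A, ASpec y A := by
  classical
  have hu : ∀ κ, ContinuousOn (ut y κ) (Icc 0 1) := by
    intro κ
    have h1 : ContinuousOn (fun t => y t κ.1) (Icc 0 1) := (continuous_apply κ.1).comp_continuousOn hy
    rcases κ with ⟨i, b⟩
    cases b
    · exact (Complex.continuous_im.comp_continuousOn h1).congr fun t _ => by simp [ut]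
    · exact (Complex.continuous_re.comp_continuousOn h1).congr fun t _ => by simp [ut]
  have hex : ∀ Q : ℕ × ℕ, ∃ A : ℝ, Q.2 < 2 ^ Q.1 → 0 ≤ A ∧
      (∀ t ∈ Icc (dl Q) (dr Q), ∀ κ, |ut y κ t| ≤ A ^ wt κ) ∧
      ∃ t ∈ Icc (dl Q) (dr Q), ∃ κ, |ut y κ t| = A ^ wt κ := by
    intro Q
    by_cases hQ : Q.2 < 2 ^ Q.1
    · have hsub : Icc (dl Q) (dr Q) ⊆ Icc 0 1 := Icc_subset_Icc (dl_nonneg Q) (dr_le_one hQ)
      set φ : ℝ → ℝ := fun t => Finset.univ.sup' Finset.univ_nonempty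
        (fun κ : Fin (n + 1) × Bool => |ut y κ t| ^ ((1 : ℝ) / wt κ)) with hφ
      have hcont : ContinuousOn φ (Icc (dl Q) (dr Q)) := by
        refine ContinuousOn.finset_sup'_apply _ fun κ _ => ?_
        refine ContinuousOn.rpow_const (((hu κ).mono hsub).abs) fun t _ => Or.inr (by positivity)
      obtain ⟨t₀, ht₀, hmax⟩ := isCompact_Icc.exists_isMaxOn
        ⟨dl Q, le_rfl, (dl_lt_dr Q).le⟩ hcont
      have hroot : ∀ t κ, (|ut y κ t| ^ ((1 : ℝ) / wt κ)) ^ wt κ = |ut y κ t| := by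
        intro t κ
        have := wt_pos κ
        rw [one_div, Real.rpow_inv_natCast_pow (abs_nonneg _) (by omega)]
      refine ⟨φ t₀, fun _ => ⟨?_, ?_, t₀, ht₀, ?_⟩⟩
      · have h1 := Finset.le_sup' (fun κ : Fin (n + 1) × Bool => |ut y κ t₀| ^ ((1 : ℝ) / wt κ))
          (Finset.mem_univ ((0 : Fin (n + 1)), true))
        exact le_trans (by positivity) h1
      · intro t ht κ
        have h1 : |ut y κ t| ^ ((1 : ℝ) / wt κ) ≤ φ t :=
          Finset.le_sup' (fun κ : Fin (n + 1) × Bool => |ut y κ t| ^ ((1 : ℝ) / wt κ))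
            (Finset.mem_univ κ)
        have h2 : φ t ≤ φ t₀ := hmax ht
        rw [← hroot t κ]
        exact pow_le_pow_left₀ (by positivity) (h1.trans h2) _
      · obtain ⟨κ, -, hκ⟩ := Finset.exists_mem_eq_sup' Finset.univ_nonempty
          (fun κ : Fin (n + 1) × Bool => |ut y κ t₀| ^ ((1 : ℝ) / wt κ))
        refine ⟨κ, ?_⟩
        rw [hφ]
        simp only
        rw [hκ, hroot]
    · exact ⟨0, fun h => absurd h hQ⟩
  choose A hA using hex
  exact ⟨A, fun Q hQ => hA Q hQ⟩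

/-- Good dyadic intervals. -/
def GoodSet {n : ℕ} (y : ℝ → Fin (n + 1) → ℂ) (A : ℕ × ℕ → ℝ) (ε : ℝ) : Set (ℕ × ℕ) :=
  {Q | Q.2 < 2 ^ Q.1 ∧ 0 < A Q ∧ dlen Q ≤ A Q ∧
    ∀ κ, ∀ t ∈ Icc (dl Q) (dr Q), ∀ t' ∈ Icc (dl Q) (dr Q),
      |ut y κ t - ut y κ t'| ≤ ε * A Q ^ wt κ}

lemma ASpec.mono {n : ℕ} {y : ℝ → Fin (n + 1) → ℂ} {A : ℕ × ℕ → ℝ} (hA : ASpec y A)
    {Q Q' : ℕ × ℕ} (h : Anc Q' Q) (hQ' : Q'.2 < 2 ^ Q'.1) (hQ : Q.2 < 2 ^ Q.1) : A Q' ≤ A Q := by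
  obtain ⟨h0, h1, h2⟩ := hA Q hQ
  obtain ⟨h0', h1', t, ht, κ, h3⟩ := hA Q' hQ'
  have h4 := h1 t (h.Icc_sub ht) κ
  rw [h3] at h4
  have := wt_pos κ
  exact (pow_le_pow_iff_left₀ h0' h0 (by omega)).mp h4

/-- The weak type bound for the density `A Q / |Q|`. -/
lemma weak_density {n : ℕ} (hn : 1 ≤ n) {Λ ε : ℝ} (hΛ : 0 ≤ Λ) (hε : 0 < ε) :
    ∃ CN : ℝ, 0 ≤ CN ∧ ∀ (y : ℝ → Fin (n + 1) → ℂ) (A : ℕ × ℕ → ℝ), CL n Λ y (Icc 0 1) →
      (∀ t, y t (Fin.last n) = 0) → ASpec y A → ∀ τ : ℝ, 0 < τ →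
      ∑' Q, {Q ∈ maxi (GoodSet y A ε) | τ < A Q / dlen Q}.indicator
        (fun Q => ENNReal.ofReal (dlen Q)) Q ≤
        ENNReal.ofReal (CN * τ ^ (-(((n : ℝ) + 1) / n))) := by
  classical
  have hs01 : UniqueDiffOn ℝ (Icc (0 : ℝ) 1) := uniqueDiffOn_Icc zero_lt_one
  set p : ℝ := ((n : ℝ) + 1) / n with hp
  have hnpos : (0 : ℝ) < n := by exact_mod_cast hn
  have hp0 : 0 < p := by positivity
  -- the constants
  set cκ : Fin (n + 1) × Bool → ℝ := fun κ =>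
    2 * Bc (wt κ - 1) ε n * ((2 * Λ / ε) ^ ((1 : ℝ) / ((wt κ - 1 : ℕ) : ℝ)) * 2) with hcκ
  have hcκ0 : ∀ κ, 0 ≤ cκ κ := by
    intro κ
    have := Bc_nonneg (wt κ - 1) hε n
    rw [hcκ]; positivity
  set τ₀ : ℝ := max 2 (max 1 Λ) with hτ₀
  have hτ₀2 : 2 ≤ τ₀ := le_max_left _ _
  refine ⟨∑ κ, cκ κ + τ₀ ^ p, by
    have : 0 ≤ ∑ κ, cκ κ := Finset.sum_nonneg fun κ _ => hcκ0 κ
    positivity, ?_⟩
  intro y A hy hlast hA τ hτ
  set F := maxi (GoodSet y A ε) with hF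
  set F' : Set (ℕ × ℕ) := {Q ∈ F | τ < A Q / dlen Q} with hF'
  -- rewrite the sum as the measure of a disjoint union
  have hsum : ∑' Q, F'.indicator (fun Q => ENNReal.ofReal (dlen Q)) Q =
      volume (⋃ Q ∈ F', Ico (dl Q) (dr Q)) := by
    rw [← tsum_subtype, measure_biUnion (to_countable _)
      ((maxi_pairwise _).subset (fun Q hQ => hQ.1)) (fun _ _ => measurableSet_Ico)]
    simp_rw [volume_Ico_dy]
  rw [hsum]
  have hgood : ∀ Q ∈ F, Q ∈ GoodSet y A ε := fun Q hQ => hQ.1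
  rcases lt_or_ge τ τ₀ with hlt | hge
  · -- small `τ`
    have h1 : volume (⋃ Q ∈ F', Ico (dl Q) (dr Q)) ≤ volume (Icc (0 : ℝ) 1) := by
      refine measure_mono (iUnion₂_subset fun Q hQ x hx => ?_)
      have := (hgood Q hQ.1).1
      exact ⟨(dl_nonneg Q).trans hx.1, hx.2.le.trans (dr_le_one this)⟩
    refine h1.trans ?_
    rw [Real.volume_Icc]
    refine ENNReal.ofReal_le_ofReal ?_
    have h2 : 1 ≤ τ₀ ^ p * τ ^ (-p) := by
      rw [Real.rpow_neg hτ.le, ← div_eq_mul_inv, le_div_iff₀ (by positivity), one_mul]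
      exact Real.rpow_le_rpow hτ.le hlt.le hp0.le
    have h3 : 0 ≤ ∑ κ, cκ κ := Finset.sum_nonneg fun κ _ => hcκ0 κ
    have h4 : 0 ≤ (∑ κ, cκ κ) * τ ^ (-p) := by positivity
    nlinarith
  · -- large `τ`
    have hτ1 : 1 ≤ τ := by linarith
    -- bad sets
    set Bκ : Fin (n + 1) × Bool → Set (ℕ × ℕ) := fun κ =>
      {Q | Q.2 < 2 ^ Q.1 ∧ 0 < A Q ∧ τ / 2 * dlen Q ≤ A Q ∧
        ∃ t ∈ Icc (dl Q) (dr Q), ∃ t' ∈ Icc (dl Q) (dr Q),
          ε * A Q ^ wt κ ≤ ut y κ t - ut y κ t'} with hBκ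
    have hcover : (⋃ Q ∈ F', Ico (dl Q) (dr Q)) ⊆
        ⋃ κ ∈ (Finset.univ.filter fun κ : Fin (n + 1) × Bool => 2 ≤ wt κ),
          ⋃ Q ∈ Bκ κ, Ico (dl Q) (dr Q) := by
      refine iUnion₂_subset fun Q hQ x hx => ?_
      obtain ⟨hQF, hQτ⟩ := hQ
      obtain ⟨hQ1, hQ2, hQ3, hQ4⟩ := hgood Q hQF
      rw [lt_div_iff₀ (dlen_pos Q)] at hQτ
      -- `Q` is not the root
      have hlev : Q.1 ≠ 0 := by
        intro h0
        have hQ0 : Q.2 = 0 := by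
          rw [h0] at hQ1; simpa using hQ1
        have hdlen : dlen Q = 1 := by unfold dlen; rw [h0]; simp
        rw [hdlen, mul_one] at hQτ
        obtain ⟨_, _, t, ht, κ, h3⟩ := hA Q hQ1
        have ht01 : t ∈ Icc (0 : ℝ) 1 := Icc_subset_Icc (dl_nonneg Q) (dr_le_one hQ1) ht
        have h4 : |ut y κ t| ≤ Λ := (hy.ut κ).norm_le ht01
        have h5 : A Q ≤ A Q ^ wt κ := by
          have h6 : 1 ≤ A Q := by linarith
          exact le_self_pow₀ h6 (by have := wt_pos κ; omega)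
        have h7 : Λ ≤ τ₀ := (le_max_right _ _).trans (le_max_right _ _)
        linarith
      set P : ℕ × ℕ := (Q.1 - 1, Q.2 / 2) with hP
      have hanc : Anc Q P := ⟨1, by simp only [hP]; omega, by simp [hP]⟩
      have hP1 : P.2 < 2 ^ P.1 := by
        rw [hP]
        simp only
        have h1 : 2 ^ Q.1 = 2 ^ (Q.1 - 1) * 2 := by
          rw [← pow_succ]; congr 1; omega
        rw [h1] at hQ1
        exact (Nat.div_lt_iff_lt_mul two_pos).mpr hQ1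
      have hAle : A Q ≤ A P := hA.mono hanc hQ1 hP1
      have hPlen : dlen P = 2 * dlen Q := by
        rw [hP]
        unfold dlen
        simp only
        have h1 : (2 : ℝ) ^ Q.1 = 2 ^ (Q.1 - 1) * 2 := by
          rw [← pow_succ]; congr 1; omega
        rw [h1]
        field_simp
      have hPbad : P ∉ GoodSet y A ε := by
        intro hPG
        have h1 := hQF.2 P hanc hPG
        have h2 := congrArg Prod.fst h1
        simp only [hP] at h2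
        omega
      have hAP : 0 < A P := hQ2.trans_le hAle
      have hτP : τ / 2 * dlen P ≤ A P := by
        rw [hPlen]
        calc τ / 2 * (2 * dlen Q) = τ * dlen Q := by ring
          _ ≤ A Q := hQτ.le
          _ ≤ A P := hAle
      have hlenP : dlen P ≤ A P := by
        refine le_trans ?_ hτP
        have := dlen_pos P
        nlinarith
      have hosc : ∃ κ, ∃ t ∈ Icc (dl P) (dr P), ∃ t' ∈ Icc (dl P) (dr P),
          ε * A P ^ wt κ < |ut y κ t - ut y κ t'| := by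
        by_contra hcon
        push Not at hcon
        exact hPbad ⟨hP1, hAP, hlenP, hcon⟩
      obtain ⟨κ, t, ht, t', ht', hosc⟩ := hosc
      have hwt2 : 2 ≤ wt κ := by
        by_contra hcon
        have h1 : wt κ = 1 := by have := wt_pos κ; omega
        have h2 : κ.1 = Fin.last n := by
          unfold wt at h1
          refine Fin.ext ?_
          rw [Fin.val_last]
          omega
        have h3 : ∀ s, ut y κ s = 0 := by
          intro s
          unfold ut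
          rw [h2, hlast s]
          simp
        rw [h3 t, h3 t', sub_zero, abs_zero] at hosc
        have : 0 < ε * A P ^ wt κ := by positivity
        linarith
      refine mem_iUnion₂.mpr ⟨κ, by simp [hwt2], mem_iUnion₂.mpr ⟨P, ?_, ?_⟩⟩
      · refine ⟨hP1, hAP, hτP, ?_⟩
        rcases le_or_gt 0 (ut y κ t - ut y κ t') with h | h
        · rw [abs_of_nonneg h] at hosc
          exact ⟨t, ht, t', ht', hosc.le⟩
        · rw [abs_of_neg h] at hosc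
          exact ⟨t', ht', t, ht, by linarith⟩
      · exact ⟨hanc.sub.1.trans hx.1, hx.2.trans_le hanc.sub.2⟩
    have hκ : ∀ κ, 2 ≤ wt κ → volume (⋃ Q ∈ Bκ κ, Ico (dl Q) (dr Q)) ≤
        ENNReal.ofReal (cκ κ * τ ^ (-p)) := by
      intro κ hwt
      refine vol_union_le fun T hT => ?_
      have hmem : ∀ Q ∈ T, Q ∈ Bκ κ := fun Q hQ => (hT hQ).1
      have hw1 : wt κ - 1 + 1 = wt κ := by omega
      have hwn : wt κ - 1 ≤ n := by have := wt_le κ; omega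
      have hFam : Fam (ut y κ) (wt κ - 1) ε T dl dr A := by
        refine ⟨fun Q _ => dl_lt_dr Q, fun Q hQ => (hmem Q hQ).2.1, ?_, ?_, ?_⟩
        · intro Q hQ Q' hQ' hne
          exact maxi_disj (hT hQ) (hT hQ') hne
        · intro Q hQ t ht
          rw [hw1]
          exact (hA Q (hmem Q hQ).1).2.1 t ht κ
        · intro Q hQ
          rw [hw1]
          exact (hmem Q hQ).2.2.2
      have h1 := count_dyadic (k := n) (w := wt κ - 1) (by omega) hwn hΛ hε (hy.ut κ)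
        (τ := τ / 2) (by positivity) (fun Q hQ => (hmem Q hQ).1) hFam
        (fun Q hQ => (hmem Q hQ).2.2.1)
      refine h1.trans ?_
      rw [hcκ]
      simp only
      rw [mul_assoc (2 * Bc (wt κ - 1) ε n)]
      refine mul_le_mul_of_nonneg_left ?_ (by have := Bc_nonneg (wt κ - 1) hε n; positivity)
      set w : ℝ := ((wt κ - 1 : ℕ) : ℝ) with hw
      have hw0 : 0 < w := by rw [hw]; exact_mod_cast (by omega : 0 < wt κ - 1)
      have hwn' : w ≤ n := by rw [hw]; exact_mod_cast hwn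
      have e1 : Λ / (ε * (τ / 2)) = (2 * Λ / ε) * τ⁻¹ := by field_simp
      rw [e1, Real.mul_rpow (by positivity) (by positivity)]
      have e2 : (2 * Λ / ε) ^ (1 / w) * τ⁻¹ ^ (1 / w) / (τ / 2) =
          (2 * Λ / ε) ^ (1 / w) * 2 * (τ ^ (-(1 / w)) * τ ^ (-1 : ℝ)) := by
        rw [Real.inv_rpow hτ.le, ← Real.rpow_neg hτ.le, Real.rpow_neg_one]
        field_simp
      rw [e2, ← Real.rpow_add hτ]
      have e3 : τ ^ (-(1 / w) + -1) ≤ τ ^ (-p) := by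
        refine Real.rpow_le_rpow_of_exponent_le hτ1 ?_
        have : p = 1 + 1 / n := by rw [hp]; field_simp
        rw [this]
        have : 1 / (n : ℝ) ≤ 1 / w := one_div_le_one_div_of_le hw0 hwn'
        linarith
      gcongr
    calc volume (⋃ Q ∈ F', Ico (dl Q) (dr Q))
        ≤ _ := measure_mono hcover
      _ ≤ ∑ κ ∈ (Finset.univ.filter fun κ : Fin (n + 1) × Bool => 2 ≤ wt κ),
          volume (⋃ Q ∈ Bκ κ, Ico (dl Q) (dr Q)) := measure_biUnion_finset_le _ _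
      _ ≤ ∑ κ ∈ (Finset.univ.filter fun κ : Fin (n + 1) × Bool => 2 ≤ wt κ),
          ENNReal.ofReal (cκ κ * τ ^ (-p)) :=
          Finset.sum_le_sum fun κ hκ' => hκ κ (Finset.mem_filter.mp hκ').2
      _ ≤ ∑ κ, ENNReal.ofReal (cκ κ * τ ^ (-p)) :=
          Finset.sum_le_sum_of_subset (Finset.filter_subset _ _)
      _ = ENNReal.ofReal ((∑ κ, cκ κ) * τ ^ (-p)) := by
          rw [← ENNReal.ofReal_sum_of_nonneg, Finset.sum_mul]
          intro κ _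
          have := hcκ0 κ
          positivity
      _ ≤ _ := by
          refine ENNReal.ofReal_le_ofReal ?_
          have : 0 ≤ τ₀ ^ p * τ ^ (-p) := by positivity
          nlinarith

end Pool.Agent.WeakRoots
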