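import Pool.Agent.WeakRoots.Interp

set_option autoImplicit false

open Set MeasureTheory Polynomial Topology

namespace Pool.Agent.WeakRoots

/-- The value at `z` of the monic polynomial of degree `n` with lower coefficients `x`. -/
noncomputable def ev {n : ℕ} (x : Fin n → ℂ) (z : ℂ) : ℂ := z ^ n + ∑ i, x i * z ^ (i : ℕ)

/-- The monic polynomial of degree `n` with lower coefficients `x`. -/
noncomputable def mon {n : ℕ} (x : Fin n → ℂ) : ℂ[X] := X ^ n + ∑ i : Fin n, C (x i) * X ^ (i : ℕ)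

/-- The polynomial of degree `< n` with coefficients `x`. -/
noncomputable def lin {n : ℕ} (x : Fin n → ℂ) : ℂ[X] := ∑ i : Fin n, C (x i) * X ^ (i : ℕ)

lemma mon_eq {n : ℕ} (x : Fin n → ℂ) : mon x = X ^ n + lin x := rfl

lemma eval_mon {n : ℕ} (x : Fin n → ℂ) (z : ℂ) : (mon x).eval z = ev x z := by
  simp [mon, ev, eval_finsetSum]

lemma lin_degree_lt {n : ℕ} (x : Fin n → ℂ) : (lin x).degree < n := by
  unfold lin
  refine (degree_sum_le _ _).trans_lt ?_
  rw [Finset.sup_lt_iff (by exact_mod_cast WithBot.bot_lt_coe n)]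
  intro i _
  exact (degree_C_mul_X_pow_le _ _).trans_lt (by exact_mod_cast i.2)

lemma mon_monic {n : ℕ} (x : Fin n → ℂ) : (mon x).Monic := by
  rw [mon_eq]
  exact monic_X_pow_add (lin_degree_lt x)

lemma mon_natDegree {n : ℕ} (x : Fin n → ℂ) : (mon x).natDegree = n := by
  rw [mon_eq]
  have h : (X ^ n + lin x : ℂ[X]).degree = n := by
    rw [degree_add_eq_left_of_degree_lt]
    · exact degree_X_pow n
    · rw [degree_X_pow]; exact lin_degree_lt x
  exact natDegree_eq_of_degree_eq_some h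

lemma lin_coeff {n : ℕ} (x : Fin n → ℂ) (p : ℕ) :
    (lin x).coeff p = ∑ i : Fin n, x i * (if p = i then 1 else 0) := by
  simp [lin, coeff_X_pow]

lemma lin_coeff_fin {n : ℕ} (x : Fin n → ℂ) (i : Fin n) : (lin x).coeff i = x i := by
  rw [lin_coeff]
  rw [Finset.sum_eq_single i]
  · simp
  · intro j _ hj
    have : ¬ ((i : ℕ) = (j : ℕ)) := fun h => hj (Fin.ext h.symm)
    simp [this]
  · simp

lemma lin_add {n : ℕ} (x y : Fin n → ℂ) : lin (x + y) = lin x + lin y := by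
  simp only [lin, Pi.add_apply, C_add, add_mul, Finset.sum_add_distrib]

lemma lin_smul {n : ℕ} (c : ℂ) (x : Fin n → ℂ) : lin (c • x) = C c * lin x := by
  simp only [lin, Pi.smul_apply, smul_eq_mul, C_mul, Finset.mul_sum, mul_assoc]

lemma mon_coeff_fin {n : ℕ} (x : Fin n → ℂ) (i : Fin n) : (mon x).coeff i = x i := by
  rw [mon_eq, coeff_add, lin_coeff_fin, coeff_X_pow]
  have : ¬ ((i : ℕ) = n) := i.2.ne
  simp [this]

lemma eq_mon {P : ℂ[X]} {n : ℕ} (hP : P.Monic) (hd : P.natDegree = n) :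
    P = mon (fun i : Fin n => P.coeff i) := by
  conv_lhs => rw [hP.as_sum]
  unfold mon
  rw [hd, Finset.sum_range]

/-- Multiplication of monic polynomials, on coefficients. -/
noncomputable def mulc (m k : ℕ) (p : (Fin m → ℂ) × (Fin k → ℂ)) : Fin (m + k) → ℂ :=
  fun i => (mon p.1 * mon p.2).coeff i

lemma mon_mulc (m k : ℕ) (p : (Fin m → ℂ) × (Fin k → ℂ)) :
    mon (mulc m k p) = mon p.1 * mon p.2 := by
  symm
  refine eq_mon ((mon_monic _).mul (mon_monic _)) ?_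
  rw [(mon_monic _).natDegree_mul (mon_monic _), mon_natDegree, mon_natDegree]

lemma ev_mulc (m k : ℕ) (p : (Fin m → ℂ) × (Fin k → ℂ)) (z : ℂ) :
    ev (mulc m k p) z = ev p.1 z * ev p.2 z := by
  rw [← eval_mon, mon_mulc, eval_mul, eval_mon, eval_mon]

lemma contDiff_mulc (m k : ℕ) (N : WithTop ℕ∞) : ContDiff ℂ N (mulc m k) := by
  have h1 : ∀ (m : ℕ) (p : ℕ), ContDiff ℂ N (fun b : Fin m → ℂ => (mon b).coeff p) := by
    intro m p
    have : (fun b : Fin m → ℂ => (mon b).coeff p) =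
        fun b => (X ^ m : ℂ[X]).coeff p + ∑ i : Fin m, b i * (if p = i then 1 else 0) := by
      funext b
      rw [mon_eq, coeff_add, lin_coeff]
    rw [this]
    refine contDiff_const.add (ContDiff.sum fun i _ => ?_)
    exact (contDiff_apply ℂ ℂ i).mul contDiff_const
  rw [contDiff_pi]
  intro i
  unfold mulc
  simp only [coeff_mul]
  refine ContDiff.sum fun q _ => ?_
  exact ((h1 m q.1).comp contDiff_fst).mul ((h1 k q.2).comp contDiff_snd)

/-- The derivative of `mulc` at a coprime pair is injective. -/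
lemma fderiv_mulc_injective {m k : ℕ} {b₀ : Fin m → ℂ} {c₀ : Fin k → ℂ}
    (hcop : IsCoprime (mon b₀) (mon c₀)) :
    Function.Injective (fderiv ℂ (mulc m k) (b₀, c₀)) := by
  rw [injective_iff_map_eq_zero]
  rintro ⟨β, γ⟩ h0
  -- the derivative along the direction `(β, γ)`
  have hd : HasFDerivAt (mulc m k) (fderiv ℂ (mulc m k) (b₀, c₀)) (b₀, c₀) :=
    ((contDiff_mulc m k 1).differentiable (by norm_num) _).hasFDerivAt
  have hline : HasDerivAt (fun t : ℂ => (b₀, c₀) + t • (β, γ)) (β, γ) 0 := by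
    have := ((hasDerivAt_id (0 : ℂ)).smul_const (β, γ)).const_add (b₀, c₀)
    simpa using this
  have h1 : HasDerivAt (fun t : ℂ => mulc m k ((b₀, c₀) + t • (β, γ)))
      (fderiv ℂ (mulc m k) (b₀, c₀) (β, γ)) 0 := by
    have hd' : HasFDerivAt (mulc m k) (fderiv ℂ (mulc m k) (b₀, c₀))
        ((fun t : ℂ => (b₀, c₀) + t • (β, γ)) 0) := by simpa using hd
    exact hd'.comp_hasDerivAt 0 hline
  rw [h0] at h1
  have hL : lin β * mon c₀ + mon b₀ * lin γ = 0 := by
    have hdeg : (lin β * mon c₀ + mon b₀ * lin γ).degree < (m + k : ℕ) := by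
      refine (degree_add_le _ _).trans_lt (max_lt ?_ ?_)
      · rw [degree_mul, degree_eq_natDegree (mon_monic c₀).ne_zero, mon_natDegree]
        have := lin_degree_lt β
        push_cast
        exact WithBot.add_lt_add_right (by simp) this
      · rw [degree_mul, degree_eq_natDegree (mon_monic b₀).ne_zero, mon_natDegree]
        have := lin_degree_lt γ
        push_cast
        exact WithBot.add_lt_add_left (by simp) this
    ext p
    rcases lt_or_ge p (m + k) with hp | hp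
    · have h2 := (hasDerivAt_pi.mp h1) ⟨p, hp⟩
      have h3 : (fun t : ℂ => mulc m k ((b₀, c₀) + t • (β, γ)) ⟨p, hp⟩) = fun t =>
          (mon b₀ * mon c₀).coeff p + t * (lin β * mon c₀ + mon b₀ * lin γ).coeff p
            + t ^ 2 * (lin β * lin γ).coeff p := by
        funext t
        unfold mulc
        simp only [Prod.fst_add, Prod.snd_add, Prod.smul_fst, Prod.smul_snd]
        have e : mon (b₀ + t • β) * mon (c₀ + t • γ) = mon b₀ * mon c₀ +
            C t * (lin β * mon c₀ + mon b₀ * lin γ) + C (t ^ 2) * (lin β * lin γ) := by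
          rw [mon_eq, mon_eq, lin_add, lin_add, lin_smul, lin_smul, mon_eq b₀, mon_eq c₀]
          simp only [C_pow]
          ring
        rw [e, coeff_add, coeff_add, coeff_C_mul, coeff_C_mul]
      rw [h3] at h2
      have h4 : HasDerivAt (fun t : ℂ => (mon b₀ * mon c₀).coeff p +
          t * (lin β * mon c₀ + mon b₀ * lin γ).coeff p
            + t ^ 2 * (lin β * lin γ).coeff p)
          ((lin β * mon c₀ + mon b₀ * lin γ).coeff p) 0 := by
        have a1 := (hasDerivAt_id (0 : ℂ)).mul_const ((lin β * mon c₀ + mon b₀ * lin γ).coeff p)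
        have a2 := ((hasDerivAt_id (0 : ℂ)).pow 2).mul_const ((lin β * lin γ).coeff p)
        have a3 := (a1.const_add ((mon b₀ * mon c₀).coeff p)).add a2
        refine HasDerivAt.congr_deriv (f := fun t : ℂ => (mon b₀ * mon c₀).coeff p +
          t * (lin β * mon c₀ + mon b₀ * lin γ).coeff p + t ^ 2 * (lin β * lin γ).coeff p) a3 ?_
        simp
      have h5 := h2.unique h4
      simpa using h5.symm
    · rw [coeff_eq_zero_of_degree_lt]
      · simp
      · exact hdeg.trans_le (by exact_mod_cast hp)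
  have hβ : lin β = 0 := by
    have h2 : mon b₀ ∣ lin β * mon c₀ := ⟨-lin γ, by linear_combination hL⟩
    have h3 : mon b₀ ∣ lin β := hcop.dvd_of_dvd_mul_right h2
    by_contra hne
    have h4 := degree_le_of_dvd h3 hne
    rw [degree_eq_natDegree (mon_monic b₀).ne_zero, mon_natDegree] at h4
    exact absurd (lin_degree_lt β) (not_lt.mpr h4)
  have hγ : lin γ = 0 := by
    rw [hβ, zero_mul, zero_add] at hL
    exact (mul_eq_zero.mp hL).resolve_left (mon_monic b₀).ne_zero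
  refine Prod.ext ?_ ?_
  · funext i
    have := lin_coeff_fin β i
    rw [hβ] at this
    simpa using this.symm
  · funext i
    have := lin_coeff_fin γ i
    rw [hγ] at this
    simpa using this.symm

/-- Bound of the roots. -/
lemma root_bound {n : ℕ} {x : Fin n → ℂ} {z : ℂ} {D : ℝ} (hx : ∀ i, ‖x i‖ ≤ D)
    (hz : ev x z = 0) : ‖z‖ ≤ 1 + n * D := by
  by_contra hcon
  push Not at hcon
  have hD : 0 ≤ n * D := by
    rcases Nat.eq_zero_or_pos n with h | h
    · simp [h]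
    · have : 0 ≤ D := (norm_nonneg _).trans (hx ⟨0, h⟩)
      positivity
  have h1 : 1 < ‖z‖ := by linarith
  rcases Nat.eq_zero_or_pos n with h | h
  · subst h
    simp [ev] at hz
  · have h2 : z ^ n = -∑ i, x i * z ^ (i : ℕ) := by
      unfold ev at hz
      linear_combination hz
    have h3 : ‖z‖ ^ n ≤ n * D * ‖z‖ ^ (n - 1) := by
      rw [← norm_pow, h2, norm_neg]
      refine (norm_sum_le _ _).trans ?_
      calc ∑ i : Fin n, ‖x i * z ^ (i : ℕ)‖ ≤ ∑ _i : Fin n, D * ‖z‖ ^ (n - 1) := by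
            refine Finset.sum_le_sum fun i _ => ?_
            rw [norm_mul, norm_pow]
            have hD' : 0 ≤ D := (norm_nonneg _).trans (hx i)
            have : ‖z‖ ^ (i : ℕ) ≤ ‖z‖ ^ (n - 1) := pow_le_pow_right₀ h1.le (by omega)
            exact mul_le_mul (hx i) this (by positivity) hD'
        _ = n * D * ‖z‖ ^ (n - 1) := by simp; ring
    have h4 : ‖z‖ ^ n = ‖z‖ * ‖z‖ ^ (n - 1) := by
      rw [← pow_succ']; congr 1; omega
    rw [h4] at h3
    have h5 : 0 < ‖z‖ ^ (n - 1) := by positivity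
    have h6 := le_of_mul_le_mul_right h3 h5
    linarith

/-- Local splitting near a product of coprime monic polynomials. -/
lemma local_split {m k : ℕ} {b₀ : Fin m → ℂ} {c₀ : Fin k → ℂ}
    (hcop : IsCoprime (mon b₀) (mon c₀)) (N : ℕ) :
    ∃ (U : Set (Fin (m + k) → ℂ)) (ψ : (Fin (m + k) → ℂ) → (Fin m → ℂ) × (Fin k → ℂ)),
      IsOpen U ∧ mulc m k (b₀, c₀) ∈ U ∧ ContDiffOn ℝ N ψ U ∧
      ∀ x ∈ U, ∀ z, ev x z = ev (ψ x).1 z * ev (ψ x).2 z ∧
        ¬ (ev (ψ x).1 z = 0 ∧ ev (ψ x).2 z = 0) := by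
  set f := mulc m k with hf
  set f' := fderiv ℂ f (b₀, c₀) with hf'
  have hinj : Function.Injective (f' : ((Fin m → ℂ) × (Fin k → ℂ)) →ₗ[ℂ] (Fin (m + k) → ℂ)) :=
    fderiv_mulc_injective hcop
  have hdim : Module.finrank ℂ ((Fin m → ℂ) × (Fin k → ℂ)) =
      Module.finrank ℂ (Fin (m + k) → ℂ) := by
    simp
  set e : ((Fin m → ℂ) × (Fin k → ℂ)) ≃L[ℂ] (Fin (m + k) → ℂ) :=
    ((f' : ((Fin m → ℂ) × (Fin k → ℂ)) →ₗ[ℂ] (Fin (m + k) → ℂ)).linearEquivOfInjective
      hinj hdim).toContinuousLinearEquiv with he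
  have hee : (e : ((Fin m → ℂ) × (Fin k → ℂ)) →L[ℂ] (Fin (m + k) → ℂ)) = f' := by
    exact ContinuousLinearMap.ext fun x => rfl
  have hd : HasFDerivAt f (e : ((Fin m → ℂ) × (Fin k → ℂ)) →L[ℂ] (Fin (m + k) → ℂ)) (b₀, c₀) := by
    rw [hee]
    exact ((contDiff_mulc m k 1).differentiable (by norm_num) _).hasFDerivAt
  have hcd : ContDiffAt ℂ ((N + 1 : ℕ) : WithTop ℕ∞) f (b₀, c₀) :=
    (contDiff_mulc m k _).contDiffAt
  have hN : ((N + 1 : ℕ) : WithTop ℕ∞) ≠ 0 := by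
    exact_mod_cast Nat.succ_ne_zero N
  set ψ := hcd.localInverse hd hN with hψ
  have hψ0 : ψ (f (b₀, c₀)) = (b₀, c₀) := hcd.localInverse_apply_image hd hN
  have hψcd : ContDiffAt ℂ ((N + 1 : ℕ) : WithTop ℕ∞) ψ (f (b₀, c₀)) := hcd.to_localInverse hd hN
  have hinv : ∀ᶠ y in 𝓝 (f (b₀, c₀)), f (ψ y) = y :=
    (hcd.hasStrictFDerivAt' hd hN).eventually_right_inverse
  have hsm : ∀ᶠ y in 𝓝 (f (b₀, c₀)), ContDiffAt ℂ ((N + 1 : ℕ) : WithTop ℕ∞) ψ y :=
    hψcd.eventually (by simp)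
  -- coprimality persists
  have hcopr : ∀ᶠ p in 𝓝 (b₀, c₀), ∀ z, ¬ (ev (n := m) p.1 z = 0 ∧ ev (n := k) p.2 z = 0) := by
    set D : ℝ := 1 + m * (‖b₀‖ + 1) with hD
    have hcts1 : Continuous fun q : ((Fin m → ℂ) × (Fin k → ℂ)) × ℂ => ev (n := m) q.1.1 q.2 := by
      unfold ev; fun_prop
    have hcts2 : Continuous fun q : ((Fin m → ℂ) × (Fin k → ℂ)) × ℂ => ev (n := k) q.1.2 q.2 := by
      unfold ev; fun_prop
    have h1 : ∀ᶠ p in 𝓝 (b₀, c₀), ∀ z ∈ Metric.closedBall (0 : ℂ) D,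
        ¬ (ev (n := m) p.1 z = 0 ∧ ev (n := k) p.2 z = 0) := by
      refine (isCompact_closedBall (0 : ℂ) D).eventually_forall_of_forall_eventually ?_
      intro z _
      have hne : ¬ (ev (n := m) b₀ z = 0 ∧ ev (n := k) c₀ z = 0) := by
        rintro ⟨h1, h2⟩
        obtain ⟨u, v, huv⟩ := hcop
        have := congrArg (eval z) huv
        simp only [eval_add, eval_mul, eval_mon, h1, h2, mul_zero, add_zero, eval_one] at this
        exact zero_ne_one this
      rw [not_and_or] at hne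
      rcases hne with h | h
      · have : ∀ᶠ q : ((Fin m → ℂ) × (Fin k → ℂ)) × ℂ in 𝓝 ((b₀, c₀), z),
            ev (n := m) q.1.1 q.2 ≠ 0 := hcts1.continuousAt.eventually_ne h
        filter_upwards [this] with q hq h'
        exact hq h'.1
      · have : ∀ᶠ q : ((Fin m → ℂ) × (Fin k → ℂ)) × ℂ in 𝓝 ((b₀, c₀), z),
            ev (n := k) q.1.2 q.2 ≠ 0 := hcts2.continuousAt.eventually_ne h
        filter_upwards [this] with q hq h'
        exact hq h'.2
    have h2 : ∀ᶠ p : (Fin m → ℂ) × (Fin k → ℂ) in 𝓝 (b₀, c₀), ‖p.1‖ < ‖b₀‖ + 1 := by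
      have : Continuous fun p : (Fin m → ℂ) × (Fin k → ℂ) => ‖p.1‖ := by fun_prop
      exact this.continuousAt.eventually_lt continuousAt_const (by simp)
    filter_upwards [h1, h2] with p hp1 hp2 z hz
    refine hp1 z ?_ hz
    rw [mem_closedBall_zero_iff, hD]
    exact root_bound (fun i => (norm_le_pi_norm p.1 i).trans hp2.le) hz.1
  have hψcont : ContinuousAt ψ (f (b₀, c₀)) := hψcd.continuousAt
  have hcopr' : ∀ᶠ y in 𝓝 (f (b₀, c₀)), ∀ z, ¬ (ev (ψ y).1 z = 0 ∧ ev (ψ y).2 z = 0) := by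
    have : Filter.Tendsto ψ (𝓝 (f (b₀, c₀))) (𝓝 (b₀, c₀)) := by
      have h := hψcont.tendsto
      rwa [hψ0] at h
    exact this.eventually hcopr
  obtain ⟨U, hU, hUo, hUm⟩ := eventually_nhds_iff.mp (hinv.and (hsm.and hcopr'))
  refine ⟨U, ψ, hUo, hUm, ?_, ?_⟩
  · intro y hy
    have h1 := (hU y hy).2.1
    exact ((h1.restrict_scalars ℝ).of_le (by norm_cast; omega)).contDiffWithinAt
  · intro y hy z
    refine ⟨?_, (hU y hy).2.2 z⟩
    have h1 := (hU y hy).1
    conv_lhs => rw [← h1]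
    exact ev_mulc m k _ z

/-- The normalised coefficient vectors. -/
def Kset (n : ℕ) : Set (Fin n → ℂ) :=
  {x | (∀ i, |(x i).re| ≤ 1 ∧ |(x i).im| ≤ 1) ∧ (∃ i, |(x i).re| = 1 ∨ |(x i).im| = 1) ∧
    ∀ i : Fin n, (i : ℕ) + 1 = n → x i = 0}

lemma isCompact_Kset (n : ℕ) : IsCompact (Kset n) := by
  refine Metric.isCompact_of_isClosed_isBounded ?_ ?_
  · have h1 : IsClosed {x : Fin n → ℂ | ∀ i, |(x i).re| ≤ 1 ∧ |(x i).im| ≤ 1} := by
      simp only [ofPred_forall, ofPred_and]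
      refine isClosed_iInter fun i => ?_
      exact (isClosed_le (by fun_prop) continuous_const).inter
        (isClosed_le (by fun_prop) continuous_const)
    have h2 : IsClosed {x : Fin n → ℂ | ∃ i, |(x i).re| = 1 ∨ |(x i).im| = 1} := by
      simp only [ofPred_exists, ofPred_or]
      refine isClosed_iUnion_of_finite fun i => ?_
      exact (isClosed_eq (by fun_prop) continuous_const).union
        (isClosed_eq (by fun_prop) continuous_const)
    have h3 : IsClosed {x : Fin n → ℂ | ∀ i : Fin n, (i : ℕ) + 1 = n → x i = 0} := by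
      simp only [ofPred_forall]
      refine isClosed_iInter fun i => isClosed_iInter fun _ => ?_
      exact isClosed_eq (by fun_prop) continuous_const
    exact h1.inter (h2.inter h3)
  · refine (Metric.isBounded_iff_subset_closedBall (0 : Fin n → ℂ)).mpr ⟨2, ?_⟩
    intro x hx
    rw [mem_closedBall_zero_iff, pi_norm_le_iff_of_nonneg (by norm_num)]
    intro i
    have h := hx.1 i
    calc ‖x i‖ ≤ |(x i).re| + |(x i).im| := Complex.norm_le_abs_re_add_abs_im _
      _ ≤ 2 := by linarith [h.1, h.2]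

/-- A normalised polynomial has a nontrivial coprime factorisation. -/
lemma exists_factor {n : ℕ} (hn : 1 ≤ n) {x : Fin n → ℂ} (hx : x ∈ Kset n) :
    ∃ (m k : ℕ) (b₀ : Fin m → ℂ) (c₀ : Fin k → ℂ), 1 ≤ m ∧ 1 ≤ k ∧ m + k = n ∧
      IsCoprime (mon b₀) (mon c₀) ∧ mon x = mon b₀ * mon c₀ := by
  have hP := mon_monic x
  have hdeg : (mon x).degree ≠ 0 := by
    rw [degree_eq_natDegree hP.ne_zero, mon_natDegree]
    exact_mod_cast (by omega : n ≠ 0)
  obtain ⟨ζ, hζ⟩ := IsAlgClosed.exists_root (mon x) hdeg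
  obtain ⟨q, hq1, hq2⟩ := exists_eq_pow_rootMultiplicity_mul_and_not_dvd (mon x) hP.ne_zero ζ
  set m := rootMultiplicity ζ (mon x) with hm
  have hm1 : 1 ≤ m := (rootMultiplicity_pos hP.ne_zero).mpr hζ
  have hmon : ((X - C ζ) ^ m).Monic := (monic_X_sub_C ζ).pow m
  have hqm : q.Monic := hmon.of_mul_monic_left (hq1 ▸ hP)
  have hdm : ((X - C ζ) ^ m).natDegree = m := by
    rw [natDegree_pow, natDegree_X_sub_C, mul_one]
  have hsum : m + q.natDegree = n := by
    have := congrArg natDegree hq1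
    rw [hmon.natDegree_mul hqm, hdm, mon_natDegree] at this
    exact this.symm
  have e1 := eq_mon hmon hdm
  have e2 := eq_mon hqm rfl
  refine ⟨m, q.natDegree, fun i => ((X - C ζ) ^ m).coeff i, fun i => q.coeff i, hm1, ?_, hsum,
    ?_, ?_⟩
  · by_contra hcon
    have hq0 : q.natDegree = 0 := by omega
    have hq1' : q = 1 := hqm.natDegree_eq_zero.mp hq0
    have hmn : m = n := by omega
    rw [hq1', mul_one, hmn] at hq1
    have hζ0 : ζ = 0 := by
      have h1 : (mon x).coeff (n - 1) = 0 := by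
        have := hx.2.2 ⟨n - 1, by omega⟩ (by simp only; omega)
        rw [← this]
        exact mon_coeff_fin x ⟨n - 1, by omega⟩
      rw [hq1, sub_eq_add_neg, ← C_neg, coeff_X_add_C_pow] at h1
      have h2 : n - (n - 1) = 1 := by omega
      have h3 : n.choose (n - 1) = n := by
        rw [Nat.choose_symm (by omega : 1 ≤ n), Nat.choose_one_right]
      rw [h2, h3, pow_one] at h1
      rcases mul_eq_zero.mp h1 with h4 | h4
      · simpa using h4
      · exact absurd (Nat.cast_eq_zero.mp h4) (by omega)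
    have hx0 : ∀ i, x i = 0 := by
      intro i
      rw [← mon_coeff_fin x i, hq1, hζ0]
      simp only [C_0, sub_zero, coeff_X_pow]
      rw [if_neg i.2.ne]
    obtain ⟨i, hi⟩ := hx.2.1
    rw [hx0 i] at hi
    simp at hi
  · rw [← e1, ← e2]
    exact ((irreducible_X_sub_C ζ).coprime_iff_not_dvd.mpr hq2).pow_left
  · rw [← e1, ← e2]; exact hq1

/-- The conclusion of the splitting lemma. -/
def SplitConc (n : ℕ) (C : ℝ) (y : ℝ → Fin n → ℂ) : Prop :=
  ∃ (m k : ℕ) (b : ℝ → Fin m → ℂ) (c : ℝ → Fin k → ℂ), 1 ≤ m ∧ 1 ≤ k ∧ m + k = n ∧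
    CL (n - 1) C b (Icc 0 1) ∧ CL (n - 1) C c (Icc 0 1) ∧
    ∀ t ∈ Icc (0 : ℝ) 1, ∀ z, ev (y t) z = ev (b t) z * ev (c t) z ∧
      ¬ (ev (b t) z = 0 ∧ ev (c t) z = 0)

lemma local_K {n : ℕ} (hn : 1 ≤ n) {x : Fin n → ℂ} (hx : x ∈ Kset n) :
    ∃ r : ℝ, 0 < r ∧ ∀ M : ℝ, 0 ≤ M → ∃ C : ℝ, 0 ≤ C ∧ ∀ y : ℝ → Fin n → ℂ,
      CL (n - 1) M y (Icc 0 1) → (∀ t ∈ Icc (0 : ℝ) 1, y t ∈ Metric.closedBall x (2 * r)) →
      SplitConc n C y := by
  obtain ⟨m, k, b₀, c₀, hm, hk, hmk, hcop, hfac⟩ := exists_factor hn hx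
  subst hmk
  obtain ⟨U, ψ, hU, hmem, hψ, hprop⟩ := local_split hcop (m + k)
  have hx' : x = mulc m k (b₀, c₀) := by
    funext i
    rw [← mon_coeff_fin x i, hfac]
    rfl
  rw [← hx'] at hmem
  obtain ⟨r, hr, hrU⟩ := Metric.isOpen_iff.mp hU x hmem
  refine ⟨r / 4, by positivity, ?_⟩
  intro M hM
  have hs01 : UniqueDiffOn ℝ (Icc (0 : ℝ) 1) := uniqueDiffOn_Icc zero_lt_one
  have hKU : Metric.closedBall x (2 * (r / 4)) ⊆ U :=
    (Metric.closedBall_subset_ball (by linarith)).trans hrU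
  have hψ' : ContDiffOn ℝ (((m + k - 1 : ℕ) : WithTop ℕ∞) + 1) ψ U := by
    have : ((m + k - 1 : ℕ) : WithTop ℕ∞) + 1 = ((m + k : ℕ) : WithTop ℕ∞) := by
      norm_cast
      omega
    rw [this]
    exact hψ
  obtain ⟨C, hC0, hC⟩ := CL.comp_smooth hs01 (convex_Icc 0 1) hU
    (isCompact_closedBall x (2 * (r / 4))) (convex_closedBall _ _) hKU (m + k - 1) ψ hψ' M hM
  refine ⟨C, hC0, ?_⟩
  intro y hy hyb
  have h1 := hC y hy hyb
  have hb := h1.clm hs01 (ContinuousLinearMap.fst ℝ (Fin m → ℂ) (Fin k → ℂ)) (C := 1)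
    (ContinuousLinearMap.norm_fst_le ..)
  have hc := h1.clm hs01 (ContinuousLinearMap.snd ℝ (Fin m → ℂ) (Fin k → ℂ)) (C := 1)
    (ContinuousLinearMap.norm_snd_le ..)
  rw [one_mul] at hb hc
  refine ⟨m, k, fun t => (ψ (y t)).1, fun t => (ψ (y t)).2, hm, hk, rfl, hb, hc, ?_⟩
  intro t ht z
  exact hprop (y t) (hKU (hyb t ht)) z

/-- The uniform splitting lemma. -/
lemma split_uniform {n : ℕ} (hn : 1 ≤ n) : ∃ ε : ℝ, 0 < ε ∧ ∀ M : ℝ, 0 ≤ M → ∃ C : ℝ, 0 ≤ C ∧
    ∀ y : ℝ → Fin n → ℂ, CL (n - 1) M y (Icc 0 1) → (∃ t₀ ∈ Icc (0 : ℝ) 1, y t₀ ∈ Kset n) →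
      (∀ t ∈ Icc (0 : ℝ) 1, ∀ t' ∈ Icc (0 : ℝ) 1, ‖y t - y t'‖ ≤ ε) → SplitConc n C y := by
  classical
  have hloc : ∀ x : Fin n → ℂ, ∃ r : ℝ, 0 < r ∧ (x ∈ Kset n → ∀ M : ℝ, 0 ≤ M → ∃ C : ℝ, 0 ≤ C ∧
      ∀ y : ℝ → Fin n → ℂ, CL (n - 1) M y (Icc 0 1) →
        (∀ t ∈ Icc (0 : ℝ) 1, y t ∈ Metric.closedBall x (2 * r)) → SplitConc n C y) := by
    intro x
    by_cases hx : x ∈ Kset n
    · obtain ⟨r, hr, h⟩ := local_K hn hx
      exact ⟨r, hr, fun _ => h⟩
    · exact ⟨1, one_pos, fun h => absurd h hx⟩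
  choose r hr hrx using hloc
  obtain ⟨T, hTK, hT⟩ := (isCompact_Kset n).elim_nhds_subcover (fun x => Metric.ball x (r x))
    (fun x _ => Metric.ball_mem_nhds x (hr x))
  rcases T.eq_empty_or_nonempty with hTe | hTne
  · refine ⟨1, one_pos, fun M _ => ⟨0, le_rfl, ?_⟩⟩
    rintro y _ ⟨t₀, _, h0⟩ _
    have := hT h0
    simp [hTe] at this
  · refine ⟨T.inf' hTne r, ?_, ?_⟩
    · rw [Finset.lt_inf'_iff]
      exact fun x _ => hr x
    · intro M hM
      have hC : ∀ x, ∃ C : ℝ, 0 ≤ C ∧ (x ∈ Kset n → ∀ y : ℝ → Fin n → ℂ, CL (n - 1) M y (Icc 0 1) →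
          (∀ t ∈ Icc (0 : ℝ) 1, y t ∈ Metric.closedBall x (2 * r x)) → SplitConc n C y) := by
        intro x
        by_cases hx : x ∈ Kset n
        · obtain ⟨C, hC0, hC⟩ := hrx x hx M hM
          exact ⟨C, hC0, fun _ => hC⟩
        · exact ⟨0, le_rfl, fun h => absurd h hx⟩
      choose C hC0 hC using hC
      refine ⟨∑ x ∈ T, C x, Finset.sum_nonneg fun x _ => hC0 x, ?_⟩
      rintro y hy ⟨t₀, ht₀, h0⟩ hosc
      obtain ⟨x, hxT, hx⟩ : ∃ x ∈ T, y t₀ ∈ Metric.ball x (r x) := by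
        have := hT h0
        simpa using this
      have hball : ∀ t ∈ Icc (0 : ℝ) 1, y t ∈ Metric.closedBall x (2 * r x) := by
        intro t ht
        rw [Metric.mem_closedBall]
        have h1 : dist (y t) (y t₀) ≤ r x := by
          rw [dist_eq_norm]
          exact (hosc t ht t₀ ht₀).trans (Finset.inf'_le r hxT)
        have h2 : dist (y t₀) x < r x := hx
        have := dist_triangle (y t) (y t₀) x
        linarith
      obtain ⟨m, k, b, c, hm, hk, hmk, hb, hc, hprop⟩ := hC x (hTK x hxT) y hy hball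
      have hle : C x ≤ ∑ x ∈ T, C x := Finset.single_le_sum (fun x _ => hC0 x) hxT
      exact ⟨m, k, b, c, hm, hk, hmk, hb.mono hle, hc.mono hle, hprop⟩

end Pool.Agent.WeakRoots
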