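import Pool.Agent.WeakRoots.GoodStep

set_option autoImplicit false

open Set MeasureTheory Topology
open scoped ENNReal

namespace Pool.Agent.WeakRoots

/-- Every point where some coefficient is nonzero lies in a good dyadic interval. -/
lemma exists_good {n : ℕ} {y : ℝ → Fin (n + 1) → ℂ} (hy : ContinuousOn y (Icc 0 1))
    {A : ℕ × ℕ → ℝ} (hA : ASpec y A) {ε : ℝ} (hε : 0 < ε) {t : ℝ} (ht : t ∈ Ioo (0 : ℝ) 1)
    {κ₀ : Fin (n + 1) × Bool} (hκ₀ : ut y κ₀ t ≠ 0) :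
    ∃ Q ∈ GoodSet y A ε, t ∈ Ico (dl Q) (dr Q) := by
  classical
  have hu : ∀ κ, ContinuousOn (ut y κ) (Icc 0 1) := by
    intro κ
    have h1 : ContinuousOn (fun t => y t κ.1) (Icc 0 1) := (continuous_apply κ.1).comp_continuousOn hy
    rcases κ with ⟨i, b⟩
    cases b
    · exact (Complex.continuous_im.comp_continuousOn h1).congr fun t _ => by simp [ut]
    · exact (Complex.continuous_re.comp_continuousOn h1).congr fun t _ => by simp [ut]
  set α₀ : ℝ := min 1 |ut y κ₀ t| with hα₀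
  have hα₀0 : 0 < α₀ := lt_min one_pos (abs_pos.mpr hκ₀)
  have ht01 : Icc (0 : ℝ) 1 ∈ 𝓝 t := Icc_mem_nhds ht.1 ht.2
  have hev : ∀ᶠ t' in 𝓝 t, ∀ κ, |ut y κ t' - ut y κ t| < ε / 2 * α₀ ^ wt κ := by
    rw [Filter.eventually_all]
    intro κ
    have hc : ContinuousAt (ut y κ) t := (hu κ).continuousAt ht01
    have hpos : 0 < ε / 2 * α₀ ^ wt κ := by positivity
    have := Metric.tendsto_nhds.mp hc.tendsto _ hpos
    simpa [Real.dist_eq] using this
  obtain ⟨δ, hδ, hδ'⟩ := Metric.eventually_nhds_iff.mp hev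
  obtain ⟨p, hp⟩ := exists_pow_lt_of_lt_one (lt_min hδ hα₀0) (by norm_num : (1 / 2 : ℝ) < 1)
  have hp1 : (1 / 2 : ℝ) ^ p < δ := hp.trans_le (min_le_left _ _)
  have hp2 : (1 / 2 : ℝ) ^ p < α₀ := hp.trans_le (min_le_right _ _)
  set Q : ℕ × ℕ := (p, ⌊t * 2 ^ p⌋₊) with hQ
  have h2p : (0 : ℝ) < 2 ^ p := by positivity
  have hlen : dlen Q = (1 / 2 : ℝ) ^ p := by
    rw [hQ]; unfold dlen; rw [one_div_pow]
  have hdl : dl Q ≤ t := by
    rw [hQ]; unfold dl
    rw [div_le_iff₀ h2p]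
    exact Nat.floor_le (by have := ht.1; positivity)
  have hdr : t < dr Q := by
    rw [hQ]; unfold dr
    rw [lt_div_iff₀ h2p]
    exact Nat.lt_floor_add_one _
  have hQ1 : Q.2 < 2 ^ Q.1 := by
    rw [hQ]
    simp only
    have h1 : t * 2 ^ p < ((2 ^ p : ℕ) : ℝ) := by
      push_cast
      nlinarith [ht.2]
    exact (Nat.floor_lt (by have := ht.1; positivity)).mpr h1
  obtain ⟨hA0, hA1, -⟩ := hA Q hQ1
  have htQ : t ∈ Icc (dl Q) (dr Q) := ⟨hdl, hdr.le⟩
  have hAα : α₀ ≤ A Q := by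
    by_contra hcon
    push Not at hcon
    have h1 : A Q < 1 := hcon.trans_le (min_le_left _ _)
    have h2 : A Q < |ut y κ₀ t| := hcon.trans_le (min_le_right _ _)
    have h3 := hA1 t htQ κ₀
    have h4 : A Q ^ wt κ₀ ≤ A Q := by
      have := pow_le_pow_of_le_one hA0 h1.le (wt_pos κ₀)
      simpa using this
    linarith
  refine ⟨Q, ⟨hQ1, hα₀0.trans_le hAα, ?_, ?_⟩, hdl, hdr⟩
  · rw [hlen]
    exact hp2.le.trans hAα
  · intro κ s hs s' hs'
    have hdist : ∀ s ∈ Icc (dl Q) (dr Q), dist s t < δ := by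
      intro s hs
      refine lt_of_le_of_lt ?_ hp1
      rw [← hlen, ← dr_sub_dl, Real.dist_eq, abs_le]
      constructor <;> linarith [hs.1, hs.2]
    have h1 := hδ' (hdist s hs) κ
    have h2 := hδ' (hdist s' hs') κ
    have h3 : α₀ ^ wt κ ≤ A Q ^ wt κ := pow_le_pow_left₀ hα₀0.le hAα _
    have h4 : |ut y κ s - ut y κ s'| ≤ |ut y κ s - ut y κ t| + |ut y κ s' - ut y κ t| := by
      have := abs_sub_le (ut y κ s) (ut y κ t) (ut y κ s')
      rwa [abs_sub_comm (ut y κ t)] at this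
    have h5 : ε * α₀ ^ wt κ ≤ ε * A Q ^ wt κ := mul_le_mul_of_nonneg_left h3 hε.le
    linarith

/-- The estimate for centred polynomials. -/
lemma centred_bound {n : ℕ} (hn : 1 ≤ n) (IH : ∀ m, 1 ≤ m → m ≤ n → SS m) {Λ : ℝ} (hΛ : 0 ≤ Λ) :
    ∃ C : ℝ, 0 ≤ C ∧ ∀ y : ℝ → Fin (n + 1) → ℂ, CL n Λ y (Icc 0 1) →
      (∀ t, y t (Fin.last n) = 0) → ∀ (c d : ℝ), 0 ≤ c → d ≤ 1 → ∀ lam : ℝ → ℂ,
      ContinuousOn lam (Ioo c d) → (∀ t ∈ Ioo c d, ev (y t) (lam t) = 0) → ∀ σ : ℝ, 0 < σ →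
      volume {t | t ∈ Ioo c d ∧ σ < ‖deriv lam t‖} ≤
        ENNReal.ofReal (C * σ ^ (-(((n : ℝ) + 1) / n))) := by
  classical
  obtain ⟨ε, hε, Cg, hCg0, hg⟩ := good_bound hn IH hΛ
  obtain ⟨CN, hCN0, hN⟩ := weak_density hn hΛ hε
  set p : ℝ := ((n : ℝ) + 1) / n with hp
  set q : ℝ := (2 * (n : ℝ) + 1) / (2 * n - 1) with hq
  have hn1 : (1 : ℝ) ≤ n := by exact_mod_cast hn
  have hq0 : 0 ≤ q := by
    rw [hq]
    apply div_nonneg <;> linarith
  have hpq : p < q := by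
    rw [hp, hq, div_lt_div_iff₀ (by linarith) (by linarith)]
    nlinarith
  have hρ1 : (2 : ℝ) ^ (p - q) < 1 := Real.rpow_lt_one_of_one_lt_of_neg (by norm_num) (by linarith)
  refine ⟨max 1 Cg * (CN * 2 ^ p * (1 - 2 ^ (p - q))⁻¹), ?_, ?_⟩
  · have : 0 < 1 - (2 : ℝ) ^ (p - q) := by linarith
    positivity
  intro y hy hlast c d hc hd lam hlam hroot σ hσ
  obtain ⟨A, hA⟩ := exists_ASpec hy.continuousOn
  set F := maxi (GoodSet y A ε) with hF
  set S : Set ℝ := {t | t ∈ Ioo c d ∧ σ < ‖deriv lam t‖} with hS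
  set Z : Set ℝ := {t | lam t = 0 ∧ deriv lam t ≠ 0} with hZ
  set E : Set ℝ := range dl with hE
  set SQ : ℕ × ℕ → Set ℝ := fun Q =>
    {t | t ∈ Ioo c d ∧ t ∈ Ioo (dl Q) (dl Q + dlen Q) ∧ σ < ‖deriv lam t‖} with hSQ
  have hcover : S ⊆ (Z ∪ E) ∪ ⋃ Q ∈ F, SQ Q := by
    rintro t ⟨ht1, ht2⟩
    have ht01 : t ∈ Ioo (0 : ℝ) 1 := ⟨hc.trans_lt ht1.1, ht1.2.trans_le hd⟩
    by_cases h0 : ∀ κ, ut y κ t = 0
    · left; left
      have hy0 : y t = 0 := by
        funext i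
        have h1 := h0 (i, true)
        have h2 := h0 (i, false)
        simp only [ut] at h1 h2
        exact Complex.ext (by simpa using h1) (by simpa using h2)
      have h3 := hroot t ht1
      rw [hy0] at h3
      have h4 : lam t = 0 := by
        simpa [ev] using h3
      refine ⟨h4, ?_⟩
      intro h5
      rw [h5, norm_zero] at ht2
      linarith
    · push Not at h0
      obtain ⟨κ₀, hκ₀⟩ := h0
      obtain ⟨Q, hQ, htQ⟩ := exists_good hy.continuousOn hA hε ht01 hκ₀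
      obtain ⟨Q', hQ', hanc⟩ := exists_maxi hQ
      have htQ' : t ∈ Ico (dl Q') (dr Q') :=
        ⟨hanc.sub.1.trans htQ.1, htQ.2.trans_le hanc.sub.2⟩
      rcases eq_or_lt_of_le htQ'.1 with h | h
      · left; right
        exact ⟨Q', h⟩
      · right
        refine mem_iUnion₂.mpr ⟨Q', hQ', ht1, ⟨h, ?_⟩, ht2⟩
        have := dr_sub_dl Q'
        linarith [htQ'.2]
  have hnull : volume (Z ∪ E) = 0 :=
    ((countable_zero_deriv_ne lam).union (countable_range dl)).measure_zero volume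
  have hSQle : ∀ Q ∈ F, volume (SQ Q) ≤ ENNReal.ofReal (dlen Q) *
      min 1 (ENNReal.ofReal (Cg * (σ / (A Q / dlen Q)) ^ (-q))) := by
    intro Q hQ
    obtain ⟨hQ1, hQ2, hQ3, hQ4⟩ := hQ.1
    have hlen := dlen_pos Q
    have hrr : dl Q + dlen Q = dr Q := by have := dr_sub_dl Q; linarith
    have e1 : σ / (A Q / dlen Q) = σ * dlen Q / A Q := by field_simp
    rcases le_total 1 (ENNReal.ofReal (Cg * (σ / (A Q / dlen Q)) ^ (-q))) with h | h
    · rw [min_eq_left h, mul_one]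
      have : SQ Q ⊆ Ioo (dl Q) (dl Q + dlen Q) := fun t ht => ht.2.1
      refine (measure_mono this).trans ?_
      rw [Real.volume_Ioo]
      exact ENNReal.ofReal_le_ofReal (by linarith)
    · rw [min_eq_right h, e1]
      refine hg y hy hlast (dl Q) (dlen Q) (A Q) (dl_nonneg Q) hlen ?_ hQ2 hQ3 ?_ ?_ ?_ c d lam
        hlam hroot σ hσ
      · rw [hrr]; exact dr_le_one hQ1
      · rw [hrr]; exact (hA Q hQ1).2.1
      · rw [hrr]; exact (hA Q hQ1).2.2
      · rw [hrr]; exact hQ4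
  have hlayer := layer (F := F) (m := fun Q => A Q / dlen Q)
    (fun Q hQ => div_pos hQ.1.2.1 (dlen_pos Q)) (v := fun Q => ENNReal.ofReal (dlen Q))
    (C := Cg) hq0 hpq hCN0 (fun τ hτ => hN y A hy hlast hA τ hτ) hσ
  calc volume S ≤ volume ((Z ∪ E) ∪ ⋃ Q ∈ F, SQ Q) := measure_mono hcover
    _ ≤ volume (Z ∪ E) + volume (⋃ Q ∈ F, SQ Q) := measure_union_le _ _
    _ = volume (⋃ Q ∈ F, SQ Q) := by rw [hnull, zero_add]
    _ ≤ ∑' Q : F, volume (SQ Q) := measure_biUnion_le volume (to_countable _) _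
    _ = ∑' Q, F.indicator (fun Q => volume (SQ Q)) Q :=
        tsum_subtype F (fun Q => volume (SQ Q))
    _ ≤ ∑' Q, F.indicator (fun Q => ENNReal.ofReal (dlen Q) *
        min 1 (ENNReal.ofReal (Cg * (σ / (A Q / dlen Q)) ^ (-q)))) Q := by
        refine ENNReal.tsum_le_tsum fun Q => ?_
        by_cases hQ : Q ∈ F
        · rw [indicator_of_mem hQ, indicator_of_mem hQ]
          exact hSQle Q hQ
        · rw [indicator_of_notMem hQ, indicator_of_notMem hQ]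
    _ ≤ _ := hlayer

/-- The base of the induction. -/
lemma SS_one : SS 1 := by
  intro M q hM hq _
  refine ⟨M ^ q, by positivity, ?_⟩
  intro a ha c d hc hd lam hlam hroot σ hσ
  have hs01 : UniqueDiffOn ℝ (Icc (0 : ℝ) 1) := uniqueDiffOn_Icc zero_lt_one
  have hlam' : ∀ t ∈ Ioo c d, lam t = -a t 0 := by
    intro t ht
    have := hroot t ht
    simp only [ev, pow_one, Finset.univ_unique, Fin.default_eq_zero, Finset.sum_singleton,
      Fin.val_zero, pow_zero, mul_one] at this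
    linear_combination this
  have hbd : ∀ t ∈ Ioo c d, ‖deriv lam t‖ ≤ M := by
    intro t ht
    refine norm_deriv_le_of_lip' hM ?_
    filter_upwards [Ioo_mem_nhds ht.1 ht.2] with s hs
    have hmem : ∀ r ∈ Ioo c d, r ∈ Icc (0 : ℝ) 1 := fun r hr =>
      ⟨hc.trans hr.1.le, hr.2.le.trans hd⟩
    rw [hlam' s hs, hlam' t ht]
    have h1 := ha.lip hs01 (convex_Icc 0 1) t (hmem t ht) s (hmem s hs)
    have h2 : ‖-a s 0 - -a t 0‖ ≤ ‖a t - a s‖ := by
      have := norm_le_pi_norm (a t - a s) 0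
      refine le_trans (le_of_eq ?_) this
      rw [Pi.sub_apply]
      congr 1
      ring
    refine h2.trans (h1.trans (le_of_eq ?_))
    rw [abs_sub_comm, Real.norm_eq_abs]
  rcases le_or_gt M σ with h | h
  · have : {t | t ∈ Ioo c d ∧ σ < ‖deriv lam t‖} = ∅ := by
      ext t
      simp only [mem_ofPred_eq, mem_empty_iff_false, iff_false, not_and, not_lt]
      exact fun ht => (hbd t ht).trans h
    rw [this, measure_empty]
    exact bot_le
  · have h1 : volume {t | t ∈ Ioo c d ∧ σ < ‖deriv lam t‖} ≤ volume (Icc (0 : ℝ) 1) :=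
      measure_mono fun t ht => ⟨hc.trans ht.1.1.le, ht.1.2.le.trans hd⟩
    refine h1.trans ?_
    rw [Real.volume_Icc]
    refine ENNReal.ofReal_le_ofReal ?_
    rw [Real.rpow_neg hσ.le, ← div_eq_mul_inv, sub_zero, le_div_iff₀ (by positivity), one_mul]
    exact Real.rpow_le_rpow hσ.le h.le hq.le

/-- The induction step. -/
lemma SS_step {n : ℕ} (hn : 1 ≤ n) (IH : ∀ m, 1 ≤ m → m ≤ n → SS m) : SS (n + 1) := by
  intro M q hM hq hqp
  have hs01 : UniqueDiffOn ℝ (Icc (0 : ℝ) 1) := uniqueDiffOn_Icc zero_lt_one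
  have hn1 : (1 : ℝ) ≤ n := by exact_mod_cast hn
  set p : ℝ := ((n : ℝ) + 1) / n with hp
  have hp0 : 0 < p := by positivity
  have hqp' : q ≤ p := by
    rcases hqp with h | h
    · omega
    · rw [hp]
      push_cast at h
      have e : (n : ℝ) + 1 - 1 = n := by ring
      rwa [e] at h
  obtain ⟨Λ, hΛ0, hΛ⟩ := exists_centred n M hM
  obtain ⟨C₁, hC₁0, hC₁⟩ := centred_bound hn IH hΛ0
  refine ⟨C₁ * 2 ^ p + (2 * M) ^ p + 1, by positivity, ?_⟩
  intro a ha c d hc hd lam hlam hroot σ hσ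
  simp only [Nat.add_sub_cancel] at ha
  obtain ⟨hy1, hy2, hy3⟩ := hΛ a ha
  set h : ℝ → ℂ := fun t => a t (Fin.last n) / ((n + 1 : ℕ) : ℂ) with hh
  set lam' : ℝ → ℂ := fun t => lam t + h t with hlam'
  have hmem : ∀ r ∈ Ioo c d, r ∈ Icc (0 : ℝ) 1 := fun r hr =>
    ⟨hc.trans hr.1.le, hr.2.le.trans hd⟩
  have hmem' : ∀ r ∈ Ioo c d, r ∈ Ioo (0 : ℝ) 1 := fun r hr =>
    ⟨hc.trans_lt hr.1, hr.2.trans_le hd⟩
  -- properties of `h`
  have hacl : CL n M (fun t => a t (Fin.last n)) (Icc 0 1) := ha.apply hs01 _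
  have hhc : ContinuousOn h (Icc 0 1) := hacl.continuousOn.div_const _
  have hnC : (1 : ℝ) ≤ ‖((n + 1 : ℕ) : ℂ)‖ := by
    rw [Complex.norm_natCast]; exact_mod_cast (by omega : 1 ≤ n + 1)
  obtain ⟨n', rfl⟩ : ∃ n', n = n' + 1 := ⟨n - 1, by omega⟩
  have hhd : ∀ t ∈ Ioo (0 : ℝ) 1, DifferentiableAt ℝ h t ∧ ‖deriv h t‖ ≤ M := by
    intro t ht
    have h1 := (hacl.hasDeriv hs01 (Ioo_subset_Icc_self ht)).hasDerivAt (Icc_mem_nhds ht.1 ht.2)
    have h2 := h1.div_const (((n' + 1 + 1 : ℕ) : ℂ))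
    refine ⟨h2.differentiableAt, ?_⟩
    rw [h2.deriv, norm_div]
    have h3 : ‖derivWithin (fun t => a t (Fin.last (n' + 1))) (Icc 0 1) t‖ ≤ M :=
      (hacl.deriv hs01).norm_le (Ioo_subset_Icc_self ht)
    rw [div_le_iff₀ (by linarith)]
    nlinarith
  have hlamc : ContinuousOn lam' (Ioo c d) := hlam.add (hhc.mono fun r hr => hmem r hr)
  have hroot' : ∀ t ∈ Ioo c d, ev (tmap (n' + 1) (a t)) (lam' t) = 0 := fun t ht =>
    hy3 t (lam t) (hroot t ht)
  have hcen := hC₁ (fun t => tmap (n' + 1) (a t)) hy1 hy2 c d hc hd lam' hlamc hroot'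
  have hvol1 : volume {t | t ∈ Ioo c d ∧ σ < ‖deriv lam t‖} ≤ 1 := by
    have h1 : volume {t | t ∈ Ioo c d ∧ σ < ‖deriv lam t‖} ≤ volume (Icc (0 : ℝ) 1) :=
      measure_mono fun t ht => hmem t ht.1
    simpa using h1
  have hM2 : (0 : ℝ) ≤ 2 * M := by positivity
  -- the bound with exponent `p`
  have hmain : volume {t | t ∈ Ioo c d ∧ σ < ‖deriv lam t‖} ≤
      ENNReal.ofReal ((C₁ * 2 ^ p + (2 * M) ^ p) * σ ^ (-p)) := by
    rcases lt_or_ge σ (2 * M) with hlt | hge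
    · refine hvol1.trans ?_
      rw [ENNReal.one_le_ofReal]
      have h2 : 1 ≤ (2 * M) ^ p * σ ^ (-p) := by
        rw [Real.rpow_neg hσ.le, ← div_eq_mul_inv, le_div_iff₀ (by positivity), one_mul]
        exact Real.rpow_le_rpow hσ.le hlt.le hp0.le
      have h3 : 0 ≤ C₁ * 2 ^ p * σ ^ (-p) := by positivity
      nlinarith
    · have hsub : {t | t ∈ Ioo c d ∧ σ < ‖deriv lam t‖} ⊆
          {t | t ∈ Ioo c d ∧ σ / 2 < ‖deriv lam' t‖} := by
        rintro t ⟨ht1, ht2⟩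
        refine ⟨ht1, ?_⟩
        obtain ⟨hd1, hd2⟩ := hhd t (hmem' t ht1)
        have hdl : DifferentiableAt ℝ lam t := by
          by_contra hcon
          rw [deriv_zero_of_not_differentiableAt hcon, norm_zero] at ht2
          linarith
        have h1 : deriv lam' t = deriv lam t + deriv h t := deriv_add hdl hd1
        have h2 : ‖deriv lam t‖ ≤ ‖deriv lam' t‖ + ‖deriv h t‖ := by
          have : deriv lam t = deriv lam' t - deriv h t := by rw [h1]; ring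
          rw [this]
          exact norm_sub_le _ _
        linarith
      refine (measure_mono hsub).trans ((hcen (σ / 2) (by positivity)).trans ?_)
      refine ENNReal.ofReal_le_ofReal ?_
      have e1 : (σ / 2) ^ (-p) = 2 ^ p * σ ^ (-p) := by
        rw [Real.div_rpow hσ.le (by norm_num), Real.rpow_neg (by norm_num : (0 : ℝ) ≤ 2), div_inv_eq_mul,
          mul_comm]
      have h3 : 0 ≤ (2 * M) ^ p * σ ^ (-p) := by positivity
      have e2 : ((n' + 1 : ℕ) : ℝ) + 1 = (n' + 1 : ℕ) + 1 := rfl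
      calc C₁ * (σ / 2) ^ (-p) = C₁ * 2 ^ p * σ ^ (-p) := by rw [e1]; ring
        _ ≤ _ := by nlinarith
  -- the bound with exponent `q`
  have hC0 : 0 ≤ C₁ * 2 ^ p + (2 * M) ^ p := by positivity
  rcases le_or_gt 1 σ with h1 | h1
  · refine hmain.trans (ENNReal.ofReal_le_ofReal ?_)
    have h2 : σ ^ (-p) ≤ σ ^ (-q) := Real.rpow_le_rpow_of_exponent_le h1 (by linarith)
    have h3 : 0 ≤ σ ^ (-q) := by positivity
    calc (C₁ * 2 ^ p + (2 * M) ^ p) * σ ^ (-p) ≤ (C₁ * 2 ^ p + (2 * M) ^ p) * σ ^ (-q) := by gcongr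
      _ ≤ _ := by nlinarith
  · refine hvol1.trans ?_
    rw [ENNReal.one_le_ofReal]
    have h2 : 1 ≤ σ ^ (-q) := Real.one_le_rpow_of_pos_of_le_one_of_nonpos hσ h1.le (by linarith)
    nlinarith

/-- The weak type bound in every degree. -/
theorem SS_all (n : ℕ) (hn : 1 ≤ n) : SS n := by
  induction n using Nat.strong_induction_on with
  | _ n ih =>
    rcases Nat.eq_or_lt_of_le hn with h | h
    · rw [← h]; exact SS_one
    · obtain ⟨k, rfl⟩ : ∃ k, n = k + 1 := ⟨n - 1, by omega⟩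
      exact SS_step (by omega) fun m hm1 hm2 => ih m (by omega) hm1

end Pool.Agent.WeakRoots
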